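import Pool.Agent.Lib.MP_d439b2_co.H1M.Spec

/-!
# MP_d439b2_co, pair `(C_4, K3:0,1,02)`, type (M), B1: crossing traces are not adjacent
-/

set_option autoImplicit false

namespace Pool.Agent.MPd439b2.H1M

open Pool.Agent.MPd439b2 Pool.Agent.MPd439b2.LK Pool.Agent.MPd439b2.H1

theorem pfB1 : H1.S_M2 → S_B1 := by
  intro hM V G K a b u w hC hK ha hb hu hw hua hub hwb hwa huw
  have hab : a ≠ b := fun h => hub (h ▸ hua)
  rcases hM V G u a b w hC hua (hK a ha b hb hab) hwb.symm huw.symm (fun h => hu (h ▸ hb))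
    (fun h => hw (h ▸ ha)) with h | h
  · exact hub h
  · exact hwa h.symm

end Pool.Agent.MPd439b2.H1M
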