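import Pool.Agent.Lib.MP_d439b2_co.H1M.Spec

/-!
# MP_d439b2_co, pair `(C_4, K3:0,1,02)`, type (M): sequences, subsets (`S_B2`)
-/

set_option autoImplicit false

namespace Pool.Agent.MPd439b2.H1M

open Pool.Agent.MPd439b2 Pool.Agent.MPd439b2.LK Pool.Agent.MPd439b2.H1

private theorem b2_ms_sub {V : Type} {G : SimpleGraph V} {T T' : Set V} (h : T' ⊆ T) (w : V) :
    Ms G T' w = Ms G T w ∩ T' := by
  ext k
  constructor
  · rintro ⟨h1, h2⟩
    exact ⟨⟨h h1, h2⟩, h1⟩
  · rintro ⟨⟨_, h2⟩, h1⟩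
    exact ⟨h1, h2⟩

private theorem b2_single {V : Type} {T' : Set V} {t : V} (h : t ∈ T') : ({t} : Set V) ∩ T' = {t} :=
  Set.inter_eq_left.2 (Set.singleton_subset_iff.2 h)

private theorem b2_ms_rg {V : Type} {G : SimpleGraph V} (s : ℕ → V) (m : ℕ) (w : V) :
    Ms G (rg s m) w = s '' Tr G s m w := by
  ext k
  constructor
  · rintro ⟨⟨i, hi, rfl⟩, h2⟩
    exact ⟨i, ⟨hi, h2⟩, rfl⟩
  · rintro ⟨i, ⟨hi, h2⟩, rfl⟩
    exact ⟨⟨i, hi, rfl⟩, h2⟩

private theorem b2_one {V : Type} {G : SimpleGraph V} (s : ℕ → V) (m : ℕ) (h1 : Sq G s m)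
    (h2 : TyM G s m) : TM G (rg s m) ∧ (rg s m).ncard = m := by
  classical
  have hOt : ∀ w, w ∉ rg s m → Ot s m w := fun w hw i hi h => hw ⟨i, hi, h⟩
  have hrg : rg s m = s '' {i | i < m} := by
    ext k
    constructor
    · rintro ⟨i, hi, rfl⟩
      exact ⟨i, hi, rfl⟩
    · rintro ⟨i, hi, rfl⟩
      exact ⟨i, hi, rfl⟩
  refine ⟨⟨?_, ?_, ?_⟩, ?_⟩
  · rintro u ⟨i, hi, rfl⟩ v ⟨j, hj, rfl⟩ huv
    exact h1 i hi j hj (fun h => huv (by rw [h]))
  · intro w hw
    rw [b2_ms_rg]
    rcases h2.1 w (hOt w hw) with h | h | ⟨e, he, h⟩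
    · left
      rw [h, Set.image_empty]
    · right
      left
      rw [h, hrg]
    · right
      right
      refine ⟨s e, ⟨e, he, rfl⟩, ?_⟩
      rw [h, Set.image_singleton]
  · rintro _ ⟨e, he, rfl⟩
    obtain ⟨w, hw, hwe⟩ := h2.2 e he
    refine ⟨w, ?_, ?_⟩
    · rintro ⟨i, hi, h⟩
      exact hw i hi h
    · rw [b2_ms_rg, hwe, Set.image_singleton]
  · have hinj : Set.InjOn s (Finset.range m : Set ℕ) := by
      intro i hi j hj hij
      by_contra hne
      have h3 := h1 i (Finset.mem_range.mp (Finset.mem_coe.mp hi)) j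
        (Finset.mem_range.mp (Finset.mem_coe.mp hj)) hne
      rw [hij] at h3
      exact h3.ne rfl
    have h4 : rg s m = (((Finset.range m).image s : Finset V) : Set V) := by
      ext k
      rw [Finset.mem_coe, Finset.mem_image]
      constructor
      · rintro ⟨i, hi, rfl⟩
        exact ⟨i, Finset.mem_range.mpr hi, rfl⟩
      · rintro ⟨i, hi, rfl⟩
        exact ⟨i, Finset.mem_range.mp hi, rfl⟩
    rw [h4, Set.ncard_coe_finset, Finset.card_image_of_injOn hinj, Finset.card_range]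

/-- **B2.** Sequences, subsets. -/
theorem pfB2 : S_B2 := by
  classical
  intro V _ G
  refine ⟨fun s m h1 h2 => b2_one s m h1 h2, ?_, ?_, ?_, ?_⟩
  · rintro T T' ⟨hc, hw, hs⟩ hT
    refine ⟨fun u hu v hv huv => hc u (hT hu) v (hT hv) huv, fun w hwT' => ?_, fun s hsT' => ?_⟩
    · by_cases hwT : w ∈ T
      · left
        rw [Set.eq_empty_iff_forall_notMem]
        rintro k ⟨hk1, hk2⟩
        exact hk2 (hc w hwT k (hT hk1) (fun h => hwT' (by rw [h]; exact hk1)))
      · rw [b2_ms_sub hT]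
        rcases hw w hwT with h | h | ⟨s, hs, h⟩
        · left
          rw [h, Set.empty_inter]
        · right
          left
          rw [h]
          exact Set.inter_eq_right.2 hT
        · by_cases hsT' : s ∈ T'
          · right
            right
            refine ⟨s, hsT', ?_⟩
            rw [h, b2_single hsT']
          · left
            rw [h]
            exact Set.singleton_inter_eq_empty.2 hsT'
    · obtain ⟨w, hw1, hw2⟩ := hs s (hT hsT')
      refine ⟨w, fun h => hw1 (hT h), ?_⟩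
      rw [b2_ms_sub hT, hw2, b2_single hsT']
  · intro T T' v hv hT t ht
    obtain ⟨h1, h2⟩ := hv t (hT ht)
    refine ⟨fun h => h1 (hT h), ?_⟩
    rw [b2_ms_sub hT, h2, b2_single ht]
  · intro T T' q h hT X
    rcases h X with h1 | h1
    · left
      exact (Set.ncard_le_ncard (Set.inter_subset_inter_left X hT) (Set.toFinite _)).trans h1
    · right
      exact (Set.ncard_le_ncard (Set.sdiff_subset_sdiff_left hT) (Set.toFinite _)).trans h1
  · intro T hT
    have h1 : ∀ t, ∃ w, t ∈ T → w ∉ T ∧ Ms G T w = {t} := by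
      intro t
      by_cases ht : t ∈ T
      · obtain ⟨w, hw⟩ := hT.2.2 t ht
        exact ⟨w, fun _ => hw⟩
      · exact ⟨t, fun h => absurd h ht⟩
    choose v hv using h1
    exact ⟨v, hv⟩

end Pool.Agent.MPd439b2.H1M
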