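import Pool.Agent.Lib.MP_d439b2_co.H1M.Spec

/-!
# MP_d439b2_co, H1M: Cut, a cut of rank at most 3 in the star setting (helper50)
-/

set_option autoImplicit false

namespace Pool.Agent.MPd439b2.H1M

open Pool.Agent.MPd439b2 Pool.Agent.MPd439b2.LK Pool.Agent.MPd439b2.H1

private theorem cut_comp_eq {V : Type} {G : SimpleGraph V} {X C C' : Set V} {b : V}
    (hC : IsComp G X C) (hC' : IsComp G X C') (hb : b ∈ C) (hb' : b ∈ C') : C = C' := by
  have h1 : C ∩ C' = C := hC.2.1.eq_of_nb Set.inter_subset_left ⟨b, hb, hb'⟩ (by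
    rintro w hw ⟨hwn, a, ha, haw⟩
    refine hC'.2.2 w (hC.1 hw) ⟨fun h => hwn ⟨hw, h⟩, a, ha.2, haw⟩)
  have h2 : C ∩ C' = C' := hC'.2.1.eq_of_nb Set.inter_subset_right ⟨b, hb, hb'⟩ (by
    rintro w hw ⟨hwn, a, ha, haw⟩
    refine hC.2.2 w (hC'.1 hw) ⟨fun h => hwn ⟨h, hw⟩, a, ha.1, haw⟩)
  exact h1.symm.trans h2

/-- **Cut.** The cut. -/
theorem pfCut (hA1 : LK.S_A1) (h3 : S_S3) (h8 : S_S8b) (h9 : S_S9) (h10 : S_S10) : S_Cut := by
  intro V _ G K T v hS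
  obtain ⟨b₁, hb1⟩ := h9 V G K T v hS
  obtain ⟨b₂, δ, hb2⟩ := h10 V G K T v hS
  obtain ⟨-, h8b, h8c, h8d⟩ := h8 V G K T v hS
  have h3' := h3 V G K T v hS
  refine ⟨b₁, b₂, fun I hI hb₁I hb₂I => ?_⟩
  set N : Set V := {a | ∃ e ∈ I, a ∈ kP G K T v e ∪ Zq G K T v e} with hN
  set M : Set V := {a | ∃ C, (∃ e ∈ I, Ix G K T v C e ∨ I2 G K T v C e) ∧ a ∈ C} with hM
  have hZqZ : ∀ e, ∀ a ∈ Zq G K T v e, a ∈ kZ G K T v := by
    intro e a ha
    rcases ha with ha | ha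
    · exact ha.1
    · exact ha.1
  have hNK : ∀ a ∈ N, a ∈ K := by
    rintro a ⟨e, he, ha | ha⟩
    · exact ha.1
    · exact (hZqZ e a ha).1
  have hComp : ∀ C e, (Ix G K T v C e ∨ I2 G K T v C e) → IsComp G Kᶜ C := by
    intro C e h
    rcases h with h | h
    · exact h.1.1
    · exact h.1.1.1
  have hMK : ∀ a ∈ M, a ∉ K := by
    rintro a ⟨C, ⟨e, -, hCe⟩, haC⟩
    exact (hComp C e hCe).1 haC
  have hrN : rk G N (N ∪ M)ᶜ ≤ 1 := by
    refine (hA1 V G).2.2.2.2.1 N (N ∪ M)ᶜ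
      {b | ∀ C₀, IsComp G Kᶜ C₀ → T0 G T C₀ → b ∉ C₀} ?_
    intro a ha
    left
    intro b hb
    have haK := hNK a ha
    obtain ⟨e, he, hae⟩ := ha
    have heT : e ∈ T := hI he
    by_cases hbK : b ∈ K
    · have hab : a ≠ b := by
        intro h
        rw [← h] at hb
        exact hb (Or.inl ⟨e, he, hae⟩)
      refine ⟨fun _ C₀ hC₀ _ hbC => hC₀.1 hbC hbK, fun _ => hS.kc a haK b hbK hab⟩
    · obtain ⟨C, hCK, hbC, hCc, hCn⟩ := exists_comp G (A := Kᶜ) (v := b) hbK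
      have hCcomp : IsComp G Kᶜ C := ⟨hCK, hCc, hCn⟩
      by_cases hT0 : T0 G T C
      · have hnab : ¬ G.Adj b a := by
          rcases hae with hae | hae
          · exact h3' C hCcomp hT0 a haK (fun h => hae.2.1 (h.2 e heT)) b hbC
          · exact hb1 e heT (fun h => hb₁I (h ▸ he)) C hCcomp hT0 a hae b hbC
        refine ⟨fun h => absurd h.symm hnab, fun h => absurd hbC (h C hCcomp hT0)⟩
      · have hCn' : Cn G K T C := ⟨hCcomp, hT0⟩
        have hno : ¬ Ix G K T v C e := fun h => hb (Or.inr ⟨C, ⟨e, he, Or.inl h⟩, hbC⟩)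
        have hno2 : ¬ I2 G K T v C e := fun h => hb (Or.inr ⟨C, ⟨e, he, Or.inr h⟩, hbC⟩)
        have hba := h8d C hCn' e heT hno hno2 a hae b hbC
        refine ⟨fun _ C₀ hC₀ hT hbC₀ => ?_, fun _ => hba.symm⟩
        rw [cut_comp_eq hC₀ hCcomp hbC₀ hbC] at hT
        exact hT0 hT
  have hrow : ∀ a ∈ M, ∀ b ∈ (N ∪ M)ᶜ, b ∉ kD G K T v → (G.Adj a b ↔ b ∈ K) := by
    rintro a ⟨C, ⟨e, he, hCe⟩, haC⟩ b hb hbD
    have heT : e ∈ T := hI he
    have hC := hComp C e hCe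
    constructor
    · intro hab
      by_contra hbK
      by_cases hbC : b ∈ C
      · exact hb (Or.inr ⟨C, ⟨e, he, hCe⟩, hbC⟩)
      · exact hC.2.2 b hbK ⟨hbC, a, haC, hab⟩
    · intro hbK
      have hbP : b ∉ kP G K T v e := fun h => hb (Or.inl ⟨e, he, Or.inl h⟩)
      have hbZ : b ∉ Zq G K T v e := fun h => hb (Or.inl ⟨e, he, Or.inr h⟩)
      rcases hCe with hCe | hCe
      · exact h8b C e heT hCe b hbK hbD hbP hbZ a haC
      · exact h8c C e heT hCe b hbK hbD hbZ a haC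
  have hrM : rk G M (N ∪ M)ᶜ ≤ 2 := by
    have hsub : M ⊆ {a | a ∈ M ∧ ∀ d ∈ kD G K T v, ¬ G.Adj a d} ∪
        {a | a ∈ M ∧ ∀ d ∈ kD G K T v, (G.Adj a d ↔ d ∈ δ)} := by
      intro a ha
      have ha' := ha
      obtain ⟨C, ⟨e, he, hCe⟩, haC⟩ := ha'
      rcases hb2 e (hI he) (fun h => hb₂I (h ▸ he)) C hCe a haC with h | h
      · exact Or.inl ⟨ha, h⟩
      · exact Or.inr ⟨ha, h⟩
    have h1 := (hA1 V G).2.1 M _ (N ∪ M)ᶜ (N ∪ M)ᶜ hsub le_rfl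
    have h2 := (hA1 V G).2.2.1 {a | a ∈ M ∧ ∀ d ∈ kD G K T v, ¬ G.Adj a d}
        {a | a ∈ M ∧ ∀ d ∈ kD G K T v, (G.Adj a d ↔ d ∈ δ)} (N ∪ M)ᶜ
    have h3 : rk G {a | a ∈ M ∧ ∀ d ∈ kD G K T v, ¬ G.Adj a d} (N ∪ M)ᶜ ≤ 1 := by
      refine (hA1 V G).2.2.2.2.1 _ _ (K \ kD G K T v) ?_
      intro a ha
      left
      intro b hb
      by_cases hbD : b ∈ kD G K T v
      · exact ⟨fun h => absurd h (ha.2 b hbD), fun h => absurd hbD h.2⟩
      · rw [hrow a ha.1 b hb hbD]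
        exact ⟨fun h => ⟨h, hbD⟩, fun h => h.1⟩
    have h4 : rk G {a | a ∈ M ∧ ∀ d ∈ kD G K T v, (G.Adj a d ↔ d ∈ δ)} (N ∪ M)ᶜ ≤ 1 := by
      refine (hA1 V G).2.2.2.2.1 _ _ {b | (b ∈ kD G K T v ∧ b ∈ δ) ∨
        (b ∉ kD G K T v ∧ b ∈ K)} ?_
      intro a ha
      left
      intro b hb
      by_cases hbD : b ∈ kD G K T v
      · rw [ha.2 b hbD]
        exact ⟨fun h => Or.inl ⟨hbD, h⟩, fun h => h.elim (fun h => h.2) (fun h => absurd hbD h.1)⟩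
      · rw [hrow a ha.1 b hb hbD]
        exact ⟨fun h => Or.inr ⟨hbD, h⟩, fun h => h.elim (fun h => absurd h.1 hbD) (fun h => h.2)⟩
    omega
  refine ⟨N ∪ M, ?_, ?_⟩
  · have h5 := (hA1 V G).2.2.1 N M (N ∪ M)ᶜ
    unfold cr
    omega
  · ext t
    constructor
    · rintro ⟨htT, ht⟩
      have htK : t ∈ K := hS.tk htT
      have hwt := hS.wt t htT
      rcases ht with ht | ht
      · obtain ⟨e, he, hte | hte⟩ := ht
        · have h6 : t ∈ Ms G T (v e) := ⟨htT, hte.2.1⟩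
          rw [(hS.wt e (hI he)).2] at h6
          rw [Set.mem_singleton_iff.mp h6]
          exact he
        · have h6 : t ∈ Ms G T (v t) := by rw [hwt.2]; rfl
          exact absurd ((hZqZ e t hte).2 t htT) h6.2
      · exact absurd htK (hMK t ht)
    · intro ht
      have htT : t ∈ T := hI ht
      refine ⟨htT, Or.inl ⟨t, ht, Or.inl ⟨hS.tk htT, ?_, ?_⟩⟩⟩
      · have h6 : t ∈ Ms G T (v t) := by rw [(hS.wt t htT).2]; rfl
        exact h6.2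
      · intro s hs hst
        by_contra hn
        have h6 : t ∈ Ms G T (v s) := ⟨htT, hn⟩
        rw [(hS.wt s hs).2] at h6
        exact hst (Set.mem_singleton_iff.mp h6).symm

end Pool.Agent.MPd439b2.H1M
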