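import Pool.Agent.Lib.MP_d439b2_co.H1M.Spec

/-!
# MP_d439b2_co, pair `(C_4, K3:0,1,02)`, type (M), Fin: type (M) is excluded
-/

set_option autoImplicit false

namespace Pool.Agent.MPd439b2.H1M

open Pool.Agent.MPd439b2 Pool.Agent.MPd439b2.LK Pool.Agent.MPd439b2.H1

theorem pfFin : S_B2 → S_SN3 → S_N6 → S_Star → S_Fin := by
  intro hB hSN hN6 hSt q
  obtain ⟨m', hm'⟩ := hSt q
  obtain ⟨h, hh⟩ := hN6 q
  obtain ⟨N, hN⟩ := hSN m' h
  refine ⟨N, fun V _ G s hCl hSq hTy hLk => ?_⟩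
  obtain ⟨hB1, hB2, hB3, hB4, hB5⟩ := hB V G
  obtain ⟨hTM, hcard⟩ := hB1 s N hSq hTy
  obtain ⟨v, hv⟩ := hB5 _ hTM
  rcases hN V G (rg s N) v hCl.1 hTM.1 hv hcard.ge with
    ⟨K, T', hK, hTK, hT', hc', hsep⟩ | ⟨K, Φ, t, hchn⟩
  · have hst : St0 G K T' v :=
      { cls := hCl
        tm := hB2 _ _ hTM hT'
        kc := hK
        tk := hT'.trans hTK
        wt := hB3 _ _ v hv hT'
        sep := hsep }
    have := hm' V G K T' v hst (hB4 _ _ q hLk hT')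
    omega
  · exact hh V G (rg s N) v K Φ t hCl hTM hLk hv hchn

end Pool.Agent.MPd439b2.H1M
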