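import Pool.Agent.Lib.MP_d439b2_co.H1M.Spec

/-!
# MP_d439b2_co, pair `(C_4, K3:0,1,02)`, type (M), HG: no half graphs over a linked clique of type (M)
-/

set_option autoImplicit false

namespace Pool.Agent.MPd439b2.H1M

open Pool.Agent.MPd439b2 Pool.Agent.MPd439b2.LK Pool.Agent.MPd439b2.H1

private theorem pick3 (p q : ℕ) : ∃ i, i < 3 ∧ i ≠ p ∧ i ≠ q := by
  by_cases h0 : 0 ≠ p ∧ 0 ≠ q
  · exact ⟨0, by omega, h0⟩
  by_cases h1 : 1 ≠ p ∧ 1 ≠ q
  · exact ⟨1, by omega, h1⟩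
  exact ⟨2, by omega, by omega, by omega⟩

private theorem lnk_of_lk {V : Type} {G : SimpleGraph V} {S : Set V} {q : ℕ} (h : Lk G S q) :
    H1P.Lnk G q S := by
  intro X
  rcases h X with h | h
  · exact (min_le_left _ _).trans h
  · exact (min_le_right _ _).trans h

private theorem lk_of_lnk {V : Type} {G : SimpleGraph V} {S : Set V} {q : ℕ}
    (h : H1P.Lnk G q S) : Lk G S q := by
  intro X
  exact min_le_iff.mp (h X)

theorem pfHG : S_B2 → S_HR → S_IX → H1.S_Reg2 → H1.S_NoI → H1.S_R11 → H1P.S_L2 → S_HG := by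
  intro hB hHR hIX hReg hNoI hR11 hL2 q
  obtain ⟨m₁, h₁⟩ := hNoI (q + 1)
  obtain ⟨N, hN⟩ := hReg (q + 1) (max m₁ 3)
  refine ⟨2 * N + 2, fun V _ G T t y a hCl hTM hLk h1 h2 h3 => ?_⟩
  obtain ⟨-, -, -, hB4, -⟩ := hB V G
  have hST : rg t (2 * N + 2) ⊆ T := by
    rintro v ⟨i, hi, rfl⟩
    exact (h1 i hi).1
  have hdisj : Disjoint (rg t (2 * N + 2)) (rg a (2 * N + 2)) := by
    rw [Set.disjoint_left]
    rintro v hv ⟨j, hj, rfl⟩
    exact (h1 j hj).2.2.2 (hST hv)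
  have hty : ∀ i, i < 2 * N + 2 → ∀ j, j < 2 * N + 2 → (G.Adj (t i) (y j) ↔ i ≠ j) := by
    intro i hi j hj
    obtain ⟨-, -, hMs, -⟩ := h1 j hj
    constructor
    · rintro h rfl
      have : t i ∈ Ms G T (y i) := by
        rw [hMs]
        rfl
      exact this.2 h.symm
    · intro hij
      by_contra hc
      have : t i ∈ Ms G T (y j) := ⟨(h1 i hi).1, fun h => hc h.symm⟩
      rw [hMs] at this
      exact (h2 i hi j hj hij).1 this
  rcases hIX V G (rg t (2 * N + 2)) (rg a (2 * N + 2)) N hdisj with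
    ⟨J, hJA, hJc, hJI⟩ | ⟨X, hX, hXA, hXc⟩
  · have hJL : Lk G J (q + 1) := lk_of_lnk (hL2 V G _ J q (hdisj.mono_right hJA)
      (lnk_of_lk (hB4 T _ q hLk hST)) hJI)
    have hJC : CompleteOn G J := by
      intro u hu v hv huv
      obtain ⟨i, hi, rfl⟩ := hJA hu
      obtain ⟨j, hj, rfl⟩ := hJA hv
      exact (h2 i hi j hj fun h => huv (by rw [h])).2
    obtain ⟨s, hsJ, hsq, hM | hI⟩ := hN V G J hCl hJC hJL hJc.ge
    · -- type (M)
      have hσ : ∀ i, ∃ j, i < max m₁ 3 → j < 2 * N + 2 ∧ s i = a j := by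
        intro i
        by_cases hi : i < max m₁ 3
        · obtain ⟨j, hj, hj'⟩ := hJA (hsJ i hi)
          exact ⟨j, fun _ => ⟨hj, hj'⟩⟩
        · exact ⟨0, fun h => absurd h hi⟩
      choose σ hσ using hσ
      have h3m : 3 ≤ max m₁ 3 := le_max_right _ _
      obtain ⟨i₀, hi₀, hmin⟩ := Finset.exists_min_image (Finset.range (max m₁ 3)) σ
        ⟨0, Finset.mem_range.mpr (by omega)⟩
      rw [Finset.mem_range] at hi₀
      have hadj : G.Adj (y (σ i₀)) (s i₀) := by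
        rw [(hσ i₀ hi₀).2]
        exact (h3 _ (hσ i₀ hi₀).1 _ (hσ i₀ hi₀).1).mpr le_rfl
      have hnadj : ∀ i, i < max m₁ 3 → i ≠ i₀ → ¬ G.Adj (y (σ i₀)) (s i) := by
        intro i hi hne h
        rw [(hσ i hi).2, h3 _ (hσ i₀ hi₀).1 _ (hσ i hi).1] at h
        have h' : σ i = σ i₀ := le_antisymm h (hmin i (Finset.mem_range.mpr hi))
        have h4 : s i = s i₀ := by rw [(hσ i hi).2, (hσ i₀ hi₀).2, h']
        have h5 := hsq i hi i₀ hi₀ hne
        rw [h4] at h5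
        exact h5.ne rfl
      have hOt : Ot s (max m₁ 3) (y (σ i₀)) := by
        intro i hi he
        by_cases hii : i = i₀
        · subst hii
          rw [← he] at hadj
          exact hadj.ne rfl
        · obtain ⟨k, hk, hk1, hk2⟩ := pick3 i₀ i
          have h6 := hnadj k (by omega) hk1
          rw [he] at h6
          exact h6 (hsq i hi k (by omega) hk2.symm)
      obtain ⟨k, hk, hk1, -⟩ := pick3 i₀ i₀
      obtain ⟨k', hk', hk1', hk2'⟩ := pick3 i₀ k
      have hkT : k ∈ Tr G s (max m₁ 3) (y (σ i₀)) := ⟨by omega, hnadj k (by omega) hk1⟩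
      have hkT' : k' ∈ Tr G s (max m₁ 3) (y (σ i₀)) := ⟨by omega, hnadj k' (by omega) hk1'⟩
      rcases hM.1 _ hOt with h | h | ⟨e, _, h⟩
      · rw [h] at hkT
        exact hkT
      · have : i₀ ∈ Tr G s (max m₁ 3) (y (σ i₀)) := by
          rw [h]
          exact hi₀
        exact this.2 hadj
      · rw [h] at hkT hkT'
        have e1 : k = e := hkT
        have e2 : k' = e := hkT'
        exact hk2' (by rw [e1, e2])
    · -- pure chains
      have hI₁ := (hR11 V G s m₁ (max m₁ 3) (le_max_left _ _) hsq).2.2.1 hI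
      have hsq₁ : Sq G s m₁ := fun i hi j hj hij =>
        hsq i (lt_of_lt_of_le hi (le_max_left _ _)) j (lt_of_lt_of_le hj (le_max_left _ _)) hij
      refine h₁ V G s hCl hsq₁ hI₁ (hB4 J _ (q + 1) hJL ?_)
      rintro v ⟨i, hi, rfl⟩
      exact hsJ i (lt_of_lt_of_le hi (le_max_left _ _))
  · have := hHR V G t y a (2 * N + 2) X h3 hty fun i hi =>
      ⟨hX ⟨i, hi, rfl⟩, fun h => Set.disjoint_left.1 hXA h ⟨i, hi, rfl⟩⟩
    omega

end Pool.Agent.MPd439b2.H1M
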