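import Pool.Agent.Lib.MP_d439b2_co.H1M.Spec

/-!
# MP_d439b2_co, pair `(C_4, K3:0,1,02)`, type (M), HR: rank of a half graph with its base
-/

set_option autoImplicit false

namespace Pool.Agent.MPd439b2.H1M

open Pool.Agent.MPd439b2 Pool.Agent.MPd439b2.LK Pool.Agent.MPd439b2.H1

theorem pfHR (h : S_TR) : S_HR := by
  classical
  intro V _ G t y a n X h1 h2 h3
  set I₁ : Finset ℕ := (Finset.range n).filter fun i => y i ∈ X with hI₁
  set I₂ : Finset ℕ := (Finset.range n).filter fun i => y i ∉ X with hI₂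
  have hcard : I₁.card + I₂.card = n := by
    rw [hI₁, hI₂, Finset.card_filter_add_card_filter_not, Finset.card_range]
  have c1 : I₁.card ≤ cr G X := by
    have hm1 : ∀ x ∈ I₁, x < n ∧ y x ∈ X := by
      intro x hx
      rw [hI₁, Finset.mem_filter, Finset.mem_range] at hx
      exact hx
    have hmem : ∀ i : Fin I₁.card, I₁.orderEmbOfFin rfl i < n ∧ y (I₁.orderEmbOfFin rfl i) ∈ X :=
      fun i => hm1 _ (Finset.orderEmbOfFin_mem I₁ rfl i)
    refine h V G X Xᶜ I₁.card (fun i => row G Xᶜ (y (I₁.orderEmbOfFin rfl i)))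
      (fun i => a (I₁.orderEmbOfFin rfl i)) ?_ ?_ ?_
    · intro i
      exact Submodule.subset_span ⟨_, (hmem i).2, rfl⟩
    · intro i
      exact if_pos ⟨(h3 _ (hmem i).1).2, (h1 _ (hmem i).1 _ (hmem i).1).2 le_rfl⟩
    · intro i j hij
      refine if_neg fun hh => ?_
      have := (h1 _ (hmem i).1 _ (hmem j).1).1 hh.2
      have hlt := (I₁.orderEmbOfFin rfl).strictMono hij
      omega
  have c2 : I₂.card ≤ cr G X + 1 := by
    rcases I₂.eq_empty_or_nonempty with hemp | ⟨i₀, hi₀⟩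
    · rw [hemp, Finset.card_empty]
      exact Nat.zero_le _
    have hi₀' : i₀ < n ∧ y i₀ ∉ X := by
      rw [hI₂, Finset.mem_filter, Finset.mem_range] at hi₀
      exact hi₀
    have hm2 : ∀ x ∈ I₂.erase i₀, x < n ∧ y x ∉ X ∧ i₀ ≠ x := by
      intro x hx
      obtain ⟨g1, g2⟩ := Finset.mem_erase.1 hx
      rw [hI₂, Finset.mem_filter, Finset.mem_range] at g2
      exact ⟨g2.1, g2.2, fun hh => g1 hh.symm⟩
    have hmem : ∀ i : Fin (I₂.erase i₀).card, (I₂.erase i₀).orderEmbOfFin rfl i < n ∧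
        y ((I₂.erase i₀).orderEmbOfFin rfl i) ∉ X ∧ i₀ ≠ (I₂.erase i₀).orderEmbOfFin rfl i :=
      fun i => hm2 _ (Finset.orderEmbOfFin_mem (I₂.erase i₀) rfl i)
    have hval : ∀ (i j : ℕ), i < n → j < n → y j ∉ X →
        row G Xᶜ (t i) (y j) = if i ≠ j then 1 else 0 := by
      intro i j hi hj hyj
      unfold row
      by_cases hij : i ≠ j
      · rw [if_pos hij, if_pos ⟨hyj, (h2 i hi j hj).2 hij⟩]
      · rw [if_neg hij, if_neg fun hh => hij ((h2 i hi j hj).1 hh.2)]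
    have hle : (I₂.erase i₀).card ≤ cr G X := by
      refine h V G X Xᶜ (I₂.erase i₀).card
        (fun i => row G Xᶜ (t ((I₂.erase i₀).orderEmbOfFin rfl i)) + row G Xᶜ (t i₀))
        (fun i => y ((I₂.erase i₀).orderEmbOfFin rfl i)) ?_ ?_ ?_
      · intro i
        exact Submodule.add_mem _ (Submodule.subset_span ⟨_, (h3 _ (hmem i).1).1, rfl⟩)
          (Submodule.subset_span ⟨_, (h3 _ hi₀'.1).1, rfl⟩)
      · intro i
        show row G Xᶜ (t ((I₂.erase i₀).orderEmbOfFin rfl i)) (y ((I₂.erase i₀).orderEmbOfFin rfl i))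
          + row G Xᶜ (t i₀) (y ((I₂.erase i₀).orderEmbOfFin rfl i)) = 1
        rw [hval _ _ (hmem i).1 (hmem i).1 (hmem i).2.1, hval _ _ hi₀'.1 (hmem i).1 (hmem i).2.1,
          if_neg (fun hh => hh rfl), if_pos (hmem i).2.2, zero_add]
      · intro i j hij
        show row G Xᶜ (t ((I₂.erase i₀).orderEmbOfFin rfl i)) (y ((I₂.erase i₀).orderEmbOfFin rfl j))
          + row G Xᶜ (t i₀) (y ((I₂.erase i₀).orderEmbOfFin rfl j)) = 0
        have hlt := ((I₂.erase i₀).orderEmbOfFin rfl).strictMono hij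
        rw [hval _ _ (hmem i).1 (hmem j).1 (hmem j).2.1, hval _ _ hi₀'.1 (hmem j).1 (hmem j).2.1,
          if_pos hlt.ne, if_pos (hmem j).2.2]
        decide
    rw [Finset.card_erase_of_mem hi₀] at hle
    omega
  omega

end Pool.Agent.MPd439b2.H1M
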