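import Pool.Agent.Lib.MP_d439b2_co.H1M.Spec

/-!
# MP_d439b2_co, pair `(C_4, K3:0,1,02)`, type (M): independent sets or a small cut (`S_IX`)
-/

set_option autoImplicit false

namespace Pool.Agent.MPd439b2.H1M

open Pool.Agent.MPd439b2 Pool.Agent.MPd439b2.LK Pool.Agent.MPd439b2.H1

theorem pfIX (hA2 : S_A2) : S_IX := by
  classical
  intro V _ G S₀ A m hdis
  obtain ⟨hc0, hcc, hcs, hc1⟩ := hA2 V G
  -- an independent set of maximal size
  obtain ⟨J, ⟨hJA, hJI⟩, hJmax⟩ := Set.exists_max_image {J : Set V | J ⊆ A ∧ H1P.Ind G S₀ J}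
    (fun J => J.ncard) (Set.toFinite _)
    ⟨∅, Set.empty_subset _, fun X _ => by rw [Set.empty_sdiff, Set.ncard_empty]; exact Nat.zero_le _⟩
  by_cases hm : m ≤ J.ncard
  · left
    obtain ⟨J', hJ'J, hJ'⟩ := Set.exists_subset_card_eq hm
    exact ⟨J', hJ'J.trans hJA, hJ', fun X hX =>
      (Set.ncard_le_ncard (Set.sdiff_subset_sdiff_left hJ'J) (Set.toFinite _)).trans (hJI X hX)⟩
  right
  push Not at hm
  have huniv : cr G Set.univ = 0 := by
    have := hcc ∅ (Set.empty_subset _)
    rwa [Set.sdiff_empty, hc0] at this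
  obtain ⟨X, ⟨hX1, hX2⟩, hXmin⟩ := Set.exists_min_image
    {X : Set V | S₀ ⊆ X ∧ cr G X = (J \ X).ncard} (fun X => X.ncard) (Set.toFinite _)
    ⟨Set.univ, Set.subset_univ _, by rw [huniv, Set.sdiff_univ, Set.ncard_empty]⟩
  have hXle : ∀ Y, S₀ ⊆ Y → cr G Y = (J \ Y).ncard → X ⊆ Y := by
    intro Y hY1 hY2
    have e1 := hcs X (Set.subset_univ _) Y (Set.subset_univ _)
    have e2 := hJI (X ∪ Y) (hX1.trans Set.subset_union_left)
    have e3 := hJI (X ∩ Y) (Set.subset_inter hX1 hY1)
    have e4 := Set.ncard_union_add_ncard_inter (J \ X) (J \ Y) (Set.toFinite _) (Set.toFinite _)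
    have e5 : (J \ X) ∪ (J \ Y) = J \ (X ∩ Y) := by
      rw [Set.sdiff_inter]
    have e6 : (J \ X) ∩ (J \ Y) = J \ (X ∪ Y) := by
      ext x
      simp only [Set.mem_inter_iff, Set.mem_sdiff, Set.mem_union]
      tauto
    rw [e5, e6] at e4
    have h7 := hXmin (X ∩ Y) ⟨Set.subset_inter hX1 hY1, by omega⟩
    have h8 : X ∩ Y = X := Set.eq_of_subset_of_ncard_le Set.inter_subset_left h7 (Set.toFinite _)
    rw [← h8]
    exact Set.inter_subset_right
  refine ⟨X, hX1, ?_, ?_⟩
  · rw [Set.disjoint_left]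
    intro a haX haA
    have haS : a ∉ S₀ := fun h => Set.disjoint_left.1 hdis h haA
    by_cases haJ : a ∈ J
    · have e1 : cr G (X \ {a}) ≤ cr G X + 1 := by
        have h1 := hcc (X \ {a}) (Set.subset_univ _)
        have h2 : Set.univ \ (X \ {a}) = (Set.univ \ X) ∪ {a} := by
          ext x
          simp only [Set.mem_sdiff, Set.mem_univ, true_and, Set.mem_union, Set.mem_singleton_iff]
          tauto
        have h3 := hcs (Set.univ \ X) (Set.subset_univ _) {a} (Set.subset_univ _)
        have h4 := hcc X (Set.subset_univ _)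
        have h5 := hc1 a (Set.mem_univ _)
        rw [h2] at h1
        omega
      have e2 : J \ (X \ {a}) = insert a (J \ X) := by
        ext x
        simp only [Set.mem_sdiff, Set.mem_insert_iff, Set.mem_singleton_iff]
        constructor
        · rintro ⟨h1, h2⟩
          by_cases h3 : x = a
          · exact Or.inl h3
          · exact Or.inr ⟨h1, fun h4 => h2 ⟨h4, h3⟩⟩
        · rintro (rfl | ⟨h1, h2⟩)
          · exact ⟨haJ, fun h => h.2 rfl⟩
          · exact ⟨h1, fun h => h2 h.1⟩
      have e3 : (J \ (X \ {a})).ncard = (J \ X).ncard + 1 := by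
        rw [e2, Set.ncard_insert_of_notMem (fun h => h.2 haX) (Set.toFinite _)]
      have hS : S₀ ⊆ X \ {a} := fun s hs => ⟨hX1 hs, fun h => haS (h ▸ hs)⟩
      have e4 := hJI (X \ {a}) hS
      have h7 := hXmin (X \ {a}) ⟨hS, by omega⟩
      have h8 := Set.ncard_sdiff_singleton_lt_of_mem haX (Set.toFinite _)
      exact absurd h7 (not_le.2 h8)
    · have hni : ¬ H1P.Ind G S₀ (insert a J) := by
        intro h
        have := hJmax (insert a J) ⟨Set.insert_subset haA hJA, h⟩
        rw [Set.ncard_insert_of_notMem haJ (Set.toFinite _)] at this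
        omega
      unfold H1P.Ind at hni
      push Not at hni
      obtain ⟨Y, hY1, hY2⟩ := hni
      have hJY := hJI Y hY1
      have haY : a ∉ Y := by
        intro h
        rw [Set.insert_sdiff_of_mem _ h] at hY2
        omega
      have e1 : (insert a J \ Y).ncard ≤ (J \ Y).ncard + 1 := by
        rw [Set.insert_sdiff_of_notMem _ haY]
        exact Set.ncard_insert_le _ _
      exact haY (hXle Y hY1 (by omega) haX)
  · rw [hX2]
    exact (Set.ncard_le_ncard Set.sdiff_subset (Set.toFinite _)).trans_lt hm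

end Pool.Agent.MPd439b2.H1M
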