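import Pool.Agent.Lib.MP_d439b2_co.H1M.Spec

/-!
# N0: the dichotomy of type 0
-/

set_option autoImplicit false

namespace Pool.Agent.MPd439b2.H1M

open Pool.Agent.MPd439b2 Pool.Agent.MPd439b2.LK Pool.Agent.MPd439b2.H1

namespace PfN0

variable {V : Type} {G : SimpleGraph V}

private theorem adj_of_not_Ms {T : Set V} {w t : V} (ht : t ∈ T) (h : t ∉ Ms G T w) :
    G.Adj w t := by
  by_contra hn
  exact h ⟨ht, hn⟩

/-- the core: with `a, b, c` chosen -/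
private theorem core (hM1 : H1.S_M1) (hB1 : S_B1) {T C : Set V} {v : V → V} {a b c p u : V}
    (hcls : Cls1 G) (hcl : CompleteOn G T) (hWt : Wt G T v) (ha : a ∈ T) (hb : b ∈ T) (hc : c ∈ T)
    (hab : a ≠ b) (hac : a ≠ c) (hbc : b ≠ c) (hob : Out G C (v b)) (hoc : Out G C (v c))
    (hp : p ∈ C) (hu : u ∈ C) (hpa : G.Adj p a) (hpb : G.Adj p b) (hup : G.Adj u p)
    (hut : ∀ t ∈ T, ¬ G.Adj u t) : False := by
  have hwadj : ∀ s ∈ T, ∀ t ∈ T, t ≠ s → G.Adj (v s) t := by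
    intro s hs t ht hts
    apply adj_of_not_Ms ht
    rw [(hWt s hs).2]
    exact hts
  have hwn : ∀ s ∈ T, ¬ G.Adj (v s) s := by
    intro s hs
    have h : s ∈ Ms G T (v s) := by
      rw [(hWt s hs).2]
      exact rfl
    exact h.2
  apply hcls.2
  apply hM1 V G a a p b (v b) u (v c) (Or.inl rfl) (Or.inl hpa)
    (Or.inl (hcl b hb a ha hab.symm)) hpb hab.symm hab.symm
  · intro h
    exact (hWt b hb).1 (h ▸ ha)
  · intro h
    exact (hWt b hb).1 (h ▸ ha)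
  · intro h
    exact (hWt c hc).1 (h ▸ ha)
  · intro h
    exact (hWt c hc).1 (h ▸ ha)
  · exact Or.inl (hwadj b hb a ha hab)
  · intro h
    exact hob.2 p hp h.symm
  · exact hwn b hb
  · exact hup
  · exact hut a ha
  · exact hut a ha
  · exact hut b hb
  · exact Or.inl (hwadj c hc a ha hac)
  · exact hwadj c hc b hb hbc
  · intro h
    exact hoc.2 p hp h.symm
  · intro h
    exact hob.2 u hu h.symm
  · exact hB1 V G T c b (v b) (v c) hcls.1 hcl hc hb (hWt b hb).1 (hWt c hc).1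
      (hwadj b hb c hc hbc.symm) (hwn b hb) (hwadj c hc b hb hbc) (hwn c hc)
  · intro h
    exact hoc.2 u hu h

end PfN0

open PfN0 in
theorem pfN0 : H1.S_M1 → S_B1 → S_N0 := by
  intro hM1 hB1 V _ G T C v t₀ t₁ t₂ hcls hTM hWt hC hdis ht₀ ht₁ ht₂ h01 h02 h12 ho₀ ho₁ ho₂
  by_contra hcon
  rw [not_or] at hcon
  obtain ⟨hc1, hc2⟩ := hcon
  push Not at hc1 hc2
  obtain ⟨p₀, hp₀, hp₀'⟩ := hc1
  obtain ⟨u₀, hu₀, hu₀'⟩ := hc2
  obtain ⟨u, hu, p, hp, hup⟩ := hC.2 {u | u ∈ C ∧ Ms G T u = T} (fun x hx => hx.1) ⟨u₀, hu₀, hu₀'⟩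
    (by
      intro h
      have : p₀ ∈ {u | u ∈ C ∧ Ms G T u = T} := by
        rw [h]
        exact hp₀
      exact hp₀' this.2)
  have hpT : p ∉ T := fun h => Set.disjoint_left.1 hdis hp.1 h
  have hpne : Ms G T p ≠ T := fun h => hp.2 ⟨hp.1, h⟩
  have hut : ∀ t ∈ T, ¬ G.Adj u t := by
    intro t ht
    have : t ∈ Ms G T u := by
      rw [hu.2]
      exact ht
    exact this.2
  have hkey : ∃ a₀ : V, ∀ t ∈ T, t ≠ a₀ → G.Adj p t := by
    rcases hTM.2.1 p hpT with h | h | ⟨s, hs, h⟩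
    · refine ⟨t₀, fun t ht _ => ?_⟩
      apply adj_of_not_Ms ht
      rw [h]
      exact fun h => h
    · exact absurd h hpne
    · refine ⟨s, fun t ht hts => ?_⟩
      apply adj_of_not_Ms ht
      rw [h]
      exact hts
  obtain ⟨a₀, ha₀⟩ := hkey
  have hcore : ∀ a b c : V, a ∈ T → b ∈ T → c ∈ T → a ≠ b → a ≠ c → b ≠ c → Out G C (v b) →
      Out G C (v c) → a ≠ a₀ → b ≠ a₀ → False := by
    intro a b c ha hb hc hab hac hbc hob hoc haa hba
    exact core hM1 hB1 hcls hTM.1 hWt ha hb hc hab hac hbc hob hoc hp.1 hu.1 (ha₀ a ha haa)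
      (ha₀ b hb hba) hup hut
  by_cases h0 : t₀ = a₀
  · subst h0
    exact hcore t₁ t₂ t₀ ht₁ ht₂ ht₀ h12 h01.symm h02.symm ho₂ ho₀ h01.symm h02.symm
  · by_cases h1 : t₁ = a₀
    · subst h1
      exact hcore t₀ t₂ t₁ ht₀ ht₂ ht₁ h02 h01 h12.symm ho₂ ho₁ h01 h12.symm
    · exact hcore t₀ t₁ t₂ ht₀ ht₁ ht₂ h01 h02 h12 ho₁ ho₂ h0 h1

end Pool.Agent.MPd439b2.H1M
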