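import Pool.Agent.Lib.MP_d439b2_co.H1M.Spec

/-!
# MP_d439b2_co, type (M): a full vertex which touches all colours (S_N1)
-/

set_option autoImplicit false

namespace Pool.Agent.MPd439b2.H1M

open Pool.Agent.MPd439b2 Pool.Agent.MPd439b2.LK Pool.Agent.MPd439b2.H1

namespace N1Aux

variable {V : Type} {G : SimpleGraph V} {T : Set V}

theorem ms_one {w e : V} (h : Ms G T w = {e}) : e ∈ T ∧ ¬ G.Adj w e ∧ ∀ t ∈ T, t ≠ e → G.Adj w t := by
  have h1 : e ∈ Ms G T w := by rw [h]; rfl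
  refine ⟨h1.1, h1.2, fun t ht hne => ?_⟩
  by_contra hc
  have h2 : t ∈ Ms G T w := ⟨ht, hc⟩
  rw [h] at h2
  exact hne h2

end N1Aux

open N1Aux

theorem pfN1 : S_B1 → S_N1a → S_N1 := by
  intro hB hN V _ G T Φ E v t₀ hC hTM hW hΦ hd hnT ht₀ hO hE ht₀E hee hall
  have key : ∀ E' : Set V, E'.Finite → E' ⊆ E → ∃ a ∈ Φ, Ms G T a = ∅ ∧
      ∀ e ∈ E', ∃ w ∈ Φ, Ms G T w = {e} ∧ G.Adj a w := by
    intro E' hfin
    induction E', hfin using Set.Finite.induction_on with
    | empty =>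
      intro _
      obtain ⟨e, he, e', he', hne⟩ := hee
      obtain ⟨w, hw, hwe⟩ := hall e he
      obtain ⟨w', hw', hwe'⟩ := hall e' he'
      obtain ⟨b, hb, u, hu, hbu⟩ := hΦ.2 {x | x ∈ Φ ∧ Ms G T x = {e}} (fun x hx => hx.1)
        ⟨w, hw, hwe⟩ (by
          intro h
          rw [← h] at hw'
          have h1 : ({e'} : Set V) = {e} := hwe'.symm.trans hw'.2
          exact hne (Set.singleton_injective h1.symm))
      have huT : u ∉ T := Set.disjoint_left.mp hd hu.1
      have hbT : b ∉ T := Set.disjoint_left.mp hd hb.1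
      refine ⟨u, hu.1, ?_, fun e he => absurd he (Set.notMem_empty e)⟩
      rcases hTM.2.1 u huT with h | h | ⟨s, hs, h⟩
      · exact h
      · exact absurd h (hnT u hu.1)
      · exfalso
        have hse : s ≠ e := by
          rintro rfl
          exact hu.2 ⟨hu.1, h⟩
        obtain ⟨b1, b2, b3⟩ := ms_one hb.2
        obtain ⟨u1, u2, u3⟩ := ms_one h
        exact hB V G T s e b u hC.1 hTM.1 hs b1 hbT huT (b3 s hs hse) b2 (u3 e b1 hse.symm) u2 hbu
    | @insert g E' hg _ ih =>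
      intro hsub
      have hgE : g ∈ E := hsub (Set.mem_insert g E')
      have hE' : E' ⊆ E := fun x hx => hsub (Set.mem_insert_of_mem g hx)
      obtain ⟨a, ha, haf, hae⟩ := ih hE'
      exact hN V G T Φ E' v t₀ g a hC hTM hW hΦ hd hnT ht₀ hO (hE'.trans hE)
        (fun h => ht₀E (hE' h)) (hE hgE) hg (fun h => ht₀E (h ▸ hgE)) ha haf hae (hall g hgE)
  exact key E (Set.toFinite E) (fun _ h => h)

end Pool.Agent.MPd439b2.H1M
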