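import Pool.Agent.Lib.MP_d439b2_co.H1M.Spec

/-!
# MP_d439b2_co, type (M), nested chains: the vertices `a i` (S_N2)
-/

set_option autoImplicit false

namespace Pool.Agent.MPd439b2.H1M

open Pool.Agent.MPd439b2 Pool.Agent.MPd439b2.LK Pool.Agent.MPd439b2.H1

theorem pfN2 : S_N0 → S_N1 → S_N2 := by
  classical
  intro hN0 hN1 V _ G T v h K Φ t hC hTM hW hCh
  obtain ⟨c1, c2, c3, c4⟩ := hCh
  have hinj : ∀ j j', j < j' → j' ≤ h → t j ≠ t j' := by
    intro j j' hj hj' he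
    have h1 := (c4 j' j' (by omega) hj' hj').mpr le_rfl
    rw [← he] at h1
    have h2 := (c4 j' j (by omega) hj' (by omega)).mp h1
    omega
  have key : ∀ i, 3 ≤ i → i < h → ∃ a, a ∈ Φ i ∧ Ms G T a = ∅ ∧
      ∀ l, i ≤ l → l ≤ h → ∃ w ∈ Φ i, Ms G T w = {t l} ∧ G.Adj a w := by
    intro i hi hih
    obtain ⟨k1, k2, k3⟩ := c1 i (by omega) hih.le
    have hd : Disjoint (Φ i) T := by
      rw [Set.disjoint_left]
      intro x hx hxT
      exact k3.1 hx (k2 hxT)
    have hvK : ∀ j, j ≤ h → v (t j) ∉ K i := by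
      intro j hj hvk
      have h1 := c3 j hj
      have h2 := hW _ h1
      have h3 : t j ∈ Ms G T (v (t j)) := by rw [h2.2]; rfl
      have h4 : v (t j) ≠ t j := fun he => h2.1 (by rw [he]; exact h1)
      exact h3.2 (k1 _ hvk _ (k2 h1) h4)
    have hout : ∀ j, j < i → Out G (Φ i) (v (t j)) := by
      intro j hj
      have h1 : v (t j) ∉ Φ i := fun h2 => by
        have := (c4 i j (by omega) hih.le (by omega)).mp h2
        omega
      refine ⟨h1, fun c hc hadj => ?_⟩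
      exact k3.2.2 (v (t j)) (hvK j (by omega)) ⟨h1, c, hc, hadj⟩
    have hvi : v (t i) ∈ Φ i := (c4 i i (by omega) hih.le hih.le).mpr le_rfl
    have hnT : ∀ u ∈ Φ i, Ms G T u ≠ T := by
      rcases hN0 V G T (Φ i) v (t 0) (t 1) (t 2) hC hTM hW k3.2.1 hd (c3 0 (by omega))
        (c3 1 (by omega)) (c3 2 (by omega)) (hinj 0 1 (by omega) (by omega))
        (hinj 0 2 (by omega) (by omega)) (hinj 1 2 (by omega) (by omega)) (hout 0 (by omega))
        (hout 1 (by omega)) (hout 2 (by omega)) with h1 | h1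
      · exfalso
        have h2 := h1 _ hvi
        rw [(hW _ (c3 i hih.le)).2] at h2
        have h3 : t 0 ∈ ({t i} : Set V) := by rw [h2]; exact c3 0 (by omega)
        exact hinj 0 i (by omega) hih.le h3
      · exact h1
    obtain ⟨a, ha1, ha2, ha3⟩ := hN1 V G T (Φ i) {x | ∃ l, i ≤ l ∧ l ≤ h ∧ x = t l} v (t 0) hC hTM hW
      k3.2.1 hd hnT (c3 0 (by omega)) (hout 0 (by omega))
      (by rintro x ⟨l, _, hl, rfl⟩; exact c3 l hl)
      (by rintro ⟨l, hl1, hl2, he⟩; exact hinj 0 l (by omega) hl2 he)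
      ⟨t i, ⟨i, le_rfl, hih.le, rfl⟩, t h, ⟨h, hih.le, le_rfl, rfl⟩, hinj i h hih le_rfl⟩
      (by
        rintro e ⟨l, hl1, hl2, rfl⟩
        exact ⟨v (t l), (c4 i l (by omega) hih.le hl2).mpr hl1, (hW _ (c3 l hl2)).2⟩)
    exact ⟨a, ha1, ha2, fun l hl1 hl2 => ha3 (t l) ⟨l, hl1, hl2, rfl⟩⟩
  refine ⟨fun i => if hi : 3 ≤ i ∧ i < h then Classical.choose (key i hi.1 hi.2) else t 0, ?_⟩
  intro i hi hih
  have h1 : (fun i => if hi : 3 ≤ i ∧ i < h then Classical.choose (key i hi.1 hi.2) else t 0) i =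
      Classical.choose (key i hi hih) := by
    simp only [dif_pos (And.intro hi hih)]
  rw [h1]
  exact Classical.choose_spec (key i hi hih)

end Pool.Agent.MPd439b2.H1M
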