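import Pool.Agent.Lib.MP_d439b2_co.H1M.Spec

/-!
# MP_d439b2_co, H1M, N3: a full vertex of the inner component is anticomplete to the smaller colours
-/

set_option autoImplicit false

namespace Pool.Agent.MPd439b2.H1M

open Pool.Agent.MPd439b2 Pool.Agent.MPd439b2.LK Pool.Agent.MPd439b2.H1

namespace N3Aux

variable {V : Type} {G : SimpleGraph V} {T : Set V} {w e : V}

private theorem nadj (h : Ms G T w = {e}) : ¬ G.Adj w e := by
  have h1 : e ∈ Ms G T w := by
    rw [h]
    rfl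
  exact h1.2

private theorem adj (h : Ms G T w = {e}) {t : V} (ht : t ∈ T) (hte : t ≠ e) : G.Adj w t := by
  by_contra h1
  have h2 : t ∈ Ms G T w := ⟨ht, h1⟩
  rw [h] at h2
  exact hte h2

private theorem full (h : Ms G T w = ∅) {t : V} (ht : t ∈ T) : G.Adj w t := by
  by_contra h1
  have h2 : t ∈ Ms G T w := ⟨ht, h1⟩
  rw [h] at h2
  exact h2

end N3Aux

open N3Aux in
theorem pfN3 : H1.S_M1 → S_B1 → S_N3 := by
  intro hM1 hB1 V _ G T v h K Φ t hG hTM hWt hChn i j hij hj3 hjh a ha haf w hwT hwi haw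
  obtain ⟨hTc, -, -⟩ := hTM
  obtain ⟨c1, -, c3, c4⟩ := hChn
  obtain ⟨hKj, hTK, hΦj⟩ := c1 j (by omega) hjh
  -- another small index
  obtain ⟨l, hli, hlj⟩ : ∃ l, l ≠ i ∧ l < j := by
    by_cases hi0 : i = 0
    · exact ⟨1, by omega, by omega⟩
    · exact ⟨0, fun h' => hi0 h'.symm, by omega⟩
  -- `t` is injective
  have hinj : ∀ p p', p < p' → p' ≤ h → t p ≠ t p' := by
    intro p p' hpp hp' heq
    have h1 := (c4 p' p' (by omega) hp' hp').2 le_rfl
    rw [← heq] at h1
    have h2 := (c4 p' p (by omega) hp' (by omega)).1 h1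
    omega
  have hne : t i ≠ t l := by
    rcases Nat.lt_or_gt_of_ne hli with h' | h'
    · exact (hinj l i h' (by omega)).symm
    · exact hinj i l h' (by omega)
  have hti : t i ∈ T := c3 i (by omega)
  have htl : t l ∈ T := c3 l (by omega)
  -- vertices outside `K j` and outside `Φ j` have no neighbours in `Φ j`
  have hout : ∀ x, x ∉ K j → x ∉ Φ j → ∀ c ∈ Φ j, ¬ G.Adj x c := by
    intro x hx1 hx2 c hc hxc
    exact hΦj.2.2 x hx1 ⟨hx2, c, hc, hxc.symm⟩
  have hvK : ∀ p, p < j → ∀ c ∈ Φ j, ¬ G.Adj (v (t p)) c := by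
    intro p hp
    have hp1 : t p ∈ T := c3 p (by omega)
    have hp2 := hWt _ hp1
    refine hout _ (fun h' => ?_) (fun h' => ?_)
    · exact nadj hp2.2 (hKj _ h' _ (hTK hp1) (fun h'' => hp2.1 (by rw [h'']; exact hp1)))
    · have := (c4 j p (by omega) hjh (by omega)).1 h'
      omega
  have hwK : w ∉ K j := fun h' =>
    nadj hwi (hKj _ h' _ (hTK hti) (fun h'' => hwT (by rw [h'']; exact hti)))
  have hwΦ : w ∈ Φ j := by
    by_contra h'
    exact hout w hwK h' a ha haw.symm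
  have htlti : G.Adj (t l) (t i) := hTc _ htl _ hti hne.symm
  refine hG.2 (hM1 V G (t l) (t l) (t i) a (v (t i)) (v (t l)) w (Or.inl rfl)
    (Or.inl htlti.symm) (Or.inl (full haf htl)) (full haf hti).symm (full haf htl).ne
    (full haf htl).ne ?_ ?_ ?_ ?_ (Or.inl (adj (hWt _ hti).2 htl hne.symm)) (nadj (hWt _ hti).2)
    (hvK i hij a ha) (adj (hWt _ htl).2 hti hne) (nadj (hWt _ htl).2) (nadj (hWt _ htl).2)
    (hvK l hlj a ha) (Or.inl (adj hwi htl hne.symm)) haw.symm (nadj hwi) ?_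
    (hvK i hij w hwΦ) (hvK l hlj w hwΦ))
  · exact fun h' => (hWt _ hti).1 (by rw [h']; exact htl)
  · exact fun h' => (hWt _ hti).1 (by rw [h']; exact htl)
  · exact fun h' => hwT (by rw [h']; exact htl)
  · exact fun h' => hwT (by rw [h']; exact htl)
  · exact hB1 V G T (t l) (t i) (v (t i)) (v (t l)) hG.1 hTc htl hti (hWt _ hti).1 (hWt _ htl).1
      (adj (hWt _ hti).2 htl hne.symm) (nadj (hWt _ hti).2) (adj (hWt _ htl).2 hti hne)
      (nadj (hWt _ htl).2)

end Pool.Agent.MPd439b2.H1M
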