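import Pool.Agent.Lib.MP_d439b2_co.H1M.Spec

/-!
# MP_d439b2_co, type (M), nested chains: `a i` belongs to the later cliques (S_N4)
-/

set_option autoImplicit false

namespace Pool.Agent.MPd439b2.H1M

open Pool.Agent.MPd439b2 Pool.Agent.MPd439b2.LK Pool.Agent.MPd439b2.H1

namespace N4Aux

variable {V : Type} {G : SimpleGraph V} {T : Set V}

theorem ms_one {w e : V} (h : Ms G T w = {e}) : e ∈ T ∧ ¬ G.Adj w e ∧ ∀ t ∈ T, t ≠ e → G.Adj w t := by
  have h1 : e ∈ Ms G T w := by rw [h]; rfl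
  refine ⟨h1.1, h1.2, fun t ht hne => ?_⟩
  by_contra hc
  have h2 : t ∈ Ms G T w := ⟨ht, hc⟩
  rw [h] at h2
  exact hne h2

theorem ms_zero {w : V} (h : Ms G T w = ∅) : ∀ t ∈ T, G.Adj w t := by
  intro t ht
  by_contra hc
  have h2 : t ∈ Ms G T w := ⟨ht, hc⟩
  rw [h] at h2
  exact h2

end N4Aux

open N4Aux

theorem pfN4 : H1.S_M1 → S_B1 → S_N3 → S_N4 := by
  intro hM hB hN3 V _ G T v h K Φ t hC hTM hW hCh i j hi hij hjh a ha haf hwj hwi
  obtain ⟨c1, c2, c3, c4⟩ := id hCh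
  by_contra haK
  obtain ⟨ki1, ki2, ki3⟩ := c1 i (by omega) (by omega)
  obtain ⟨kj1, kj2, kj3⟩ := c1 j (by omega) hjh.le
  have hdi : ∀ x ∈ Φ i, x ∉ T := fun x hx hxT => ki3.1 hx (ki2 hxT)
  have hdj : ∀ x ∈ Φ j, x ∉ T := fun x hx hxT => kj3.1 hx (kj2 hxT)
  by_cases haj : a ∈ Φ j
  · obtain ⟨w, hw, hw1, hw2⟩ := hwi
    exact hN3 V G T v h K Φ t hC hTM hW hCh i j hij (by omega) hjh.le a haj haf w (hdi w hw) hw1 hw2
  -- `a` is outside `Φ j` and `K j`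
  have haout : ∀ x ∈ Φ j, ¬ G.Adj x a := fun x hx hadj => kj3.2.2 a haK ⟨haj, x, hx, hadj⟩
  obtain ⟨w, hw, hw1, hw2⟩ := hwj
  obtain ⟨m1, m2, m3⟩ := ms_one hw1
  have hwT : w ∉ T := hdi w hw
  have hwK : w ∉ K j := by
    intro h1
    have h2 : w ≠ t j := fun he => hwT (he ▸ m1)
    exact m2 (kj1 w h1 (t j) (kj2 m1) h2)
  have hwΦ : w ∉ Φ j := fun h1 => haout w h1 hw2.symm
  have hwout : ∀ x ∈ Φ j, ¬ G.Adj x w := fun x hx hadj => kj3.2.2 w hwK ⟨hwΦ, x, hx, hadj⟩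
  have hne : t j ≠ t (j + 1) := by
    intro he
    have h1 := (c4 (j + 1) (j + 1) (by omega) (by omega) (by omega)).mpr le_rfl
    rw [← he] at h1
    have h2 := (c4 (j + 1) j (by omega) (by omega) (by omega)).mp h1
    omega
  have htj : t j ∈ T := c3 j (by omega)
  have htj' : t (j + 1) ∈ T := c3 (j + 1) (by omega)
  have hvj : v (t j) ∈ Φ j := (c4 j j (by omega) (by omega) (by omega)).mpr le_rfl
  have hvj' : v (t (j + 1)) ∈ Φ j := (c4 j (j + 1) (by omega) (by omega) (by omega)).mpr (by omega)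
  obtain ⟨p1, p2, p3⟩ := ms_one (hW _ htj).2
  obtain ⟨q1, q2, q3⟩ := ms_one (hW _ htj').2
  have haT : a ∉ T := hdi a ha
  have hfull := ms_zero haf
  have hxy : ¬ G.Adj (v (t j)) (v (t (j + 1))) :=
    hB V G T (t (j + 1)) (t j) (v (t j)) (v (t (j + 1))) hC.1 hTM.1 htj' htj (hW _ htj).1
      (hW _ htj').1 (p3 _ htj' hne.symm) p2 (q3 _ htj hne) q2
  refine hC.2 (hM V G (t (j + 1)) (t (j + 1)) (t j) a (v (t j)) (v (t (j + 1))) w (Or.inl rfl)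
    (Or.inl (hTM.1 _ htj _ htj' hne)) (Or.inl (hfull _ htj')) (hfull _ htj).symm
    (fun he => haT (he ▸ htj')) (fun he => haT (he ▸ htj')) ?_ ?_ (fun he => hwT (he ▸ htj'))
    (fun he => hwT (he ▸ htj')) (Or.inl (p3 _ htj' hne.symm)) p2 (haout _ hvj) (q3 _ htj hne) q2 q2
    (haout _ hvj') (Or.inl (m3 _ htj' hne.symm)) hw2.symm m2 hxy (hwout _ hvj) (hwout _ hvj'))
  · exact fun he => (hW _ htj).1 (by rw [he]; exact htj')
  · exact fun he => (hW _ htj).1 (by rw [he]; exact htj')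

end Pool.Agent.MPd439b2.H1M
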