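import Pool.Agent.Lib.MP_d439b2_co.H1M.Spec

/-!
# MP_d439b2_co, type (M): the largest trace on a clique (S_N5)
-/

set_option autoImplicit false

namespace Pool.Agent.MPd439b2.H1M

open Pool.Agent.MPd439b2 Pool.Agent.MPd439b2.LK Pool.Agent.MPd439b2.H1

namespace N5Aux

variable {V : Type} {G : SimpleGraph V} {T : Set V}

theorem ms_one {w e : V} (h : Ms G T w = {e}) : e ∈ T ∧ ¬ G.Adj w e ∧ ∀ t ∈ T, t ≠ e → G.Adj w t := by
  have h1 : e ∈ Ms G T w := by rw [h]; rfl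
  refine ⟨h1.1, h1.2, fun t ht hne => ?_⟩
  by_contra hc
  have h2 : t ∈ Ms G T w := ⟨ht, hc⟩
  rw [h] at h2
  exact hne h2

theorem ms_zero {w : V} (h : Ms G T w = ∅) : ∀ t ∈ T, G.Adj w t := by
  intro t ht
  by_contra hc
  have h2 : t ∈ Ms G T w := ⟨ht, hc⟩
  rw [h] at h2
  exact h2

end N5Aux

open N5Aux

theorem pfN5 : H1.S_M1 → H1.S_M2 → S_B1 → S_N5 := by
  intro hM hM2 hB V _ G T A A' s₀ s v₀ w₀ hC hT hA hAT hfull hs₀ hs hne hv₀ hv₀s hAv hw₀ hw₀s hA' hex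
    hno
  obtain ⟨y, hyW, hymax⟩ := Set.Finite.exists_maximalFor
    (fun y => {a | a ∈ A ∧ G.Adj y a}.ncard) {w | w ∉ T ∧ Ms G T w = {s}} (Set.toFinite _)
    ⟨w₀, hw₀, hw₀s⟩
  obtain ⟨y1, y2, y3⟩ := ms_one hyW.2
  refine ⟨y, hyW.1, hyW.2, fun a ha => ⟨fun hya => ?_, fun haA' => ?_⟩⟩
  · by_contra haA'
    exact hno a ha haA' y hyW.1 hyW.2 hya.symm
  · by_contra hya
    obtain ⟨y', hy'T, hy's, hay'⟩ := hex a haA'
    obtain ⟨z1, z2, z3⟩ := ms_one hy's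
    obtain ⟨u1, u2, u3⟩ := ms_one hv₀s
    have haf := ms_zero (hfull a ha)
    have haT : a ∉ T := Set.disjoint_left.mp hAT ha
    by_cases hyy : G.Adj y y'
    · have hsub : ∀ b ∈ A, G.Adj y b → G.Adj y' b := by
        intro b hb hyb
        have hba : b ≠ a := by
          rintro rfl
          exact hya hyb
        have h1 := hM2 V G y b a y' hC.1 hyb (hA b hb a ha hba) hay' hyy.symm
          (by
            rintro rfl
            exact y2 (haf s hs))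
          (by
            rintro rfl
            exact z2 (ms_zero (hfull b hb) s hs))
        rcases h1 with h1 | h1
        · exact absurd h1 hya
        · exact h1.symm
      have hlt : {b | b ∈ A ∧ G.Adj y b}.ncard < {b | b ∈ A ∧ G.Adj y' b}.ncard := by
        apply Set.ncard_lt_ncard _ (Set.toFinite _)
        refine ⟨fun b hb => ⟨hb.1, hsub b hb.1 hb.2⟩, fun hcon => ?_⟩
        exact hya (hcon ⟨ha, hay'.symm⟩).2
      have := hymax (j := y') ⟨hy'T, hy's⟩ hlt.le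
      exact absurd hlt (not_lt.mpr this)
    · have h1 : ¬ G.Adj y v₀ := hB V G T s₀ s y v₀ hC.1 hT hs₀ hs hyW.1 hv₀ (y3 _ hs₀ hne) y2
        (u3 _ hs hne.symm) u2
      have h2 : ¬ G.Adj y' v₀ := hB V G T s₀ s y' v₀ hC.1 hT hs₀ hs hy'T hv₀ (z3 _ hs₀ hne) z2
        (u3 _ hs hne.symm) u2
      exact hC.2 (hM V G s₀ s₀ s a y v₀ y' (Or.inl rfl) (Or.inl (hT s hs s₀ hs₀ hne.symm))
        (Or.inl (haf s₀ hs₀)) (haf s hs).symm (fun he => haT (he ▸ hs₀)) (fun he => haT (he ▸ hs₀))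
        (fun he => hyW.1 (he ▸ hs₀)) (fun he => hyW.1 (he ▸ hs₀)) (fun he => hy'T (he ▸ hs₀))
        (fun he => hy'T (he ▸ hs₀)) (Or.inl (y3 _ hs₀ hne)) y2 hya (u3 _ hs hne.symm) u2 u2
        (fun h => hAv a ha h.symm) (Or.inl (z3 _ hs₀ hne)) hay'.symm z2 h1 hyy (fun h => h2 h.symm))

end Pool.Agent.MPd439b2.H1M
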