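import Pool.Agent.Lib.MP_d439b2_co.H1M.Spec

/-!
# MP_d439b2_co, pair `(C_4, K3:0,1,02)`, type (M): N6, nested chains are bounded
-/

set_option autoImplicit false

namespace Pool.Agent.MPd439b2.H1M

open Pool.Agent.MPd439b2 Pool.Agent.MPd439b2.LK Pool.Agent.MPd439b2.H1

/-- **N6.** -/
theorem pfN6 : S_HG → S_N2 → S_N3 → S_N4 → S_N5 → S_N6 := by
  intro hHG hN2 hN3 hN4 hN5 q
  obtain ⟨n, hn⟩ := hHG q
  refine ⟨n + 5, ?_⟩
  intro V _ G T v K Φ t hcls hTM hLk hWt hChn
  obtain ⟨a, ha⟩ := hN2 V G T v (n + 5) K Φ t hcls hTM hWt hChn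
  have hN3' := hN3 V G T v (n + 5) K Φ t hcls hTM hWt hChn
  have hN4' := hN4 V G T v (n + 5) K Φ t hcls hTM hWt hChn
  obtain ⟨hc1, hc2, hc3, hc4⟩ := hChn
  -- `t` is injective
  have htlt : ∀ i j, i < j → j ≤ n + 5 → t i ≠ t j := by
    intro i j hij hj heq
    have h1 := (hc4 j j (by omega) hj hj).mpr le_rfl
    rw [← heq] at h1
    have h2 := (hc4 j i (by omega) hj (by omega)).mp h1
    omega
  have htne : ∀ i j, i ≠ j → i ≤ n + 5 → j ≤ n + 5 → t i ≠ t j := by
    intro i j hij hi hj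
    rcases lt_or_gt_of_ne hij with h | h
    · exact htlt i j h hj
    · exact (htlt j i h hi).symm
  have hΦK : ∀ i, 1 ≤ i → i ≤ n + 5 → ∀ x ∈ Φ i, x ∉ K i := by
    intro i h1 h2 x hx
    exact (hc1 i h1 h2).2.2.1 hx
  have hΦT : ∀ i, 1 ≤ i → i ≤ n + 5 → ∀ x ∈ Φ i, x ∉ T := by
    intro i h1 h2 x hx hxT
    exact hΦK i h1 h2 x hx ((hc1 i h1 h2).2.1 hxT)
  -- `a i` belongs to the later cliques
  have haK : ∀ i j, 3 ≤ i → i < j → j < n + 5 → a i ∈ K j := by
    intro i j hi hij hj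
    obtain ⟨h1, h2, h3⟩ := ha i hi (by omega)
    exact hN4' i j hi hij hj (a i) h1 h2 (h3 j hij.le hj.le) (h3 i le_rfl (by omega))
  have halt : ∀ i j, 3 ≤ i → i < j → j < n + 5 → a i ≠ a j := by
    intro i j hi hij hj heq
    have h1 := haK i j hi hij hj
    rw [heq] at h1
    exact hΦK j (by omega) hj.le (a j) (ha j (by omega) hj).1 h1
  have hane : ∀ i j, 3 ≤ i → 3 ≤ j → i ≠ j → i < n + 5 → j < n + 5 → a i ≠ a j := by
    intro i j hi hj hij hi5 hj5
    rcases lt_or_gt_of_ne hij with h | h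
    · exact halt i j hi h hj5
    · exact (halt j i hj h hi5).symm
  have hadj : ∀ i j, 3 ≤ i → 3 ≤ j → i ≠ j → i + 1 < n + 5 → j + 1 < n + 5 → G.Adj (a i) (a j) := by
    intro i j hi hj hij hi5 hj5
    have h1 := haK i (max i j + 1) hi (by omega) (by omega)
    have h2 := haK j (max i j + 1) hj (by omega) (by omega)
    exact (hc1 (max i j + 1) (by omega) (by omega)).1 _ h1 _ h2
      (hane i j hi hj hij (by omega) (by omega))
  set A : Set V := {x | ∃ i, i < n ∧ x = a (i + 3)} with hA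
  have hAc : CompleteOn G A := by
    rintro x ⟨i, hi, rfl⟩ y ⟨j, hj, rfl⟩ hxy
    have hij : i ≠ j := by
      rintro rfl
      exact hxy rfl
    exact hadj (i + 3) (j + 3) (by omega) (by omega) (by omega) (by omega) (by omega)
  have hAT : Disjoint A T := by
    rw [Set.disjoint_left]
    rintro x ⟨i, hi, rfl⟩
    exact hΦT (i + 3) (by omega) (by omega) _ (ha (i + 3) (by omega) (by omega)).1
  have hAM : ∀ x ∈ A, Ms G T x = ∅ := by
    rintro x ⟨i, hi, rfl⟩
    exact (ha (i + 3) (by omega) (by omega)).2.1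
  have hy : ∀ j, ∃ y, j < n → (y ∉ T ∧ Ms G T y = {t (j + 3)} ∧
      ∀ x ∈ A, (G.Adj y x ↔ x ∈ {x | ∃ i, i ≤ j ∧ x = a (i + 3)})) := by
    intro j
    by_cases hj : j < n
    · have h0 : t 0 ∈ T := hc3 0 (by omega)
      have hj3 : t (j + 3) ∈ T := hc3 (j + 3) (by omega)
      obtain ⟨y, h1, h2, h3⟩ := hN5 V G T A {x | ∃ i, i ≤ j ∧ x = a (i + 3)} (t 0) (t (j + 3))
        (v (t 0)) (v (t (j + 3))) hcls hTM.1 hAc hAT hAM h0 hj3
        (htne 0 (j + 3) (by omega) (by omega) (by omega)) (hWt _ h0).1 (hWt _ h0).2 (by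
          rintro x ⟨i, hi, rfl⟩
          obtain ⟨h1, h2, h3⟩ := ha (i + 3) (by omega) (by omega)
          exact hN3' 0 (i + 3) (by omega) (by omega) (by omega) _ h1 h2 _ (hWt _ h0).1
            (hWt _ h0).2) (hWt _ hj3).1 (hWt _ hj3).2 (by
          rintro x ⟨i, hi, rfl⟩
          exact ⟨i, by omega, rfl⟩) (by
          rintro x ⟨i, hi, rfl⟩
          obtain ⟨h1, h2, h3⟩ := ha (i + 3) (by omega) (by omega)
          obtain ⟨w, hw, hw1, hw2⟩ := h3 (j + 3) (by omega) (by omega)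
          exact ⟨w, hΦT (i + 3) (by omega) (by omega) w hw, hw1, hw2⟩) (by
          rintro x ⟨i, hi, rfl⟩ hx w hw hw1
          have hij : j < i := by
            by_contra hcon
            exact hx ⟨i, by omega, rfl⟩
          obtain ⟨h1, h2, h3⟩ := ha (i + 3) (by omega) (by omega)
          exact hN3' (j + 3) (i + 3) (by omega) (by omega) (by omega) _ h1 h2 w hw hw1)
      exact ⟨y, fun _ => ⟨h1, h2, h3⟩⟩
    · exact ⟨v (t 0), fun h => absurd h hj⟩
  choose y hy using hy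
  refine hn V G T (fun i => t (i + 3)) y (fun i => a (i + 3)) hcls hTM hLk ?_ ?_ ?_
  · intro i hi
    obtain ⟨h1, h2, _⟩ := hy i hi
    exact ⟨hc3 (i + 3) (by omega), h1, h2,
      hΦT (i + 3) (by omega) (by omega) _ (ha (i + 3) (by omega) (by omega)).1⟩
  · intro i hi j hj hij
    exact ⟨htne (i + 3) (j + 3) (by omega) (by omega) (by omega),
      hadj (i + 3) (j + 3) (by omega) (by omega) (by omega) (by omega) (by omega)⟩
  · intro i hi j hj
    obtain ⟨_, _, h3⟩ := hy i hi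
    rw [h3 (a (j + 3)) ⟨j, hj, rfl⟩]
    constructor
    · rintro ⟨k, hk, heq⟩
      by_contra hcon
      exact hane (j + 3) (k + 3) (by omega) (by omega) (by omega) (by omega) (by omega) heq
    · intro h
      exact ⟨j, h, rfl⟩

end Pool.Agent.MPd439b2.H1M
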