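import Pool.Agent.Lib.MP_d439b2_co.H1M.Spec

/-!
# MP_d439b2_co, H1M: P1, the pair rule (helper50)
-/

set_option autoImplicit false

namespace Pool.Agent.MPd439b2.H1M

open Pool.Agent.MPd439b2 Pool.Agent.MPd439b2.LK Pool.Agent.MPd439b2.H1

private theorem p1core (hM0 : H1.S_M0) {V : Type} {G : SimpleGraph V} {C : Set V}
    {k₁ k₂ x y c₀ c₁ : V} (hG : Cls1 G) (hC : Conn G C) (hk₁ : k₁ ∉ C) (hk₂ : k₂ ∉ C)
    (hx : Out G C x) (hy : Out G C y) (hk : G.Adj k₁ k₂) (hxy : ¬ G.Adj x y) (xk₁ : G.Adj x k₁)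
    (xk₂ : ¬ G.Adj x k₂) (yk₂ : G.Adj y k₂) (yk₁ : ¬ G.Adj y k₁) (h0 : c₀ ∈ C)
    (c0k₁ : G.Adj c₀ k₁) (c0k₂ : G.Adj c₀ k₂) (h1 : c₁ ∈ C) (c1k₁ : G.Adj c₁ k₁)
    (c1k₂ : ¬ G.Adj c₁ k₂) : False := by
  obtain ⟨P, hPB, h0P, hPc, hPn⟩ := exists_comp G
    (A := C \ {c | c ∈ C ∧ G.Adj c k₁ ∧ ¬ G.Adj c k₂}) (v := c₀) ⟨h0, fun h => h.2.2 c0k₂⟩
  have hPC : P ⊆ C := fun p hp => (hPB hp).1
  obtain ⟨p, hp, d, hd, hpd⟩ := hC.2 P hPC ⟨c₀, h0P⟩ (by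
    intro h
    rw [← h] at h1
    exact (hPB h1).2 ⟨hPC h1, c1k₁, c1k₂⟩)
  have hdB : G.Adj d k₁ ∧ ¬ G.Adj d k₂ := by
    by_contra hcon
    exact hPn d ⟨hd.1, fun h => hcon h.2⟩ ⟨hd.2, p, hp, hpd⟩
  have hxm : ∀ c ∈ C, ¬ G.Adj x c := fun c hc h => hx.2 c hc h.symm
  have hym : ∀ c ∈ C, ¬ G.Adj y c := fun c hc h => hy.2 c hc h.symm
  refine hG.2 (hM0 V G {k₁} {k₂} P x y d (Conn.singleton G _) (Conn.singleton G _) hPc ?_ ?_ ?_ ?_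
    ?_ (fun h => hx.1 (hPC h)) ?_ ?_ (fun h => hy.1 (hPC h)) ?_ ?_ hd.2 ⟨k₁, rfl, k₂, rfl, hk⟩
    ⟨k₁, rfl, c₀, h0P, c0k₁.symm⟩ ⟨k₂, rfl, c₀, h0P, c0k₂.symm⟩ ⟨k₁, rfl, xk₁⟩ ?_
    (fun p hp => hxm p (hPC hp)) ⟨k₂, rfl, yk₂⟩ ?_ (fun p hp => hym p (hPC hp))
    ⟨k₁, rfl, hdB.1⟩ ⟨p, hp, hpd.symm⟩ ?_ hxy (hxm d hd.1) (hym d hd.1))
  · exact Set.disjoint_singleton.mpr hk.ne
  · exact Set.disjoint_singleton_left.mpr (fun h => hk₁ (hPC h))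
  · exact Set.disjoint_singleton_left.mpr (fun h => hk₂ (hPC h))
  · exact fun h => xk₁.ne (Set.mem_singleton_iff.mp h)
  · intro h
    rw [Set.mem_singleton_iff.mp h] at hxy
    exact hxy yk₂.symm
  · intro h
    rw [Set.mem_singleton_iff.mp h] at hxy
    exact hxy xk₁
  · exact fun h => yk₂.ne (Set.mem_singleton_iff.mp h)
  · intro h
    rw [Set.mem_singleton_iff.mp h] at hd
    exact hk₁ hd.1
  · intro h
    rw [Set.mem_singleton_iff.mp h] at hd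
    exact hk₂ hd.1
  · intro p hp
    rw [Set.mem_singleton_iff.mp hp]
    exact xk₂
  · intro p hp
    rw [Set.mem_singleton_iff.mp hp]
    exact yk₁
  · intro p hp
    rw [Set.mem_singleton_iff.mp hp]
    exact hdB.2

/-- **P1.** The pair rule. -/
theorem pfP1 (hM0 : H1.S_M0) (hA7 : S_A7) : S_P1 := by
  intro V _ G C k₁ k₂ x y hG hC hk₁ hk₂ hx hy hk hxy xk₁ xk₂ yk₂ yk₁ h1 h2 c hc
  obtain ⟨c₀, h0, h0a⟩ := hA7 V G {k₁, k₂} C hG.1 hC (by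
    intro u hu w hw huw
    rcases hu with rfl | hu
    · rcases hw with rfl | hw
      · exact absurd rfl huw
      · rw [Set.mem_singleton_iff.mp hw]
        exact hk
    · rw [Set.mem_singleton_iff.mp hu] at huw ⊢
      rcases hw with rfl | hw
      · exact hk.symm
      · exact absurd (Set.mem_singleton_iff.mp hw).symm huw) (by
    rw [Set.disjoint_left]
    intro u hu huC
    rcases hu with rfl | hu
    · exact hk₁ huC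
    · rw [Set.mem_singleton_iff.mp hu] at huC
      exact hk₂ huC) (by
    intro u hu
    rcases hu with rfl | hu
    · exact ⟨hk₁, h1⟩
    · rw [Set.mem_singleton_iff.mp hu]
      exact ⟨hk₂, h2⟩)
  have c0k₁ : G.Adj c₀ k₁ := h0a k₁ (Or.inl rfl)
  have c0k₂ : G.Adj c₀ k₂ := h0a k₂ (Or.inr rfl)
  constructor
  · intro h
    by_contra h'
    exact p1core hM0 hG hC hk₁ hk₂ hx hy hk hxy xk₁ xk₂ yk₂ yk₁ h0 c0k₁ c0k₂ hc h h'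
  · intro h
    by_contra h'
    exact p1core hM0 hG hC hk₂ hk₁ hy hx hk.symm (fun h => hxy h.symm) yk₂ yk₁ xk₁ xk₂ h0 c0k₂
      c0k₁ hc h h'

end Pool.Agent.MPd439b2.H1M
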