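import Pool.Agent.Lib.MP_d439b2_co.H1M.Spec

/-!
# MP_d439b2_co, H1M, S0: witnesses and components; one colour
-/

set_option autoImplicit false

namespace Pool.Agent.MPd439b2.H1M

open Pool.Agent.MPd439b2 Pool.Agent.MPd439b2.LK Pool.Agent.MPd439b2.H1

namespace S0Aux

variable {V : Type} {G : SimpleGraph V} {T : Set V} {w e : V}

theorem nadj (h : Ms G T w = {e}) : ¬ G.Adj w e := by
  have h1 : e ∈ Ms G T w := by
    rw [h]
    rfl
  exact h1.2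

theorem adj (h : Ms G T w = {e}) {t : V} (ht : t ∈ T) (hte : t ≠ e) : G.Adj w t := by
  by_contra h1
  have h2 : t ∈ Ms G T w := ⟨ht, h1⟩
  rw [h] at h2
  exact hte h2

theorem full (h : Ms G T w = ∅) {t : V} (ht : t ∈ T) : G.Adj w t := by
  by_contra h1
  have h2 : t ∈ Ms G T w := ⟨ht, h1⟩
  rw [h] at h2
  exact h2

theorem pick [Finite V] {T F : Set V} (h : F.ncard < T.ncard) : ∃ t ∈ T, t ∉ F :=
  Set.exists_mem_notMem_of_ncard_lt_ncard h (Set.toFinite _)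

end S0Aux

open S0Aux in
theorem pfS0 : S_B1 → S_N0 → H1.S_M1 → S_S0 := by
  intro hB1 hN0 hM1 V _ G K T v h
  have hTK : ∀ t ∈ T, t ∈ K := fun t ht => h.tk ht
  have h1 : ∀ t ∈ T, v t ∉ K := by
    intro t ht hv
    obtain ⟨h2, h3⟩ := h.wt t ht
    exact nadj h3 (h.kc _ hv _ (hTK t ht) (fun h4 => h2 (by rw [h4]; exact ht)))
  have h2 : ∀ C, IsComp G Kᶜ C → ∀ w, w ∉ K → w ∉ C → Out G C w := by
    intro C hC w hw hwC
    exact ⟨hwC, fun c hc hcw => hC.2.2 w hw ⟨hwC, c, hc, hcw⟩⟩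
  have h3 : ∀ C, IsComp G Kᶜ C → ∀ t ∈ T, v t ∉ C → Out G C (v t) :=
    fun C hC t ht hv => h2 C hC (v t) (h1 t ht) hv
  have hTc : CompleteOn G T := h.tm.1
  have h4 : ∀ s ∈ T, ∀ s' ∈ T, s ≠ s' → ¬ G.Adj (v s) (v s') := by
    intro s hs s' hs' hss
    obtain ⟨a1, a2⟩ := h.wt s hs
    obtain ⟨b1, b2⟩ := h.wt s' hs'
    exact hB1 V G T s' s (v s) (v s') h.cls.1 hTc hs' hs a1 b1 (adj a2 hs' hss.symm) (nadj a2)
      (adj b2 hs hss) (nadj b2)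
  refine ⟨h1, h2, h3, h4, ?_⟩
  rintro C ⟨hC, hT0⟩
  have hCT : ∀ u ∈ C, u ∉ T := fun u hu hu' => hC.1 hu (hTK u hu')
  -- three elements with witnesses outside `C`
  set X : Set V := {t | t ∈ T ∧ v t ∈ C} with hX
  have hX1 : X.ncard ≤ 1 := by
    rw [Set.ncard_le_one (Set.toFinite _)]
    rintro a ⟨ha, ha'⟩ b ⟨hb, hb'⟩
    exact h.sep C hC a ha b hb ha' hb'
  have hbig := h.big
  obtain ⟨t₀, ht₀, hn₀⟩ : ∃ t ∈ T, t ∉ X := pick (by omega)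
  obtain ⟨t₁, ht₁, hn₁⟩ : ∃ t ∈ T, t ∉ insert t₀ X := pick (by
    have := Set.ncard_insert_le t₀ X
    omega)
  obtain ⟨t₂, ht₂, hn₂⟩ : ∃ t ∈ T, t ∉ insert t₁ (insert t₀ X) := pick (by
    have := Set.ncard_insert_le t₀ X
    have := Set.ncard_insert_le t₁ (insert t₀ X)
    omega)
  have h01 : t₀ ≠ t₁ := fun h5 => hn₁ (Or.inl h5.symm)
  have h12 : t₁ ≠ t₂ := fun h5 => hn₂ (Or.inl h5.symm)
  have h02 : t₀ ≠ t₂ := fun h5 => hn₂ (Or.inr (Or.inl h5.symm))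
  have hv₀ : v t₀ ∉ C := fun h5 => hn₀ ⟨ht₀, h5⟩
  have hv₁ : v t₁ ∉ C := fun h5 => hn₁ (Or.inr ⟨ht₁, h5⟩)
  have hv₂ : v t₂ ∉ C := fun h5 => hn₂ (Or.inr (Or.inr ⟨ht₂, h5⟩))
  have hne : ∀ u ∈ C, Ms G T u ≠ T := by
    rcases hN0 V G T C v t₀ t₁ t₂ h.cls h.tm h.wt hC.2.1
      (Set.disjoint_left.mpr hCT) ht₀ ht₁ ht₂ h01 h02 h12 (h3 C hC t₀ ht₀ hv₀)
      (h3 C hC t₁ ht₁ hv₁) (h3 C hC t₂ ht₂ hv₂) with h5 | h5
    · exact absurd h5 hT0
    · exact h5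
  have hty : ∀ u ∈ C, Ms G T u = ∅ ∨ ∃ s ∈ T, Ms G T u = {s} := by
    intro u hu
    rcases h.tm.2.1 u (hCT u hu) with h5 | h5 | h5
    · exact Or.inl h5
    · exact absurd h5 (hne u hu)
    · exact Or.inr h5
  -- the claim
  have claim : ∀ g ∈ T, ∀ p ∈ C, Ms G T p = {g} → v g ∉ C → ∀ u ∈ C, ¬ G.Adj u g := by
    intro g hg p hp hpg hvg u₀ hu₀ hu₀g
    obtain ⟨p', ⟨hp', hp'g⟩, p'', ⟨hp'', hp''B⟩, hpp⟩ := hC.2.1.2 {u | u ∈ C ∧ ¬ G.Adj u g}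
      (fun x hx => hx.1) ⟨p, hp, nadj hpg⟩ (fun h5 => by
        rw [← h5] at hu₀
        exact hu₀.2 hu₀g)
    have hp''g : G.Adj p'' g := by
      by_contra h5
      exact hp''B ⟨hp'', h5⟩
    have hMp' : Ms G T p' = {g} := by
      rcases hty p' hp' with h5 | ⟨s, hs, h5⟩
      · exact absurd (full h5 hg) hp'g
      · have h6 : g ∈ Ms G T p' := ⟨hg, hp'g⟩
        rw [h5] at h6
        have h7 : g = s := h6
        rw [h5, h7]
    have hMp'' : Ms G T p'' = ∅ := by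
      rcases hty p'' hp'' with h5 | ⟨s, hs, h5⟩
      · exact h5
      · have hsg : s ≠ g := fun h6 => nadj h5 (by rw [h6]; exact hp''g)
        exact absurd hpp (hB1 V G T s g p' p'' h.cls.1 hTc hs hg (hCT p' hp') (hCT p'' hp'')
          (adj hMp' hs hsg) (nadj hMp') hp''g (nadj h5))
    obtain ⟨k, hk, hkn⟩ : ∃ t ∈ T, t ∉ insert g X := pick (by
      have := Set.ncard_insert_le g X
      omega)
    have hkg : k ≠ g := fun h5 => hkn (Or.inl h5)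
    have hvk : v k ∉ C := fun h5 => hkn (Or.inr ⟨hk, h5⟩)
    obtain ⟨a1, a2⟩ := h.wt g hg
    obtain ⟨b1, b2⟩ := h.wt k hk
    have og := h3 C hC g hg hvg
    have ok := h3 C hC k hk hvk
    exact h.cls.2 (hM1 V G k k g p'' (v g) (v k) p' (Or.inl rfl) (Or.inl (hTc g hg k hk hkg.symm))
      (Or.inl (full hMp'' hk)) (full hMp'' hg).symm (fun h5 => hCT p'' hp'' (by rw [h5]; exact hk))
      (fun h5 => hCT p'' hp'' (by rw [h5]; exact hk)) (fun h5 => a1 (by rw [h5]; exact hk))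
      (fun h5 => a1 (by rw [h5]; exact hk)) (fun h5 => hCT p' hp' (by rw [h5]; exact hk))
      (fun h5 => hCT p' hp' (by rw [h5]; exact hk)) (Or.inl (adj a2 hk hkg)) (nadj a2)
      (fun h5 => og.2 p'' hp'' h5.symm) (adj b2 hg hkg.symm) (nadj b2) (nadj b2)
      (fun h5 => ok.2 p'' hp'' h5.symm) (Or.inl (adj hMp' hk hkg)) hpp hp'g
      (h4 g hg k hk hkg.symm) (fun h5 => og.2 p' hp' h5.symm) (fun h5 => ok.2 p' hp' h5.symm))
  by_cases hex : ∃ g ∈ T, ∃ p ∈ C, Ms G T p = {g}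
  · obtain ⟨g, hg, p, hp, hpg⟩ := hex
    refine ⟨g, hg, fun u hu => ?_⟩
    rcases hty u hu with h5 | ⟨s, hs, h5⟩
    · exact Or.inl h5
    · refine Or.inr ?_
      by_cases hsg : s = g
      · rw [h5, hsg]
      · exfalso
        by_cases hvg : v g ∈ C
        · have hvs : v s ∉ C := fun h6 => hsg (h.sep C hC s hs g hg h6 hvg)
          exact claim s hs u hu h5 hvs p hp (adj hpg hs hsg)
        · exact claim g hg p hp hpg hvg u hu (adj h5 hg (Ne.symm hsg))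
  · refine ⟨t₀, ht₀, fun u hu => ?_⟩
    rcases hty u hu with h5 | ⟨s, hs, h5⟩
    · exact Or.inl h5
    · exact absurd ⟨s, hs, u, hu, h5⟩ hex

end Pool.Agent.MPd439b2.H1M
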