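import Pool.Agent.Lib.MP_d439b2_co.H1M.Spec

/-!
# MP_d439b2_co, pair `(C_4, K3:0,1,02)`, type (M): S1, the regular setting
-/

set_option autoImplicit false

namespace Pool.Agent.MPd439b2.H1M

open Pool.Agent.MPd439b2 Pool.Agent.MPd439b2.LK Pool.Agent.MPd439b2.H1

/-- **S1.** -/
theorem pfS1 : S_B2 → S_HG → S_S1a → S_S1b → S_S1 := by
  intro hB2 hHG hS1a hS1b q m hm
  obtain ⟨L, hL⟩ := hHG q
  obtain ⟨N, hN⟩ := hS1b m L
  refine ⟨N, ?_⟩
  intro V _ G K T v hS hLk hTN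
  set Xk : V → Set V := fun k => {s | s ∈ T ∧ ¬ G.Adj (v s) k} with hXk
  have hhyp : ∀ a ∈ T, ∀ b ∈ T, ∀ c ∈ T, a ≠ b → a ≠ c → b ≠ c →
      (∃ X ∈ {X | ∃ k ∈ K, X = Xk k}, a ∈ X ∧ b ∈ X ∧ c ∉ X) →
      (∃ X ∈ {X | ∃ k ∈ K, X = Xk k}, a ∈ X ∧ c ∈ X ∧ b ∉ X) → False := by
    rintro a ha b hb c hc hab hac hbc ⟨X, ⟨k, hk, rfl⟩, haX, hbX, hcX⟩
      ⟨X', ⟨k', hk', rfl⟩, haX', hcX', hbX'⟩
    have h1 : G.Adj (v c) k := by
      by_contra h
      exact hcX ⟨hc, h⟩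
    exact hbX' ⟨hb, hS1a V G K T v a b c k k' hS ha hb hc hab hac hbc hk hk' haX.2 hbX.2 h1 haX'.2
      hcX'.2⟩
  rcases hN V T {X | ∃ k ∈ K, X = Xk k} hTN hhyp with h | h
  · -- the regular set
    obtain ⟨T', hT', hcard, hhom⟩ := h
    obtain ⟨_, b2, b3, _, _⟩ := hB2 V G
    refine ⟨T', hT', hcard, ?_⟩
    refine ⟨⟨hS.cls, b2 T T' hS.tm hT', hS.kc, hT'.trans hS.tk, b3 T T' v hS.wt hT', ?_⟩, ?_, ?_⟩
    · intro C hC t ht t' ht' h1 h2
      exact hS.sep C hC t (hT' ht) t' (hT' ht') h1 h2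
    · rw [hcard]; exact hm
    · intro k hk
      rcases hhom (Xk k) ⟨k, hk, rfl⟩ with h | h | ⟨s, hs, h⟩
      · right; left
        refine ⟨hk, fun s hs => ?_⟩
        by_contra hc
        have h1 : s ∈ Xk k ∩ T' := ⟨⟨hT' hs, hc⟩, hs⟩
        rw [h] at h1
        exact h1
      · left
        exact ⟨hk, fun s hs => (h hs).2⟩
      · right; right
        refine ⟨s, hs, hk, ?_, ?_⟩
        · have h1 : s ∈ Xk k ∩ T' := by rw [h]; rfl
          exact h1.1.2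
        · intro s' hs' hne
          by_contra hc
          have h1 : s' ∈ Xk k ∩ T' := ⟨⟨hT' hs', hc⟩, hs'⟩
          rw [h] at h1
          exact hne h1
  · -- the half graph
    exfalso
    obtain ⟨t, X, h1, h2, h3⟩ := h
    have hκ : ∀ j, ∃ k, j < L → k ∈ K ∧ X j = Xk k := by
      intro j
      by_cases hj : j < L
      · obtain ⟨k, hk, hX⟩ := (h1 j hj).2.1
        exact ⟨k, fun _ => ⟨hk, hX⟩⟩
      · exact ⟨v (t 0), fun h => absurd h hj⟩
    choose κ hκ using hκ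
    have hmem : ∀ i, i < L → ∀ j, j < L → (t i ∈ X j ↔ ¬ G.Adj (v (t i)) (κ j)) := by
      intro i hi j hj
      rw [(hκ j hj).2]
      exact ⟨fun h => h.2, fun h => ⟨(h1 i hi).1, h⟩⟩
    have hneκ : ∀ i, i < L → ∀ j, j < L → i < j → κ i ≠ κ j := by
      intro i hi j hj hij heq
      have h4 : X i = X j := by rw [(hκ i hi).2, (hκ j hj).2, heq]
      have h5 := (h3 i hi j hj).mpr hij
      rw [← h4] at h5
      exact lt_irrefl i ((h3 i hi i hi).mp h5)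
    refine hL V G T t (fun i => v (t i)) κ hS.cls hS.tm hLk ?_ ?_ ?_
    · intro i hi
      refine ⟨(h1 i hi).1, (hS.wt _ (h1 i hi).1).1, (hS.wt _ (h1 i hi).1).2, ?_⟩
      intro hκT
      obtain ⟨_, _, a, ha, b, hb, hab, haX, hbX⟩ := h1 i hi
      rw [(hκ i hi).2] at haX hbX
      have e1 : κ i ∈ Ms G T (v a) := ⟨hκT, haX.2⟩
      have e2 : κ i ∈ Ms G T (v b) := ⟨hκT, hbX.2⟩
      rw [(hS.wt a ha).2] at e1
      rw [(hS.wt b hb).2] at e2
      exact hab (e1.symm.trans e2)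
    · intro i hi j hj hij
      refine ⟨h2 i hi j hj hij, hS.kc _ (hκ i hi).1 _ (hκ j hj).1 ?_⟩
      rcases lt_or_gt_of_ne hij with h | h
      · exact hneκ i hi j hj h
      · exact (hneκ j hj i hi h).symm
    · intro i hi j hj
      have h4 := h3 i hi j hj
      rw [hmem i hi j hj] at h4
      constructor
      · intro h5
        by_contra h6
        exact (h4.mpr (by omega)) h5
      · intro h5
        by_contra h6
        have := h4.mp h6
        omega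

end Pool.Agent.MPd439b2.H1M
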