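import Pool.Agent.Lib.MP_d439b2_co.H1M.Spec
import Pool.Agent.Lib.MP_d439b2_co.Basic

/-!
# MP_d439b2_co, H1M, S10: star, the rows on `D`
-/

set_option autoImplicit false

namespace Pool.Agent.MPd439b2.H1M

open Pool.Agent.MPd439b2 Pool.Agent.MPd439b2.LK Pool.Agent.MPd439b2.H1

namespace s10Aux

variable {V : Type} {G : SimpleGraph V}

/-- the element `e` is bad: its witness is in a component which touches `d` -/
def Bd (G : SimpleGraph V) (K T : Set V) (v : V → V) (e d : V) : Prop :=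
  e ∈ T ∧ d ∈ kD G K T v ∧ ∃ C, IsComp G Kᶜ C ∧ v e ∈ C ∧ ∃ c ∈ C, G.Adj c d

theorem same [Finite V] (hS : S_S10a) {K T : Set V} {v : V → V} (hSt : St G K T v) {e d e' d' : V}
    (h : Bd G K T v e d) (h' : Bd G K T v e' d') (hne : e ≠ e') : d = d' := by
  obtain ⟨he, hd, C, hC, hvC, hcd⟩ := h
  obtain ⟨he', hd', C', hC', hvC', hcd'⟩ := h'
  exact hS V G K T v hSt C C' hC hC' e he e' he' hne hvC hvC' d hd d' hd' hcd hcd'

/-- a component with a first or second index `e` either contains the witness of `e` or misses `D` -/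
theorem away [Finite V] (h6 : S_S6) (h8 : S_S8) {K T : Set V} {v : V → V} (hSt : St G K T v)
    {e : V} (he : e ∈ T) {C : Set V} (hC : Ix G K T v C e ∨ I2 G K T v C e)
    (hx : ∃ d ∈ kD G K T v, ∃ c ∈ C, G.Adj c d) : IsComp G Kᶜ C ∧ v e ∈ C := by
  obtain ⟨d, hd, c, hc, hcd⟩ := hx
  rcases hC with hC | hC
  · refine ⟨hC.1.1, ?_⟩
    by_contra hv
    obtain ⟨t, ht, hct⟩ := hC.2
    exact (h6 V G K T v hSt C hC.1 e he hv t ht hct).2 d hd c hc hcd
  · exfalso
    obtain ⟨hN, q, ⟨hq, C₁, hC₁, hq₁⟩, hq₂⟩ := hC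
    exact (h8 V G K T v hSt C₁ C e he hC₁ hN q hq hq₁ hq₂).2.2.2 d hd c hc hcd

end s10Aux

open s10Aux in
theorem pfS10 (h6 : S_S6) (h8 : S_S8) (ha : S_S10a) : S_S10 := by
  intro V _ G K T v hSt
  by_cases hF : ∃ e₁ d₁ e₂ d₂, Bd G K T v e₁ d₁ ∧ Bd G K T v e₂ d₂ ∧ e₁ ≠ e₂
  · obtain ⟨e₁, d₁, e₂, d₂, hb₁, hb₂, hne⟩ := hF
    have hdd : d₁ = d₂ := same ha hSt hb₁ hb₂ hne
    refine ⟨e₁, {d₁}, fun e he _ C hC c hc => ?_⟩
    have key : ∀ d ∈ kD G K T v, ∀ c ∈ C, G.Adj c d → d = d₁ := by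
      intro d hd c' hc' hcd
      obtain ⟨hK, hv⟩ := away h6 h8 hSt he hC ⟨d, hd, c', hc', hcd⟩
      have hb : Bd G K T v e d := ⟨he, hd, C, hK, hv, c', hc', hcd⟩
      by_cases h1 : e = e₁
      · rw [hdd]
        exact same ha hSt hb hb₂ (fun h2 => hne (h1.symm.trans h2))
      · exact same ha hSt hb hb₁ h1
    by_cases h1 : G.Adj c d₁
    · right
      intro d hd
      constructor
      · intro h2
        exact key d hd c hc h2
      · intro h2
        have h3 : d = d₁ := h2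
        rw [h3]
        exact h1
    · left
      intro d hd h2
      have h3 := key d hd c hc h2
      rw [h3] at h2
      exact h1 h2
  · by_cases hB : ∃ e₁ d₁, Bd G K T v e₁ d₁
    · obtain ⟨e₁, d₁, hb₁⟩ := hB
      refine ⟨e₁, ∅, fun e he hne C hC c hc => Or.inl fun d hd hcd => hF ?_⟩
      obtain ⟨hK, hv⟩ := away h6 h8 hSt he hC ⟨d, hd, c, hc, hcd⟩
      exact ⟨e, d, e₁, d₁, ⟨he, hd, C, hK, hv, c, hc, hcd⟩, hb₁, hne⟩
    · have hV : Nonempty V := by
        have h1 := hSt.big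
        have h2 : T.Nonempty := by
          rw [Set.nonempty_iff_ne_empty]
          rintro rfl
          rw [Set.ncard_empty] at h1
          omega
        exact ⟨h2.choose⟩
      obtain ⟨b⟩ := hV
      refine ⟨b, ∅, fun e he _ C hC c hc => Or.inl fun d hd hcd => hB ?_⟩
      obtain ⟨hK, hv⟩ := away h6 h8 hSt he hC ⟨d, hd, c, hc, hcd⟩
      exact ⟨e, d, he, hd, C, hK, hv, c, hc, hcd⟩

end Pool.Agent.MPd439b2.H1M
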