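import Pool.Agent.Lib.MP_d439b2_co.H1M.Spec

/-!
# MP_d439b2_co, pair `(C_4, K3:0,1,02)`, type (M): two patterns (`S_S1a`)
-/

set_option autoImplicit false

namespace Pool.Agent.MPd439b2.H1M

open Pool.Agent.MPd439b2 Pool.Agent.MPd439b2.LK Pool.Agent.MPd439b2.H1

/-- **S1a.** Two patterns. -/
theorem pfS1a : H1.S_M4 → S_B1 → S_S1a := by
  intro hM4 hB1 V _ G K T v a b c k k' hS ha hb hc hab hac hbc hk hk' hak hbk hck hak' hck' hbk'
  have hsee : ∀ s ∈ T, ∀ t ∈ T, t ≠ s → G.Adj (v s) t := by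
    intro s hs t ht hts
    by_contra h
    have h1 : t ∈ Ms G T (v s) := ⟨ht, h⟩
    rw [(hS.wt s hs).2] at h1
    exact hts h1
  have hmiss : ∀ s ∈ T, ¬ G.Adj (v s) s := by
    intro s hs
    have h1 : s ∈ Ms G T (v s) := by
      rw [(hS.wt s hs).2]
      rfl
    exact h1.2
  have hout : ∀ s ∈ T, v s ∉ K := by
    intro s hs h
    exact hmiss s hs (hS.kc (v s) h s (hS.tk hs) (fun h' => (hS.wt s hs).1 (by rw [h']; exact hs)))
  have hna : ∀ s ∈ T, ∀ t ∈ T, s ≠ t → ¬ G.Adj (v s) (v t) := fun s hs t ht hst =>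
    hB1 V G T t s (v s) (v t) hS.cls.1 hS.tm.1 ht hs (hS.wt s hs).1 (hS.wt t ht).1
      (hsee s hs t ht hst.symm) (hmiss s hs) (hsee t ht s hs hst) (hmiss t ht)
  have hkb : k ≠ b := by
    rintro rfl
    exact hak (hsee a ha k hb hab.symm)
  exact hna b hb c hc hbc (hM4 V G K b b k' k (v a) (v b) (v c) hS.cls hS.kc (hS.tk hb) (hS.tk hb) hk'
    hk (hout a ha) (hout b hb) (hout c hc) hkb (hsee a ha b hb hab.symm) hak' hak hbk' (hmiss b hb)
    (hmiss b hb) hbk (hsee c hc b hb hbc) hck hck' (hna a ha b hb hab) (hna a ha c hc hac))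

end Pool.Agent.MPd439b2.H1M
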