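import Pool.Agent.Lib.MP_d439b2_co.H1M.Spec

/-! # MP_d439b2_co, H1M, S1b: Ramsey for families of subsets -/

set_option autoImplicit false

namespace Pool.Agent.MPd439b2.H1M

open Pool.Agent.MPd439b2 Pool.Agent.MPd439b2.LK Pool.Agent.MPd439b2.H1

namespace S1bx

/-- some set of the family contains `a`, `b` and not `c` -/
def P {V : Type} (𝒲 : Set (Set V)) (a b c : V) : Prop := ∃ X ∈ 𝒲, a ∈ X ∧ b ∈ X ∧ c ∉ X

theorem P.symm {V : Type} {𝒲 : Set (Set V)} {a b c : V} (h : P 𝒲 a b c) : P 𝒲 b a c := by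
  obtain ⟨X, h1, h2, h3, h4⟩ := h
  exact ⟨X, h1, h3, h2, h4⟩

/-- the pattern 110 occurs everywhere, the pattern 101 does not occur -/
theorem chain {V : Type} (T : Set V) (𝒲 : Set (Set V)) (ρ : ℕ → V) (M L : ℕ) (hM : L + 4 ≤ M)
    (hT : ∀ i, i < M → ρ i ∈ T) (inj : ∀ i, i < M → ∀ j, j < M → i ≠ j → ρ i ≠ ρ j)
    (h1 : ∀ i j k, i < j → j < k → k < M → P 𝒲 (ρ i) (ρ j) (ρ k))
    (h2 : ∀ i j k, i < j → j < k → k < M → ¬ P 𝒲 (ρ i) (ρ k) (ρ j)) :
    ∃ (t : ℕ → V) (X : ℕ → Set V), (∀ i, i < L → t i ∈ T ∧ X i ∈ 𝒲 ∧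
      ∃ a ∈ T, ∃ b ∈ T, a ≠ b ∧ a ∈ X i ∧ b ∈ X i) ∧
      (∀ i, i < L → ∀ j, j < L → i ≠ j → t i ≠ t j) ∧
        ∀ i, i < L → ∀ j, j < L → (t i ∈ X j ↔ i < j) := by
  have h3 : ∀ p : ℕ, ∃ X : Set V, p < L → X ∈ 𝒲 ∧ ρ 0 ∈ X ∧ ρ (p + 1) ∈ X ∧ ρ (p + 2) ∉ X := by
    intro p
    by_cases hp : p < L
    · obtain ⟨X, hX⟩ := h1 0 (p + 1) (p + 2) (by omega) (by omega) (by omega)
      exact ⟨X, fun _ => hX⟩
    · exact ⟨∅, fun h => (hp h).elim⟩
  choose X hX using h3
  refine ⟨fun i => ρ (i + 2), X, ?_, ?_, ?_⟩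
  · intro i hi
    obtain ⟨a1, a2, a3, a4⟩ := hX i hi
    exact ⟨hT _ (by omega), a1, ρ 0, hT _ (by omega), ρ (i + 1), hT _ (by omega),
      inj _ (by omega) _ (by omega) (by omega), a2, a3⟩
  · intro i hi j hj hij
    exact inj _ (by omega) _ (by omega) (by omega)
  · intro i hi j hj
    obtain ⟨a1, a2, a3, a4⟩ := hX j hj
    change ρ (i + 2) ∈ X j ↔ i < j
    constructor
    · intro h
      by_contra hij
      rcases Nat.lt_or_ge j i with hlt | hge
      · exact h2 0 (j + 2) (i + 2) (by omega) (by omega) (by omega) ⟨X j, a1, a2, h, a4⟩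
      · have : i = j := by omega
        subst this
        exact a4 h
    · intro hij
      by_contra h
      rcases Nat.lt_or_ge (i + 2) (j + 1) with hlt | hge
      · exact h2 0 (i + 2) (j + 1) (by omega) hlt (by omega) ⟨X j, a1, a2, a3, h⟩
      · have : i + 2 = j + 1 := by omega
        rw [this] at h
        exact h a3

end S1bx

open S1bx

theorem pfS1b : H1.S_R0 → S_S1b := by
  classical
  intro hR m L
  obtain ⟨N, hN⟩ := hR (Bool × Bool × Bool) (max m (L + 4))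
  refine ⟨N + 1, fun V _ T 𝒲 hT hW => ?_⟩
  obtain ⟨M, hMdef⟩ : ∃ M, M = max m (L + 4) := ⟨_, rfl⟩
  rw [← hMdef] at hN
  have hM1 : m ≤ M := hMdef ▸ le_max_left _ _
  have hM2 : L + 4 ≤ M := hMdef ▸ le_max_right _ _
  obtain ⟨τ, hτT, hτi⟩ : ∃ τ : ℕ → V, (∀ i, i < N → τ i ∈ T) ∧
      ∀ i, i < N → ∀ j, j < N → i ≠ j → τ i ≠ τ j := by
    have : Fintype T := Fintype.ofFinite T
    have h1 : Fintype.card (Fin (N + 1)) ≤ Fintype.card T := by
      rw [Fintype.card_fin, ← Nat.card_eq_fintype_card, Nat.card_coe_set_eq]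
      exact hT
    obtain ⟨f⟩ := Function.Embedding.nonempty_of_card_le h1
    refine ⟨fun i => f ⟨i % (N + 1), Nat.mod_lt _ (by omega)⟩, fun i _ => (f _).2,
      fun i hi j hj hij h => hij ?_⟩
    have h2 := f.injective (Subtype.ext h)
    rw [Fin.mk.injEq, Nat.mod_eq_of_lt (by omega), Nat.mod_eq_of_lt (by omega)] at h2
    exact h2
  obtain ⟨s, ⟨c1, c2, c3⟩, hs, hsN, hc⟩ := hN fun i j k =>
    (decide (P 𝒲 (τ i) (τ j) (τ k)), decide (P 𝒲 (τ i) (τ k) (τ j)), decide (P 𝒲 (τ j) (τ k) (τ i)))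
  simp only [Prod.mk.injEq] at hc
  obtain ⟨ρ, hρ⟩ : ∃ ρ : ℕ → V, ρ = fun i => τ (s i) := ⟨_, rfl⟩
  have hρT : ∀ i, i < M → ρ i ∈ T := fun i hi => by
    rw [hρ]
    exact hτT _ (hsN i hi)
  have inj : ∀ i, i < M → ∀ j, j < M → i ≠ j → ρ i ≠ ρ j := by
    intro i hi j hj hij
    rw [hρ]
    refine hτi _ (hsN i hi) _ (hsN j hj) ?_
    rcases lt_or_gt_of_ne hij with h | h
    · exact (hs i j h hj).ne
    · exact (hs j i h hi).ne'
  have e1 : ∀ i j k, i < j → j < k → k < M → (P 𝒲 (ρ i) (ρ j) (ρ k) ↔ c1 = true) := by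
    intro i j k h1 h2 h3
    rw [← (hc i j k h1 h2 h3).1, hρ]
    exact decide_eq_true_iff.symm
  have e2 : ∀ i j k, i < j → j < k → k < M → (P 𝒲 (ρ i) (ρ k) (ρ j) ↔ c2 = true) := by
    intro i j k h1 h2 h3
    rw [← (hc i j k h1 h2 h3).2.1, hρ]
    exact decide_eq_true_iff.symm
  have e3 : ∀ i j k, i < j → j < k → k < M → (P 𝒲 (ρ j) (ρ k) (ρ i) ↔ c3 = true) := by
    intro i j k h1 h2 h3
    rw [← (hc i j k h1 h2 h3).2.2, hρ]
    exact decide_eq_true_iff.symm
  -- two patterns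
  have h0 : ∀ i j k, i < M → j < M → k < M → i ≠ j → i ≠ k → j ≠ k → P 𝒲 (ρ i) (ρ j) (ρ k) →
      P 𝒲 (ρ i) (ρ k) (ρ j) → False := fun i j k hi hj hk hij hik hjk h1 h2 =>
    hW _ (hρT i hi) _ (hρT j hj) _ (hρT k hk) (inj i hi j hj hij) (inj i hi k hk hik)
      (inj j hj k hk hjk) h1 h2
  have h12 : ¬ (c1 = true ∧ c2 = true) := fun ⟨h1, h2⟩ =>
    h0 0 1 2 (by omega) (by omega) (by omega) (by omega) (by omega) (by omega)
      ((e1 0 1 2 (by omega) (by omega) (by omega)).mpr h1)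
      ((e2 0 1 2 (by omega) (by omega) (by omega)).mpr h2)
  have h13 : ¬ (c1 = true ∧ c3 = true) := fun ⟨h1, h3⟩ =>
    h0 1 0 2 (by omega) (by omega) (by omega) (by omega) (by omega) (by omega)
      ((e1 0 1 2 (by omega) (by omega) (by omega)).mpr h1).symm
      ((e3 0 1 2 (by omega) (by omega) (by omega)).mpr h3)
  have h23 : ¬ (c2 = true ∧ c3 = true) := fun ⟨h2, h3⟩ =>
    h0 2 0 1 (by omega) (by omega) (by omega) (by omega) (by omega) (by omega)
      ((e2 0 1 2 (by omega) (by omega) (by omega)).mpr h2).symm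
      ((e3 0 1 2 (by omega) (by omega) (by omega)).mpr h3).symm
  -- the pattern 101 does not occur
  have hc2 : ¬ c2 = true := by
    intro h2
    obtain ⟨X, hX, a0, a2, a1⟩ := (e2 0 1 2 (by omega) (by omega) (by omega)).mpr h2
    by_cases a3 : ρ 3 ∈ X
    · exact h23 ⟨h2, (e3 1 2 3 (by omega) (by omega) (by omega)).mp ⟨X, hX, a2, a3, a1⟩⟩
    · exact h12 ⟨(e1 0 2 3 (by omega) (by omega) (by omega)).mp ⟨X, hX, a0, a2, a3⟩, h2⟩
  have g2 : ∀ i j k, i < j → j < k → k < M → ¬ P 𝒲 (ρ i) (ρ k) (ρ j) :=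
    fun i j k h1 h2 h3 h => hc2 ((e2 i j k h1 h2 h3).mp h)
  by_cases hc1 : c1 = true
  · right
    exact chain T 𝒲 ρ M L hM2 hρT inj (fun i j k h1 h2 h3 => (e1 i j k h1 h2 h3).mpr hc1) g2
  · by_cases hc3 : c3 = true
    · right
      refine chain T 𝒲 (fun i => ρ (M - 1 - i)) M L hM2 (fun i hi => hρT _ (by omega))
        (fun i hi j hj hij => inj _ (by omega) _ (by omega) (by omega)) ?_ ?_
      · intro i j k h1 h2 h3
        exact ((e3 (M - 1 - k) (M - 1 - j) (M - 1 - i) (by omega) (by omega) (by omega)).mpr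
          hc3).symm
      · intro i j k h1 h2 h3 h
        exact g2 (M - 1 - k) (M - 1 - j) (M - 1 - i) (by omega) (by omega) (by omega) h.symm
    · left
      have g : ∀ i j k, i < j → i < M → j < M → k < M → k ≠ i → k ≠ j →
          ¬ P 𝒲 (ρ i) (ρ j) (ρ k) := by
        intro i j k hij hi hj hk hki hkj h
        rcases lt_or_gt_of_ne hki with h1 | h1
        · exact hc3 ((e3 k i j h1 hij hj).mp h)
        · rcases lt_or_gt_of_ne hkj with h2 | h2
          · exact hc2 ((e2 i k j h1 h2 hj).mp h)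
          · exact hc1 ((e1 i j k hij h2 hk).mp h)
      have g' : ∀ i j k, i ≠ j → i < M → j < M → k < M → k ≠ i → k ≠ j →
          ¬ P 𝒲 (ρ i) (ρ j) (ρ k) := by
        intro i j k hij hi hj hk hki hkj h
        rcases lt_or_gt_of_ne hij with h1 | h1
        · exact g i j k h1 hi hj hk hki hkj h
        · exact g j i k h1 hj hi hk hkj hki h.symm
      refine ⟨ρ '' (Finset.range m : Set ℕ), ?_, ?_, ?_⟩
      · rintro _ ⟨i, hi, rfl⟩
        rw [Finset.mem_coe, Finset.mem_range] at hi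
        exact hρT i (by omega)
      · rw [Set.ncard_image_of_injOn, Set.ncard_coe_finset, Finset.card_range]
        intro i hi j hj h
        rw [Finset.mem_coe, Finset.mem_range] at hi hj
        by_contra hij
        exact inj i (by omega) j (by omega) hij h
      · intro X hX
        by_cases hne : X ∩ ρ '' (Finset.range m : Set ℕ) = ∅
        · exact Or.inl hne
        · right
          obtain ⟨_, hxX, i, hi, rfl⟩ := Set.nonempty_iff_ne_empty.mpr hne
          rw [Finset.mem_coe, Finset.mem_range] at hi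
          by_cases hsub : ρ '' (Finset.range m : Set ℕ) ⊆ X
          · exact Or.inl hsub
          · right
            rw [Set.not_subset] at hsub
            obtain ⟨_, ⟨k, hk, rfl⟩, hkX⟩ := hsub
            rw [Finset.mem_coe, Finset.mem_range] at hk
            have hik : k ≠ i := fun h => hkX (h ▸ hxX)
            refine ⟨ρ i, ⟨i, Finset.mem_coe.mpr (Finset.mem_range.mpr hi), rfl⟩, ?_⟩
            apply Set.Subset.antisymm
            · rintro _ ⟨hyX, j, hj, rfl⟩
              rw [Finset.mem_coe, Finset.mem_range] at hj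
              rw [Set.mem_singleton_iff]
              by_cases hij : i = j
              · rw [hij]
              · have hjk : k ≠ j := fun h => hkX (h ▸ hyX)
                exact (g' i j k hij (by omega) (by omega) (by omega) hik hjk
                  ⟨X, hX, hxX, hyX, hkX⟩).elim
            · intro y hy
              rw [Set.mem_singleton_iff] at hy
              rw [hy]
              exact ⟨hxX, i, Finset.mem_coe.mpr (Finset.mem_range.mpr hi), rfl⟩

end Pool.Agent.MPd439b2.H1M
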