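import Pool.Agent.Lib.MP_d439b2_co.H1M.Spec

/-!
# MP_d439b2_co, H1M, S1c: fresh colours
-/

set_option autoImplicit false

namespace Pool.Agent.MPd439b2.H1M

open Pool.Agent.MPd439b2 Pool.Agent.MPd439b2.LK Pool.Agent.MPd439b2.H1

private theorem sees {V : Type} {G : SimpleGraph V} {T C : Set V} {g g' : V} (hg : g ∈ T)
    (hne : g ≠ g') (h : ∀ u ∈ C, Ms G T u = ∅ ∨ Ms G T u = {g'}) : ∀ c ∈ C, G.Adj c g := by
  intro c hc
  by_contra h1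
  have h2 : g ∈ Ms G T c := ⟨hg, h1⟩
  rcases h c hc with h3 | h3
  · rw [h3] at h2
    exact h2
  · rw [h3] at h2
    exact hne h2

theorem pfS1c : S_S0 → S_S1c := by
  intro hS0 V _ G K T v hSt C C' hC hC' e
  obtain ⟨_, _, _, _, hcol⟩ := hS0 V G K T v hSt
  obtain ⟨g₁, hg₁, h₁⟩ := hcol C hC
  obtain ⟨g₂, hg₂, h₂⟩ := hcol C' hC'
  have hsub : ∀ D, IsComp G Kᶜ D → ({t | t ∈ T ∧ v t ∈ D} : Set V).ncard ≤ 1 := by
    intro D hD
    rw [Set.ncard_le_one_iff_subsingleton]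
    intro t ht t' ht'
    exact hSt.sep D hD t ht.1 t' ht'.1 ht.2 ht'.2
  have a1 := hsub C hC.1
  have a2 := hsub C' hC'.1
  by_contra hn
  push Not at hn
  have hT : T ⊆ (({e, g₁, g₂} : Set V) ∪ {t | t ∈ T ∧ v t ∈ C}) ∪ {t | t ∈ T ∧ v t ∈ C'} := by
    intro g hg
    by_contra hg'
    simp only [Set.mem_union, Set.mem_insert_iff, Set.mem_singleton_iff, not_or] at hg'
    obtain ⟨⟨⟨n1, n2, n3⟩, n4⟩, n5⟩ := hg'
    obtain ⟨c, hc, hcg⟩ := hn g hg n1 (fun h => n4 ⟨hg, h⟩) (fun h => n5 ⟨hg, h⟩)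
      (sees hg n2 h₁)
    exact hcg (sees hg n3 h₂ c hc)
  have b1 := Set.ncard_le_ncard hT
  have b2 := Set.ncard_union_le (({e, g₁, g₂} : Set V) ∪ {t | t ∈ T ∧ v t ∈ C})
    {t | t ∈ T ∧ v t ∈ C'}
  have b3 := Set.ncard_union_le ({e, g₁, g₂} : Set V) {t | t ∈ T ∧ v t ∈ C}
  have b4 : ({e, g₁, g₂} : Set V).ncard ≤ 3 := by
    have c1 := Set.ncard_insert_le e ({g₁, g₂} : Set V)
    have c2 := Set.ncard_insert_le g₁ ({g₂} : Set V)
    rw [Set.ncard_singleton] at c2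
    omega
  have b5 := hSt.big
  omega

end Pool.Agent.MPd439b2.H1M
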