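import Pool.Agent.Lib.MP_d439b2_co.H1M.Spec

/-!
# MP_d439b2_co, H1M: S2, components and `P f` (helper53)
-/

set_option autoImplicit false

namespace Pool.Agent.MPd439b2.H1M

open Pool.Agent.MPd439b2 Pool.Agent.MPd439b2.LK Pool.Agent.MPd439b2.H1

/-- **S2.** Components and `P f`. -/
theorem pfS2 (hP : S_P1) (hS0 : S_S0) (hS1 : S_S1c) : S_S2 := by
  intro V _ G K T v h C hC f hf hfC t ht htc c hc
  obtain ⟨_, h2, h3, h4, _⟩ := hS0 V G K T v h
  obtain ⟨g, hg, hgf, hgC, _, hcg, _⟩ := hS1 V G K T v h C C hC hC f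
  have hwt := h.wt g hg
  have hvg : ¬ G.Adj (v g) g := by
    intro hh
    have : g ∈ Ms G T (v g) := by rw [hwt.2]; rfl
    exact this.2 hh
  have hvt : G.Adj (v g) t := ht.2.2 g hg hgf
  have htg : t ≠ g := by
    intro hh
    rw [hh] at hvt
    exact hvg hvt
  have hgK : g ∈ K := h.tk hg
  have hfg : G.Adj (v f) g := by
    by_contra hh
    have : g ∈ Ms G T (v f) := ⟨hg, hh⟩
    rw [(h.wt f hf).2] at this
    exact hgf this
  have hadj : G.Adj t g := h.kc t ht.1 g hgK htg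
  have := hP V G C t g (v g) (v f) h.cls hC.1.2.1 (fun hh => hC.1.1 hh ht.1)
    (fun hh => hC.1.1 hh hgK) (h3 C hC.1 g hg hgC) (h3 C hC.1 f hf hfC) hadj (h4 g hg f hf hgf)
    hvt hvg hfg ht.2.1 htc (by
      obtain ⟨c₁, hc₁, _⟩ := htc
      exact ⟨c₁, hc₁, hcg c₁ hc₁⟩) c hc
  exact this.2 (hcg c hc)

end Pool.Agent.MPd439b2.H1M
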