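import Pool.Agent.Lib.MP_d439b2_co.H1M.Spec

/-!
# MP_d439b2_co, pair `(C_4, K3:0,1,02)`, type (M), S3: components of type 0
-/

set_option autoImplicit false

namespace Pool.Agent.MPd439b2.H1M

open Pool.Agent.MPd439b2 Pool.Agent.MPd439b2.LK Pool.Agent.MPd439b2.H1

theorem pfS3 (h4 : H1.S_M4) (h0 : S_S0) : S_S3 := by
  intro V _ G K T v hs C hC hT0 k hk hkZ c hc hck
  obtain ⟨s1, s2, s3, s4, s5⟩ := h0 V G K T v hs
  have hcK : c ∉ K := hC.1 hc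
  have hMs : ∀ t ∈ T, ¬ G.Adj c t := by
    intro t ht
    have h : t ∈ Ms G T c := by
      rw [hT0 c hc]
      exact ht
    exact h.2
  have hvC : ∀ t ∈ T, v t ∉ C := by
    intro t ht hvt
    have h1 := hT0 (v t) hvt
    rw [(hs.wt t ht).2] at h1
    have h2 := hs.big
    rw [← h1, Set.ncard_singleton] at h2
    omega
  have hvc : ∀ t ∈ T, ¬ G.Adj c (v t) := fun t ht => (s3 C hC t ht (hvC t ht)).2 c hc
  have hw1 : ∀ s ∈ T, ∀ t ∈ T, s ≠ t → G.Adj (v s) t := by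
    intro s hs' t ht hst
    by_contra hn
    have h1 : t ∈ Ms G T (v s) := ⟨ht, hn⟩
    rw [(hs.wt s hs').2] at h1
    exact hst h1.symm
  have hw2 : ∀ s ∈ T, ¬ G.Adj (v s) s := by
    intro s hs'
    have h1 : s ∈ Ms G T (v s) := by
      rw [(hs.wt s hs').2]
      rfl
    exact h1.2
  rcases hs.hom k hk with hD | hZ | ⟨f, hf, hP⟩
  · obtain ⟨a, b, d, ha, hb, hd, hab, had, hbd⟩ :=
      (Set.two_lt_ncard_iff (Set.toFinite T)).1 (lt_of_lt_of_le (by norm_num) hs.big)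
    exact hvc b hb (h4 V G K d d k a (v a) c (v b) hs.cls hs.kc (hs.tk hd) (hs.tk hd) hk (hs.tk ha)
      (s1 a ha) hcK (s1 b hb) had (hw1 a ha d hd had) (hD.2 a ha) (hw2 a ha) hck (hMs d hd)
      (hMs d hd) (hMs a ha) (hw1 b hb d hd hbd) (hw1 b hb a ha hab.symm) (hD.2 b hb)
      (fun h => hvc a ha h.symm) (s4 a ha b hb hab))
  · exact hkZ hZ
  · obtain ⟨g, hg, hgf⟩ := Set.exists_ne_of_one_lt_ncard (lt_of_lt_of_le (by norm_num) hs.big) f
    exact s4 f hf g hg hgf.symm (h4 V G K k k g f c (v f) (v g) hs.cls hs.kc hk hk (hs.tk hg)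
      (hs.tk hf) hcK (s1 f hf) (s1 g hg) (fun h => hMs f hf (h ▸ hck)) hck (hMs g hg) (hMs f hf)
      (hw1 f hf g hg hgf.symm) hP.2.1 hP.2.1 (hw2 f hf) (hP.2.2 g hg hgf) (hw1 g hg f hf hgf)
      (hw2 g hg) (hvc f hf) (hvc g hg))

end Pool.Agent.MPd439b2.H1M
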