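import Pool.Agent.Lib.MP_d439b2_co.H1M.Spec

/-!
# MP_d439b2_co, type (M): at most one index (S4)
-/

set_option autoImplicit false

namespace Pool.Agent.MPd439b2.H1M

open Pool.Agent.MPd439b2 Pool.Agent.MPd439b2.LK Pool.Agent.MPd439b2.H1

namespace S4x

variable {V : Type} [Finite V] {G : SimpleGraph V} {K T : Set V} {v : V → V}

omit [Finite V] in
theorem wt_self (hSt : St G K T v) {e : V} (he : e ∈ T) : ¬ G.Adj (v e) e := by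
  have h := (hSt.wt e he).2
  have h1 : e ∈ Ms G T (v e) := by rw [h]; rfl
  exact h1.2

omit [Finite V] in
theorem wt_ne (hSt : St G K T v) {e s : V} (he : e ∈ T) (hs : s ∈ T) (h : e ≠ s) :
    G.Adj (v s) e := by
  by_contra hn
  have h1 : e ∈ Ms G T (v s) := ⟨he, hn⟩
  rw [(hSt.wt s hs).2] at h1
  exact h h1

theorem aux (hM4 : H1.S_M4) (hSt : St G K T v) (s1 : ∀ t ∈ T, v t ∉ K)
    (s4 : ∀ s ∈ T, ∀ s' ∈ T, s ≠ s' → ¬ G.Adj (v s) (v s')) {C : Set V} (hC : C ⊆ Kᶜ) {f f' : V}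
    (hf : f ∈ T) (hf' : f' ∈ T) (hne : f ≠ f') {t t' : V} (ht : t ∈ kP G K T v f)
    (ht' : t' ∈ kP G K T v f') (hCt : ∀ c ∈ C, ¬ G.Adj c t) (hCt' : ∀ c ∈ C, ¬ G.Adj c t')
    (hCf : ∀ c ∈ C, G.Adj c f) (ho : Out G C (v f)) (ho' : Out G C (v f')) {u : V} (hu : u ∈ C) :
    False := by
  refine s4 f hf f' hf' hne ?_
  refine hM4 V G K f f t' t u (v f) (v f') hSt.cls hSt.kc (hSt.tk hf) (hSt.tk hf) ht'.1 ht.1
    (hC hu) (s1 f hf) (s1 f' hf') ?_ (hCf u hu) (hCt' u hu) (hCt u hu) (ht'.2.2 f hf hne)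
    (wt_self hSt hf) (wt_self hSt hf) ht.2.1 (wt_ne hSt hf hf' hne) (ht.2.2 f' hf' hne.symm)
    ht'.2.1 (ho.2 u hu) (ho'.2 u hu)
  rintro rfl
  exact hCt u hu (hCf u hu)

end S4x

open S4x in
theorem pfS4 : H1.S_M4 → S_S0 → S_S2 → S_S4 := by
  intro hM4 hS0 hS2 V _ G K T v hSt C f hf f' hf' h h'
  by_contra hne
  obtain ⟨s1, -, s3, s4, s5⟩ := hS0 V G K T v hSt
  obtain ⟨hCn, t, ht, c₁, hc₁, hc₁t⟩ := h
  obtain ⟨-, t', ht', c₂, hc₂, hc₂t'⟩ := h'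
  have hvf : v f ∉ C := by
    intro hin
    have h1 : v f' ∉ C := fun h2 => hne (hSt.sep C hCn.1 f hf f' hf' hin h2)
    exact hc₂t' (hS2 V G K T v hSt C hCn f' hf' h1 t' ht' ⟨v f, hin, ht'.2.2 f hf hne⟩ c₂ hc₂)
  have hvf' : v f' ∉ C := by
    intro hin
    exact hc₁t (hS2 V G K T v hSt C hCn f hf hvf t ht ⟨v f', hin, ht.2.2 f' hf' (Ne.symm hne)⟩
      c₁ hc₁)
  have hCt : ∀ c ∈ C, ¬ G.Adj c t := fun c hc h1 =>
    hc₁t (hS2 V G K T v hSt C hCn f hf hvf t ht ⟨c, hc, h1⟩ c₁ hc₁)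
  have hCt' : ∀ c ∈ C, ¬ G.Adj c t' := fun c hc h1 =>
    hc₂t' (hS2 V G K T v hSt C hCn f' hf' hvf' t' ht' ⟨c, hc, h1⟩ c₂ hc₂)
  obtain ⟨g, hg, hgC⟩ := s5 C hCn
  have key : ∀ e ∈ T, g ≠ e → ∀ c ∈ C, G.Adj c e := by
    intro e he hge c hc
    by_contra hn
    have h1 : e ∈ Ms G T c := ⟨he, hn⟩
    rcases hgC c hc with h2 | h2
    · rw [h2] at h1
      exact h1
    · rw [h2] at h1
      exact hge h1.symm
  have hoC := s3 C hCn.1 f hf hvf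
  have hoC' := s3 C hCn.1 f' hf' hvf'
  by_cases hgf : g = f
  · exact aux hM4 hSt s1 s4 hCn.1.1 hf' hf (Ne.symm hne) ht' ht hCt' hCt
      (key f' hf' (by rw [hgf]; exact hne)) hoC' hoC hc₁
  · exact aux hM4 hSt s1 s4 hCn.1.1 hf hf' hne ht ht' hCt hCt' (key f hf hgf) hoC hoC' hc₁

end Pool.Agent.MPd439b2.H1M
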