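import Pool.Agent.Lib.MP_d439b2_co.H1M.Spec

/-!
# MP_d439b2_co, H1M: S5, touched but not complete (helper53)
-/

set_option autoImplicit false

namespace Pool.Agent.MPd439b2.H1M

open Pool.Agent.MPd439b2 Pool.Agent.MPd439b2.LK Pool.Agent.MPd439b2.H1

private theorem s5sub {V : Type} {G : SimpleGraph V} {X D C : Set V} (h : IsComp G X D)
    (hC : Conn G C) (hCX : C ⊆ X) (hne : (C ∩ D).Nonempty) : C ⊆ D := by
  have h1 : C ∩ D = C := hC.eq_of_nb Set.inter_subset_left hne (by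
    rintro v hv ⟨hv1, a, ha, hav⟩
    apply hv1
    refine ⟨hv, ?_⟩
    by_contra hvD
    exact h.2.2 v (hCX hv) ⟨hvD, a, ha.2, hav⟩)
  rw [← h1]
  exact Set.inter_subset_right

/-- **S5.** Touched but not complete. -/
theorem pfS5 (hP : S_P1) (hS0 : S_S0) (hS1 : S_S1c) : S_S5 := by
  intro V _ G K T v h C C' hC hC' hne q hq ht hnot u hu
  by_contra hcon
  obtain ⟨_, h2, h3, _, _⟩ := hS0 V G K T v h
  obtain ⟨g, hg, _, hgC, hgC', hcg, hcg'⟩ := hS1 V G K T v h C C' hC hC' q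
  have hwt := h.wt g hg
  have hvg : ¬ G.Adj (v g) g := by
    intro hh
    have : g ∈ Ms G T (v g) := by rw [hwt.2]; rfl
    exact this.2 hh
  have hvq : G.Adj (v g) q := hq.2 g hg
  have hqg : q ≠ g := by
    intro hh
    rw [hh] at hvq
    exact hvg hvq
  have hgK : g ∈ K := h.tk hg
  have huC : u ∉ C := by
    intro huC
    apply hne
    exact Set.Subset.antisymm (s5sub hC'.1 hC.1.2.1 hC.1.1 ⟨u, huC, hu⟩)
      (s5sub hC.1 hC'.1.2.1 hC'.1.1 ⟨u, hu, huC⟩)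
  have hOu : Out G C u := h2 C hC.1 u (hC'.1.1 hu) huC
  have hOg : Out G C (v g) := h3 C hC.1 g hg hgC
  have hOg' : Out G C' (v g) := h3 C' hC'.1 g hg hgC'
  have hadj : G.Adj q g := h.kc q hq.1 g hgK hqg
  obtain ⟨c₁, hc₁, hc₁q⟩ := ht
  obtain ⟨c₂, hc₂, hc₂q⟩ := hnot
  have := hP V G C q g (v g) u h.cls hC.1.2.1 (fun hh => hC.1.1 hh hq.1) (fun hh => hC.1.1 hh hgK)
    hOg hOu hadj (fun hh => hOg'.2 u hu hh.symm) hvq hvg (hcg' u hu) hcon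
    ⟨c₁, hc₁, hc₁q⟩ ⟨c₁, hc₁, hcg c₁ hc₁⟩ c₂ hc₂
  exact hc₂q (this.2 (hcg c₂ hc₂))

end Pool.Agent.MPd439b2.H1M
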