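import Pool.Agent.Lib.MP_d439b2_co.H1M.Spec

/-!
# MP_d439b2_co, H1M: S6, components of index `e` without the witness of `e` (helper50)
-/

set_option autoImplicit false

namespace Pool.Agent.MPd439b2.H1M

open Pool.Agent.MPd439b2 Pool.Agent.MPd439b2.LK Pool.Agent.MPd439b2.H1

/-- **S6.** Components of index `e` without the witness of `e`. -/
theorem pfS6 (hM4 : H1.S_M4) (h0 : S_S0) (h1c : S_S1c) (h2 : S_S2) : S_S6 := by
  intro V _ G K T v hS C hC e he hveC t ht htn
  have hmiss : ∀ c ∈ C, ¬ G.Adj c t := by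
    intro c hc hct
    obtain ⟨c', hc', hc't⟩ := htn
    exact hc't (h2 V G K T v hS C hC e he hveC t ht ⟨c, hc, hct⟩ c' hc')
  refine ⟨hmiss, ?_⟩
  intro r hr c hc hcr
  obtain ⟨hK, hOutw, hOut, hpw, -⟩ := h0 V G K T v hS
  obtain ⟨g, hg, hge, hvgC, -, hCg, -⟩ := h1c V G K T v hS C C hC hC e
  have hgK : g ∈ K := hS.tk hg
  have hwg := hS.wt g hg
  have hvgg : ¬ G.Adj (v g) g := by
    intro h
    have : g ∈ Ms G T (v g) := by rw [hwg.2]; rfl
    exact this.2 h
  have hveg : G.Adj (v e) g := by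
    by_contra h
    have : g ∈ Ms G T (v e) := ⟨hg, h⟩
    rw [(hS.wt e he).2] at this
    exact hge this
  have hcK : c ∉ K := hC.1.1 hc
  have hOe := hOut C hC.1 e he hveC
  have hOg := hOut C hC.1 g hg hvgC
  have hrg : r ≠ g := by
    intro h
    rw [h] at hr
    exact hr.2 e he hveg
  have hfin := hM4 V G K g g t r (v e) (v g) c hS.cls hS.kc hgK hgK ht.1 hr.1 (hK e he) (hK g hg)
    hcK hrg hveg ht.2.1 (hr.2 e he) (ht.2.2 g hg hge) hvgg hvgg (hr.2 g hg) (hCg c hc) hcr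
    (hmiss c hc) (hpw e he g hg hge.symm) (fun h => hOe.2 c hc h.symm)
  exact hOg.2 c hc hfin.symm

end Pool.Agent.MPd439b2.H1M
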