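import Pool.Agent.Lib.MP_d439b2_co.H1M.Spec

/-!
# MP_d439b2_co, type (M): different indices (S7)
-/

set_option autoImplicit false

namespace Pool.Agent.MPd439b2.H1M

open Pool.Agent.MPd439b2 Pool.Agent.MPd439b2.LK Pool.Agent.MPd439b2.H1

namespace S7x

variable {V : Type} {G : SimpleGraph V} {K T : Set V} {v : V → V}

theorem wt_self (hSt : St G K T v) {e : V} (he : e ∈ T) : ¬ G.Adj (v e) e := by
  have h := (hSt.wt e he).2
  have h1 : e ∈ Ms G T (v e) := by rw [h]; rfl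
  exact h1.2

theorem wt_ne (hSt : St G K T v) {e s : V} (he : e ∈ T) (hs : s ∈ T) (h : e ≠ s) :
    G.Adj (v s) e := by
  by_contra hn
  have h1 : e ∈ Ms G T (v s) := ⟨he, hn⟩
  rw [(hSt.wt s hs).2] at h1
  exact h h1

end S7x

open S7x in
theorem pfS7 : H1.S_M4 → S_S0 → S_S4 → S_S5 → S_S6 → S_S7 := by
  intro hM4 hS0 hS4 hS5 hS6 V _ G K T v hSt C C' e he f hf hef h h' q hq hCq u' hu'
  by_contra hu'q
  obtain ⟨s1, s2, s3, s4, -⟩ := hS0 V G K T v hSt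
  have hCC : C ≠ C' := by
    rintro rfl
    exact hef (hS4 V G K T v hSt C e he f hf h h')
  have hCn := h.1
  have hCn' := h'.1
  have hmq : ∀ c ∈ C, ¬ G.Adj c q := fun c hc h1 =>
    hu'q (hS5 V G K T v hSt C C' hCn hCn' hCC q hq ⟨c, hc, h1⟩ hCq u' hu')
  have hmq' : ∀ c ∈ C', ¬ G.Adj c q := by
    intro c hc h1
    obtain ⟨c₁, hc₁, h2⟩ := hCq
    exact h2 (hS5 V G K T v hSt C' C hCn' hCn (Ne.symm hCC) q hq ⟨c, hc, h1⟩ ⟨u', hu', hu'q⟩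
      c₁ hc₁)
  have hveq : G.Adj (v e) q := hq.2 e he
  have hvfq : G.Adj (v f) q := hq.2 f hf
  have hve : v e ∉ C := fun h1 => hmq _ h1 hveq
  have hvf : v f ∉ C' := fun h1 => hmq' _ h1 hvfq
  obtain ⟨-, t, ht, hCt⟩ := id h
  obtain ⟨-, t', ht', hCt'⟩ := id h'
  have hmt := (hS6 V G K T v hSt C hCn e he hve t ht hCt).1
  have hmt' := (hS6 V G K T v hSt C' hCn' f hf hvf t' ht' hCt').1
  have hcf : ∀ s ∈ kP G K T v f, ∀ c ∈ C, G.Adj c s := by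
    intro s hs c hc
    by_contra hn
    exact hef (hS4 V G K T v hSt C e he f hf h ⟨hCn, s, hs, c, hc, hn⟩)
  have hce : ∀ s ∈ kP G K T v e, ∀ c ∈ C', G.Adj c s := by
    intro s hs c hc
    by_contra hn
    exact hef (hS4 V G K T v hSt C' e he f hf ⟨hCn', s, hs, c, hc, hn⟩ h')
  have hee : e ∈ kP G K T v e :=
    ⟨hSt.tk he, wt_self hSt he, fun s hs hse => wt_ne hSt he hs (Ne.symm hse)⟩
  have hve' : v e ∉ C' := fun h1 => wt_self hSt he (hce e hee _ h1)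
  have hu'C : u' ∉ C := fun h1 => hmt u' h1 (hce t ht u' hu')
  obtain ⟨u, hu⟩ := hCn.1.2.1.1
  have huK : u ∉ K := hCn.1.1 hu
  have hu'K : u' ∉ K := hCn'.1.1 hu'
  have ho := s3 C hCn.1 e he hve
  have ho' := s3 C' hCn'.1 e he hve'
  refine ho'.2 u' hu' ?_
  refine hM4 V G K t' t' t q u u' (v e) hSt.cls hSt.kc ht'.1 ht'.1 ht.1 hq.1 huK hu'K (s1 e he)
    ?_ (hcf t' ht' u hu) (hmt u hu) (hmq u hu) (hce t ht u' hu') (hmt' u' hu') (hmt' u' hu')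
    (hmq' u' hu') (ht'.2.2 e he hef) hveq ht.2.1 ((s2 C hCn.1 u' hu'K hu'C).2 u hu) (ho.2 u hu)
  rintro rfl
  exact ht'.2.1 hvfq

end Pool.Agent.MPd439b2.H1M
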