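import Pool.Agent.Lib.MP_d439b2_co.H1M.Spec

/-!
# MP_d439b2_co, pair `(C_4, K3:0,1,02)`, type (M): S8b, the structure
-/

set_option autoImplicit false

namespace Pool.Agent.MPd439b2.H1M

open Pool.Agent.MPd439b2 Pool.Agent.MPd439b2.LK Pool.Agent.MPd439b2.H1

/-- **S8b.** -/
theorem pfS8b : S_S4 → S_S5 → S_S7 → S_S8 → S_S8b := by
  intro hS4 hS5 hS7 hS8 V _ G K T v hS
  have h1 : ∀ C, ∀ e ∈ T, ∀ f ∈ T, I2 G K T v C e → ∀ q ∈ Ze G K T v f,
      (∃ c ∈ C, ¬ G.Adj c q) → e = f := by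
    rintro C e he f hf ⟨hNt, q₁, ⟨hq₁, Ce, hCe, hCe'⟩, hCq₁⟩ q ⟨hq, Cf, hCf, hCf'⟩ hCq
    obtain ⟨_, h2, _, _⟩ := hS8 V G K T v hS Ce C e he hCe hNt q₁ hq₁ hCe' hCq₁
    obtain ⟨_, _, h3, _⟩ := hS8 V G K T v hS Cf C f hf hCf hNt q hq hCf' hCq
    have h4 := h3 q₁ hq₁.1 h2
    by_contra hne
    have h5 := hS7 V G K T v hS Ce Cf e he f hf hne hCe hCf q₁ hq₁ hCe'
    obtain ⟨c, hc⟩ := hCf.1.1.2.1.1
    exact h4 c hc (h5 c hc)
  refine ⟨h1, ?_, ?_, ?_⟩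
  · intro C e he hIx k hk hkD hkP hkZq c hc
    by_contra hck
    rcases hS.hom k hk with h | h | ⟨f, hf, h⟩
    · exact hkD h
    · exact hkZq (Or.inl ⟨h, C, hIx, c, hc, hck⟩)
    · have h2 : Ix G K T v C f := ⟨hIx.1, k, h, c, hc, hck⟩
      have h3 := hS4 V G K T v hS C e he f hf hIx h2
      subst h3
      exact hkP h
  · intro C e he hI2 k hk hkD hkZq c hc
    by_contra hck
    rcases hS.hom k hk with h | h | ⟨f, hf, h⟩
    · exact hkD h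
    · by_cases hex : ∃ f ∈ T, k ∈ Ze G K T v f
      · obtain ⟨f, hf, hkf⟩ := hex
        have h3 := h1 C e he f hf hI2 k hkf ⟨c, hc, hck⟩
        subst h3
        exact hkZq (Or.inl hkf)
      · push Not at hex
        exact hkZq (Or.inr ⟨h, hex, C, hI2, c, hc, hck⟩)
    · exact hck (hI2.1.2 f hf k h c hc)
  · intro C hCn e he hnIx hnI2 k hk c hc
    by_contra hck
    rcases hk with hk | hk | hk
    · exact hnIx ⟨hCn, k, hk, c, hc, hck⟩
    · obtain ⟨hkZ, Ce, hCe, hCe'⟩ := hk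
      by_cases hex : ∃ f ∈ T, Ix G K T v C f
      · obtain ⟨f, hf, hIf⟩ := hex
        have hne : e ≠ f := by
          rintro rfl
          exact hnIx hIf
        exact hck (hS7 V G K T v hS Ce C e he f hf hne hCe hIf k hkZ hCe' c hc)
      · apply hnI2
        refine ⟨⟨hCn, ?_⟩, k, ⟨hkZ, Ce, hCe, hCe'⟩, c, hc, hck⟩
        intro f hf t ht c' hc'
        by_contra h
        exact hex ⟨f, hf, hCn, t, ht, c', hc', h⟩
    · obtain ⟨hkZ, hknZ, C₂, hC₂, hC₂'⟩ := hk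
      have hne : C₂ ≠ C := by
        rintro rfl
        exact hnI2 hC₂
      have htouch : ∃ c ∈ C₂, G.Adj c k := by
        by_contra hcon
        push Not at hcon
        obtain ⟨hNt, q₁, ⟨hq₁, Ce, hCe, hCe'⟩, hCq₁⟩ := hC₂
        obtain ⟨_, _, h3, _⟩ := hS8 V G K T v hS Ce C₂ e he hCe hNt q₁ hq₁ hCe' hCq₁
        have h4 := h3 k hkZ.1 hcon
        obtain ⟨c', hc'⟩ := hCe.1.1.2.1.1
        exact hknZ e he ⟨hkZ, Ce, hCe, c', hc', h4 c' hc'⟩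
      exact hck (hS5 V G K T v hS C₂ C hC₂.1.1 hCn hne k hkZ htouch hC₂' c hc)

end Pool.Agent.MPd439b2.H1M
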