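import Pool.Agent.Lib.MP_d439b2_co.H1M.Spec

/-!
# MP_d439b2_co, pair `(C_4, K3:0,1,02)`, type (M), S9: type 0 and `Zq`
-/

set_option autoImplicit false

namespace Pool.Agent.MPd439b2.H1M

open Pool.Agent.MPd439b2 Pool.Agent.MPd439b2.LK Pool.Agent.MPd439b2.H1

private theorem s9_sub {V : Type} {G : SimpleGraph V} {X C D : Set V} (hC : IsComp G X C)
    (hD : IsComp G X D) {x : V} (hxC : x ∈ C) (hxD : x ∈ D) : C ⊆ D := by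
  have h : C ∩ D = C := by
    apply hC.2.1.eq_of_nb Set.inter_subset_left ⟨x, hxC, hxD⟩
    rintro u huC ⟨hu1, a, ha, hau⟩
    by_cases huD : u ∈ D
    · exact hu1 ⟨huC, huD⟩
    · exact hD.2.2 u (hC.1 huC) ⟨huD, a, ha.2, hau⟩
  rw [← h]
  exact Set.inter_subset_right

theorem pfS9 (h4 : H1.S_M4) (h0 : S_S0) (h8 : S_S8) (h9 : S_S9a) : S_S9 := by
  intro V _ G K T v hs
  obtain ⟨s1, s2, s3, s4, s5⟩ := h0 V G K T v hs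
  have hw1 : ∀ s ∈ T, ∀ t ∈ T, s ≠ t → G.Adj (v s) t := by
    intro s hs' t ht hst
    by_contra hn
    have h1 : t ∈ Ms G T (v s) := ⟨ht, hn⟩
    rw [(hs.wt s hs').2] at h1
    exact hst h1.symm
  have hw2 : ∀ s ∈ T, ¬ G.Adj (v s) s := by
    intro s hs'
    have h1 : s ∈ Ms G T (v s) := by
      rw [(hs.wt s hs').2]
      rfl
    exact h1.2
  have hself : ∀ s ∈ T, s ∈ kP G K T v s := fun s hs' =>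
    ⟨hs.tk hs', hw2 s hs', fun r hr hrs => hw1 r hr s hs' hrs⟩
  have hMs : ∀ C₀, T0 G T C₀ → ∀ c ∈ C₀, ∀ t ∈ T, ¬ G.Adj c t := by
    intro C₀ hT0 c hc t ht
    have h : t ∈ Ms G T c := by
      rw [hT0 c hc]
      exact ht
    exact h.2
  have hvC : ∀ C₀, T0 G T C₀ → ∀ t ∈ T, v t ∉ C₀ := by
    intro C₀ hT0 t ht hvt
    have h1 := hT0 (v t) hvt
    rw [(hs.wt t ht).2] at h1
    have h2 := hs.big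
    rw [← h1, Set.ncard_singleton] at h2
    omega
  -- bad elements
  have huniq : ∀ e ∈ T, ∀ f ∈ T,
      (∃ C₀, IsComp G Kᶜ C₀ ∧ T0 G T C₀ ∧ ∃ q ∈ Ze G K T v e, ∃ c ∈ C₀, G.Adj c q) →
      (∃ C₀, IsComp G Kᶜ C₀ ∧ T0 G T C₀ ∧ ∃ q ∈ Ze G K T v f, ∃ c ∈ C₀, G.Adj c q) → e = f := by
    rintro e he f hf ⟨C₀, hC₀, hT0, q, ⟨hqZ, C, hIx, hCq⟩, hc₀⟩ ⟨C₁, hC₁, hT1, q', ⟨hqZ', C', hIx', hCq'⟩, hc₁⟩
    by_contra hef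
    have g1 := h9 V G K T v hs C₀ C hC₀ hT0 e he hIx q hqZ hCq hc₀
    have g2 := h9 V G K T v hs C₁ C' hC₁ hT1 f hf hIx' q' hqZ' hCq' hc₁
    obtain ⟨c, hc, hcf⟩ := g2.2.1
    exact g1.2.2 f hf (fun h => hef h.symm) C' hIx'.1.1 g2.1 c hc hcf
  obtain ⟨t₀, ht₀⟩ : T.Nonempty := by
    rw [← Set.ncard_pos (Set.toFinite T)]
    exact lt_of_lt_of_le (by norm_num) hs.big
  obtain ⟨b, hb⟩ : ∃ b, ∀ e ∈ T, e ≠ b →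
      ¬ ∃ C₀, IsComp G Kᶜ C₀ ∧ T0 G T C₀ ∧ ∃ q ∈ Ze G K T v e, ∃ c ∈ C₀, G.Adj c q := by
    by_cases hex : ∃ b ∈ T, ∃ C₀, IsComp G Kᶜ C₀ ∧ T0 G T C₀ ∧ ∃ q ∈ Ze G K T v b,
        ∃ c ∈ C₀, G.Adj c q
    · obtain ⟨b, hbT, hbad⟩ := hex
      exact ⟨b, fun e he heb hbe => heb (huniq e he b hbT hbe hbad)⟩
    · exact ⟨t₀, fun e he _ hbe => hex ⟨e, he, hbe⟩⟩
  refine ⟨b, fun e he heb C₀ hC₀ hT0 q hq c₀ hc₀ hadj => ?_⟩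
  have hnb := hb e he heb
  rcases hq with hq | ⟨hqZ, -, C'', hI2, c, hc, hcq⟩
  · exact hnb ⟨C₀, hC₀, hT0, q, hq, c₀, hc₀, hadj⟩
  obtain ⟨hNt, z, hzZe, hCz⟩ := hI2
  obtain ⟨hzZ, Ce, hIx, hCez⟩ := hzZe
  have g8 := h8 V G K T v hs Ce C'' e he hIx hNt z hzZ hCez hCz
  have hcz : ¬ G.Adj c z := g8.2.1 c hc
  have hc₀z : ¬ G.Adj c₀ z := fun h =>
    hnb ⟨C₀, hC₀, hT0, z, ⟨hzZ, Ce, hIx, hCez⟩, c₀, hc₀, h⟩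
  have hC''c : IsComp G Kᶜ C'' := hNt.1.1
  have hvC'' : v t₀ ∉ C'' := fun h => hw2 t₀ ht₀ (hNt.2 t₀ ht₀ t₀ (hself t₀ ht₀) (v t₀) h)
  have hne : c₀ ∉ C'' := by
    intro h
    apply hNt.1.2
    have hsub : C'' ⊆ C₀ := s9_sub hC''c hC₀ h hc₀
    intro u hu
    exact hT0 u (hsub hu)
  have hc₀K : c₀ ∉ K := hC₀.1 hc₀
  have hcK : c ∉ K := hC''c.1 hc
  have hout : Out G C'' c₀ := s2 C'' hC''c c₀ hc₀K hne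
  exact (s3 C'' hC''c t₀ ht₀ hvC'').2 c hc (h4 V G K q q t₀ z c₀ c (v t₀) hs.cls hs.kc hqZ.1 hqZ.1
    (hs.tk ht₀) hzZ.1 hc₀K hcK (s1 t₀ ht₀) (fun h => hc₀z (h ▸ hadj)) hadj (hMs C₀ hT0 c₀ hc₀ t₀ ht₀)
    hc₀z (hNt.2 t₀ ht₀ t₀ (hself t₀ ht₀) c hc) hcq hcq hcz (hqZ.2 t₀ ht₀) (hzZ.2 t₀ ht₀) (hw2 t₀ ht₀)
    (fun h => hout.2 c hc h.symm) ((s3 C₀ hC₀ t₀ ht₀ (hvC C₀ hT0 t₀ ht₀)).2 c₀ hc₀))

end Pool.Agent.MPd439b2.H1M
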