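import Pool.Agent.Lib.MP_d439b2_co.H1M.Spec

/-!
# MP_d439b2_co, pair `(C_4, K3:0,1,02)`, type (M): S9a, type 0 and `Ze`
-/

set_option autoImplicit false

namespace Pool.Agent.MPd439b2.H1M

open Pool.Agent.MPd439b2 Pool.Agent.MPd439b2.LK Pool.Agent.MPd439b2.H1

namespace S9aAux

variable {V : Type} {G : SimpleGraph V}

theorem comp_eq {X C C' : Set V} (hC : IsComp G X C) (hC' : IsComp G X C') {w : V} (h1 : w ∈ C)
    (h2 : w ∈ C') : C = C' := by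
  have e1 : C ∩ C' = C := by
    apply hC.2.1.eq_of_nb Set.inter_subset_left ⟨w, h1, h2⟩
    rintro u hu ⟨hu1, a, ha, hau⟩
    exact hC'.2.2 u (hC.1 hu) ⟨fun h => hu1 ⟨hu, h⟩, a, ha.2, hau⟩
  have e2 : C ∩ C' = C' := by
    apply hC'.2.1.eq_of_nb Set.inter_subset_right ⟨w, h1, h2⟩
    rintro u hu ⟨hu1, a, ha, hau⟩
    exact hC.2.2 u (hC'.1 hu) ⟨fun h => hu1 ⟨h, hu⟩, a, ha.1, hau⟩
  rw [← e1, e2]

theorem wt_not {T : Set V} {v : V → V} (hw : Wt G T v) {t : V} (ht : t ∈ T) : ¬ G.Adj (v t) t := by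
  have h : t ∈ Ms G T (v t) := by rw [(hw t ht).2]; rfl
  exact h.2

theorem wt_adj {T : Set V} {v : V → V} (hw : Wt G T v) {t s : V} (ht : t ∈ T) (hs : s ∈ T)
    (hne : s ≠ t) : G.Adj (v s) t := by
  by_contra h
  have h1 : t ∈ Ms G T (v s) := ⟨ht, h⟩
  rw [(hw s hs).2] at h1
  exact hne h1.symm

theorem mem_kP {K T : Set V} {v : V → V} (hS : St G K T v) {e : V} (he : e ∈ T) :
    e ∈ kP G K T v e :=
  ⟨hS.tk he, wt_not hS.wt he, fun _ hs hne => wt_adj hS.wt he hs hne⟩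

end S9aAux

open S9aAux in
/-- **S9a.** -/
theorem pfS9a : H1.S_M1 → H1.S_M4 → S_S0 → S_S1c → S_S3 → S_S4 → S_S6 → S_S7 → S_S9a := by
  intro hM1 hM4 hS0 hS1c hS3 hS4 hS6 hS7 V _ G K T v hS C₀ C hC₀ hT0 e he hIx q hq hCq hC₀q
  obtain ⟨h01, h02, h03, h04, _⟩ := hS0 V G K T v hS
  have hIx' := hIx
  obtain ⟨hCn, t₀, ht₀, ct, hct, hct'⟩ := hIx'
  have hcCq := hCq
  obtain ⟨c, hc, hcq⟩ := hcCq
  obtain ⟨c₀, hc₀, hc₀q⟩ := hC₀q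
  have hne : C₀ ≠ C := by
    rintro rfl
    exact hCn.2 hT0
  have hmiss : ∀ u ∈ C₀, ∀ g ∈ T, ¬ G.Adj u g := by
    intro u hu g hg
    have h : g ∈ Ms G T u := by rw [hT0 u hu]; exact hg
    exact h.2
  have hnow : ∀ g ∈ T, v g ∉ C₀ := by
    intro g hg h
    have h1 : T = {g} := by rw [← (hS.wt g hg).2, hT0 _ h]
    have h2 := hS.big
    rw [h1, Set.ncard_singleton] at h2
    omega
  have hdisj : ∀ D D', IsComp G Kᶜ D → IsComp G Kᶜ D' → D ≠ D' → ∀ a ∈ D, ∀ b ∈ D',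
      ¬ G.Adj a b := by
    intro D D' hD hD' hDD a ha b hb
    have hb1 : b ∉ D := fun h => hDD (comp_eq hD hD' h hb)
    exact (h02 D hD b (hD'.1 hb) hb1).2 a ha
  -- (i)
  have hi : ∀ t ∈ kP G K T v e, G.Adj c t := by
    intro t ht
    by_contra hct2
    obtain ⟨g, hg, hge, hgC, _, hfC, _⟩ := hS1c V G K T v hS C C hCn hCn e
    have htq : t ≠ q := by
      rintro rfl
      exact ht.2.1 (hq.2 e he)
    have htZ : t ∉ kZ G K T v := fun h => ht.2.1 (h.2 e he)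
    have h2 := hM4 V G K q q g t c₀ c (v g) hS.cls hS.kc hq.1 hq.1 (hS.tk hg) ht.1 (hC₀.1 hc₀)
      (hCn.1.1 hc) (h01 g hg) htq hc₀q (hmiss c₀ hc₀ g hg)
      (hS3 V G K T v hS C₀ hC₀ hT0 t ht.1 htZ c₀ hc₀) (hfC c hc) hcq hcq hct2 (hq.2 g hg)
      (ht.2.2 g hg hge) (wt_not hS.wt hg) (hdisj C₀ C hC₀ hCn.1 hne c₀ hc₀ c hc)
      ((h03 C₀ hC₀ g hg (hnow g hg)).2 c₀ hc₀)
    exact (h03 C hCn.1 g hg hgC).2 c hc h2
  -- (ii)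
  have hii : v e ∈ C := by
    by_contra hveC
    obtain ⟨h1, _⟩ := hS6 V G K T v hS C hCn e he hveC t₀ ht₀ ⟨ct, hct, hct'⟩
    exact h1 c hc (hi t₀ ht₀)
  refine ⟨hii, ⟨c, hc, hi e (mem_kP hS he)⟩, ?_⟩
  intro f hf hfe Cf hCf hvf u hu huf
  -- the edge `w u'`
  obtain ⟨w, ⟨hw, hwf⟩, u', ⟨hu', hu'B⟩, hwu'⟩ := hCf.2.1.2 {x | x ∈ Cf ∧ ¬ G.Adj x f}
    (fun x hx => hx.1) ⟨v f, hvf, wt_not hS.wt hf⟩ (fun h => by
      have h1 : u ∈ {x | x ∈ Cf ∧ ¬ G.Adj x f} := by rw [h]; exact hu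
      exact h1.2 huf)
  have hu'f : G.Adj u' f := by
    by_contra h
    exact hu'B ⟨hu', h⟩
  have hCnf : Cn G K T Cf := by
    refine ⟨hCf, fun h => ?_⟩
    have h1 : T = {f} := by rw [← (hS.wt f hf).2, h _ hvf]
    have h2 := hS.big
    rw [h1, Set.ncard_singleton] at h2
    omega
  have hIxf : Ix G K T v Cf f := ⟨hCnf, f, mem_kP hS hf, v f, hvf, wt_not hS.wt hf⟩
  have hCfq := hS7 V G K T v hS C Cf e he f hf (Ne.symm hfe) hIx hIxf q hq hCq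
  have hne1 : C ≠ Cf := by
    rintro rfl
    exact hfe (hS.sep C hCf f hf e he hvf hii)
  have hne2 : C₀ ≠ Cf := by
    rintro rfl
    exact hnow f hf hvf
  have hcf : G.Adj c f := by
    by_contra h
    have h1 : Ix G K T v C f := ⟨hCn, f, mem_kP hS hf, c, hc, h⟩
    exact hfe (hS4 V G K T v hS C f hf e he h1 hIx)
  have hfq : f ≠ q := by
    rintro rfl
    exact wt_not hS.wt hf (hq.2 f hf)
  have hnK : ∀ x, x ∈ Kᶜ → x ≠ q := by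
    rintro x hx rfl
    exact hx hq.1
  apply hS.cls.2
  exact hM1 V G q q f u' c₀ c w (Or.inl rfl) (Or.inl (hS.kc f (hS.tk hf) q hq.1 hfq))
    (Or.inl (hCfq u' hu')) hu'f.symm (hnK u' (hCf.1 hu')) (hnK u' (hCf.1 hu'))
    (hnK c₀ (hC₀.1 hc₀)) (hnK c₀ (hC₀.1 hc₀)) (hnK w (hCf.1 hw)) (hnK w (hCf.1 hw))
    (Or.inl hc₀q) (hmiss c₀ hc₀ f hf) (hdisj C₀ Cf hC₀ hCf hne2 c₀ hc₀ u' hu') hcf hcq hcq
    (hdisj C Cf hCn.1 hCf hne1 c hc u' hu') (Or.inl (hCfq w hw)) hwu' hwf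
    (hdisj C₀ C hC₀ hCn.1 hne c₀ hc₀ c hc) (hdisj C₀ Cf hC₀ hCf hne2 c₀ hc₀ w hw)
    (hdisj C Cf hCn.1 hCf hne1 c hc w hw)

end Pool.Agent.MPd439b2.H1M
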