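import Pool.Agent.Lib.MP_d439b2_co.H1M.Spec

/-!
# MP_d439b2_co, pair `(C_4, K3:0,1,02)`, type (M): the next clique (`S_SN1`)
-/

set_option autoImplicit false

namespace Pool.Agent.MPd439b2.H1M

open Pool.Agent.MPd439b2 Pool.Agent.MPd439b2.LK Pool.Agent.MPd439b2.H1

theorem pfSN1 (hA7 : S_A7) : S_SN1 := by
  intro V _ G K T Φ v s s' hch hK hTK hW hΦ hs hs' hss hvs hvs'
  have hmiss : ∀ t ∈ T, ¬ G.Adj (v t) t := by
    intro t ht
    have : t ∈ Ms G T (v t) := by rw [(hW t ht).2]; rfl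
    exact this.2
  have hsee : ∀ t ∈ T, ∀ t' ∈ T, t' ≠ t → G.Adj (v t) t' := by
    intro t ht t' ht' hne
    by_contra h
    have : t' ∈ Ms G T (v t) := ⟨ht', h⟩
    rw [(hW t ht).2] at this
    exact hne this
  have hTnb : T ⊆ nb G Φ := by
    intro t ht
    refine ⟨fun h => hΦ.1 h (hTK ht), ?_⟩
    by_cases h : t = s
    · exact ⟨v s', hvs', hsee s' hs' t ht (fun h' => hss (h.symm.trans h'))⟩
    · exact ⟨v s, hvs, hsee s hs t ht h⟩
  have hnbK : nb G Φ ⊆ K := by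
    intro u hu
    by_contra h
    exact hΦ.2.2 u h hu
  have hnbc : CompleteOn G (nb G Φ) := fun a ha b hb hab => hK a (hnbK ha) b (hnbK hb) hab
  obtain ⟨x, hx, hxa⟩ := hA7 V G (nb G Φ) Φ hch hΦ.2.1 hnbc
    (Set.disjoint_left.2 fun a ha ha' => ha.1 ha') fun a ha => ha
  have hK' : CompleteOn G (insert x (nb G Φ)) := by
    rintro a (rfl | ha) b (rfl | hb) hab
    · exact absurd rfl hab
    · exact hxa b hb
    · exact (hxa a ha).symm
    · exact hnbc a ha b hb hab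
  refine ⟨insert x (nb G Φ), hK', hTnb.trans (Set.subset_insert _ _), ?_, ?_⟩
  · intro t ht h
    exact hmiss t ht (hK' _ h _ (Set.mem_insert_of_mem _ (hTnb ht)) fun h' =>
      (hW t ht).1 (by rw [h']; exact ht))
  · intro C hC hCΦ
    have h1 : C ∩ Φ = C := by
      refine hC.2.1.eq_of_nb Set.inter_subset_left hCΦ ?_
      rintro w hw ⟨hw1, a, ha, haw⟩
      have hwΦ : w ∉ Φ := fun h => hw1 ⟨hw, h⟩
      exact hC.1 hw (Set.mem_insert_of_mem _ ⟨hwΦ, a, ha.2, haw⟩)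
    have h2 : C ⊆ Φ := by
      rw [← h1]
      exact Set.inter_subset_right
    exact ⟨h2, fun h => hC.1 (h hx) (Set.mem_insert _ _)⟩

end Pool.Agent.MPd439b2.H1M
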