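import Pool.Agent.Lib.MP_d439b2_co.H1M.Spec

/-!
# MP_d439b2_co, pair `(C_4, K3:0,1,02)`, type (M): pigeonhole for components (`S_SN2`)
-/

set_option autoImplicit false

namespace Pool.Agent.MPd439b2.H1M

open Pool.Agent.MPd439b2 Pool.Agent.MPd439b2.LK Pool.Agent.MPd439b2.H1

namespace SN2Aux

variable {V : Type} {G : SimpleGraph V} {X C D : Set V}

theorem sub (hC : IsComp G X C) (hD : IsComp G X D) {x : V} (hx : x ∈ C) (hx' : x ∈ D) :
    C ⊆ D := by
  have h1 : C ∩ D = C := by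
    refine hC.2.1.eq_of_nb Set.inter_subset_left ⟨x, hx, hx'⟩ ?_
    rintro w hw ⟨hw1, a, ha, haw⟩
    exact hD.2.2 w (hC.1 hw) ⟨fun h => hw1 ⟨hw, h⟩, a, ha.2, haw⟩
  rw [← h1]
  exact Set.inter_subset_right

end SN2Aux

theorem pfSN2 : S_SN2 := by
  classical
  intro V _ G X U v m n hv hU
  by_contra hcon
  push Not at hcon
  obtain ⟨hcon1, hcon2⟩ := hcon
  obtain ⟨T', ⟨hT'U, hT'⟩, hmax⟩ := Set.exists_max_image
    {T' : Set V | T' ⊆ U ∧ ∀ C, IsComp G X C → ∀ t ∈ T', ∀ t' ∈ T', v t ∈ C → v t' ∈ C → t = t'}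
    (fun T' => T'.ncard) (Set.toFinite _)
    ⟨∅, Set.empty_subset _, fun C _ t ht => absurd ht (Set.notMem_empty t)⟩
  have hm : T'.ncard < m := by
    by_contra h
    push Not at h
    obtain ⟨T₁, hT₁, hc⟩ := Set.exists_subset_card_eq h
    obtain ⟨C, hC, t, ht, t', ht', h1, h2, h3⟩ := hcon1 T₁ (hT₁.trans hT'U) hc
    exact h3 (hT' C hC t (hT₁ ht) t' (hT₁ ht') h1 h2)
  -- the components
  have hcomp : ∀ w, ∃ C : Set V, w ∈ X → IsComp G X C ∧ w ∈ C := by
    intro w
    by_cases hw : w ∈ X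
    · obtain ⟨C, h1, h2, h3, h4⟩ := exists_comp G hw
      exact ⟨C, fun _ => ⟨⟨h1, h3, h4⟩, h2⟩⟩
    · exact ⟨∅, fun h => absurd h hw⟩
  choose C hC using hcomp
  have hcov : ∀ u ∈ U, ∃ t' ∈ T', v u ∈ C (v t') := by
    intro u hu
    by_cases huT : u ∈ T'
    · exact ⟨u, huT, (hC _ (hv u hu)).2⟩
    · by_contra h
      push Not at h
      have h1 := hmax (insert u T') ⟨Set.insert_subset hu hT'U, ?_⟩
      · rw [Set.ncard_insert_of_notMem huT (Set.toFinite _)] at h1
        omega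
      · intro D hD
        have key : ∀ t ∈ T', v u ∈ D → v t ∈ D → False := by
          intro t ht h1 h2
          have h3 := hC (v t) (hv t (hT'U ht))
          exact h t ht (SN2Aux.sub hD h3.1 h2 h3.2 h1)
        rintro t (rfl | ht) t' (rfl | ht') h1 h2
        · rfl
        · exact absurd h2 fun h2 => key t' ht' h1 h2
        · exact absurd h1 fun h1 => key t ht h2 h1
        · exact hT' D hD t ht t' ht' h1 h2
  let f : V → Finset V := fun t' => (Set.toFinite {t | t ∈ U ∧ v t ∈ C (v t')}).toFinset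
  have hsub : (Set.toFinite U).toFinset ⊆ (Set.toFinite T').toFinset.biUnion f := by
    intro u hu
    rw [Set.Finite.mem_toFinset] at hu
    obtain ⟨t', ht', h⟩ := hcov u hu
    rw [Finset.mem_biUnion]
    exact ⟨t', by rwa [Set.Finite.mem_toFinset], by
      rw [Set.Finite.mem_toFinset]; exact ⟨hu, h⟩⟩
  have h1 := Finset.card_le_card hsub
  have h2 : ((Set.toFinite T').toFinset.biUnion f).card ≤ (Set.toFinite T').toFinset.card * n := by
    refine Finset.card_biUnion_le_card_mul _ _ _ fun t ht => ?_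
    rw [Set.Finite.mem_toFinset] at ht
    rw [← Set.ncard_eq_toFinset_card]
    exact hcon2 (C (v t)) (hC _ (hv t (hT'U ht))).1
  rw [← Set.ncard_eq_toFinset_card] at h1 h2
  have h3 : T'.ncard * n ≤ m * n := Nat.mul_le_mul_right n hm.le
  omega

end Pool.Agent.MPd439b2.H1M
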