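import Pool.Agent.Lib.MP_d439b2_co.H1M.Spec

/-!
# MP_d439b2_co, H1M, SN3: star or nested
-/

set_option autoImplicit false

namespace Pool.Agent.MPd439b2.H1M

open Pool.Agent.MPd439b2 Pool.Agent.MPd439b2.LK Pool.Agent.MPd439b2.H1

namespace SN3Aux

/-- there is a star with `m` elements -/
private def Star {V : Type} (m : ℕ) (G : SimpleGraph V) (T : Set V) (v : V → V) : Prop :=
  ∃ K T', CompleteOn G K ∧ T ⊆ K ∧ T' ⊆ T ∧ T'.ncard = m ∧ Sep G K T' v

/-- there is a chain inside `Φ` -/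
private def ChnI {V : Type} (h : ℕ) (G : SimpleGraph V) (T : Set V) (v : V → V) (Φ : Set V) :
    Prop :=
  ∃ K' Φ' t, Chn G T v h K' Φ' t ∧ (∀ j, j ≤ h → v (t j) ∈ Φ) ∧ ∀ i, 1 ≤ i → i ≤ h → Φ' i ⊆ Φ

private theorem ChnI.mono {V : Type} {h : ℕ} {G : SimpleGraph V} {T : Set V} {v : V → V}
    {Φ Ψ : Set V} (hc : ChnI h G T v Φ) (hΦ : Φ ⊆ Ψ) : ChnI h G T v Ψ := by
  obtain ⟨K', Φ', t, h1, h2, h3⟩ := hc
  exact ⟨K', Φ', t, h1, fun j hj => hΦ (h2 j hj), fun i hi hi' => (h3 i hi hi').trans hΦ⟩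

private theorem chn_zero {V : Type} {G : SimpleGraph V} {T : Set V} {v : V → V} {Φ : Set V}
    {t₀ : V} (ht : t₀ ∈ T) (hv : v t₀ ∈ Φ) : ChnI 0 G T v Φ := by
  refine ⟨fun _ => ∅, fun _ => ∅, fun _ => t₀, ⟨?_, ?_, fun _ _ => ht, ?_⟩, fun _ _ => hv, ?_⟩
  · intro i h1 h2
    omega
  · intro i j h1 h2 h3
    omega
  · intro i j h1 h2 h3
    omega
  · intro i h1 h2
    omega

private theorem chn_succ {V : Type} {h : ℕ} {G : SimpleGraph V} {T : Set V} {v : V → V}
    {K' C Φ : Set V} {t₀ : V} (hK : CompleteOn G K') (hT : T ⊆ K') (hC : IsComp G K'ᶜ C)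
    (hCΦ : C ⊆ Φ) (ht : t₀ ∈ T) (hv : v t₀ ∈ Φ) (hv' : v t₀ ∉ C) (hc : ChnI h G T v C) :
    ChnI (h + 1) G T v Φ := by
  obtain ⟨K₁, Φ₁, t₁, ⟨c1, c2, c3, c4⟩, h2, h3⟩ := hc
  refine ⟨fun i => match i with
    | 0 => ∅
    | 1 => K'
    | (i + 2) => K₁ (i + 1), fun i => match i with
    | 0 => ∅
    | 1 => C
    | (i + 2) => Φ₁ (i + 1), fun j => match j with
    | 0 => t₀
    | (j + 1) => t₁ j, ⟨?_, ?_, ?_, ?_⟩, ?_, ?_⟩
  · intro i hi hi'
    match i with
    | 0 => omega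
    | 1 => exact ⟨hK, hT, hC⟩
    | (i + 2) => exact c1 (i + 1) (by omega) (by omega)
  · intro i j hi hij hj
    match i, j with
    | 0, _ => omega
    | 1, 0 => omega
    | 1, 1 => exact subset_rfl
    | 1, (j + 2) => exact h3 (j + 1) (by omega) (by omega)
    | (i + 2), 0 => omega
    | (i + 2), 1 => omega
    | (i + 2), (j + 2) => exact c2 (i + 1) (j + 1) (by omega) (by omega) (by omega)
  · intro j hj
    match j with
    | 0 => exact ht
    | (j + 1) => exact c3 j (by omega)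
  · intro i j hi hi' hj
    match i, j with
    | 0, _ => omega
    | 1, 0 =>
      constructor
      · intro h5
        exact absurd h5 hv'
      · intro h5
        omega
    | 1, (j + 1) =>
      constructor
      · intro _
        omega
      · intro _
        exact h2 j (by omega)
    | (i + 2), 0 =>
      constructor
      · intro h5
        exact absurd (h3 (i + 1) (by omega) (by omega) h5) hv'
      · intro h5
        omega
    | (i + 2), (j + 1) =>
      have h6 := c4 (i + 1) j (by omega) (by omega) (by omega)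
      constructor
      · intro h5
        have := h6.1 h5
        omega
      · intro h5
        exact h6.2 (by omega)
  · intro j hj
    match j with
    | 0 => exact hv
    | (j + 1) => exact hCΦ (h2 j (by omega))
  · intro i hi hi'
    match i with
    | 0 => omega
    | 1 => exact hCΦ
    | (i + 2) => exact (h3 (i + 1) (by omega) (by omega)).trans hCΦ

private theorem claim (hSN1 : S_SN1) (hSN2 : S_SN2) (m : ℕ) : ∀ h : ℕ, ∃ N : ℕ, ∀ (V : Type)
    [Finite V] (G : SimpleGraph V) (T : Set V) (v : V → V), Chd G → CompleteOn G T → Wt G T v →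
    ∀ K Φ : Set V, CompleteOn G K → T ⊆ K → IsComp G Kᶜ Φ → N < {t | t ∈ T ∧ v t ∈ Φ}.ncard →
    Star m G T v ∨ ChnI h G T v Φ := by
  intro h
  induction h with
  | zero =>
    refine ⟨0, ?_⟩
    intro V _ G T v _ _ _ K Φ _ _ _ hN
    obtain ⟨t₀, ht, hv⟩ := (Set.ncard_pos (Set.toFinite _)).1 hN
    exact Or.inr (chn_zero ht hv)
  | succ h ih =>
    obtain ⟨N, hN⟩ := ih
    refine ⟨m * N + 2, ?_⟩
    intro V _ G T v hG hT hW
    have key : ∀ n : ℕ, ∀ K Φ : Set V, Φ.ncard ≤ n → CompleteOn G K → T ⊆ K → IsComp G Kᶜ Φ →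
        m * N + 2 < {t | t ∈ T ∧ v t ∈ Φ}.ncard → Star m G T v ∨ ChnI (h + 1) G T v Φ := by
      intro n
      induction n with
      | zero =>
        intro K Φ hΦn hK hTK hΦ hU
        obtain ⟨t₀, ht, hv⟩ := (Set.ncard_pos (Set.toFinite _)).1 (lt_of_le_of_lt (Nat.zero_le _) hU)
        have h1 : 0 < Φ.ncard := (Set.ncard_pos (Set.toFinite _)).2 ⟨_, hv⟩
        omega
      | succ n ihn =>
        intro K Φ hΦn hK hTK hΦ hU
        obtain ⟨s, hs, s', hs', hne⟩ := (Set.one_lt_ncard (Set.toFinite _)).1 (show 1 < {t | t ∈ T ∧ v t ∈ Φ}.ncard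
          by omega)
        obtain ⟨K', hK', hTK', hvK', hcomp⟩ := hSN1 V G K T Φ v s s' hG hK hTK hW hΦ hs.1 hs'.1
          hne hs.2 hs'.2
        rcases hSN2 V G K'ᶜ {t | t ∈ T ∧ v t ∈ Φ} v m N (fun t ht => hvK' t ht.1) (by omega) with
          ⟨T', hT'1, hT'2, hT'3⟩ | ⟨C, hC, hCN⟩
        · left
          exact ⟨K', T', hK', hTK', fun t ht => (hT'1 ht).1, hT'2, hT'3⟩
        · obtain ⟨t₁, ht₁, hv₁⟩ := (Set.ncard_pos (Set.toFinite _)).1 (lt_of_le_of_lt (Nat.zero_le _) hCN)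
          have hCΦ := hcomp C hC ⟨v t₁, hv₁, ht₁.2⟩
          have e1 : {t | t ∈ {t | t ∈ T ∧ v t ∈ Φ} ∧ v t ∈ C} = {t | t ∈ T ∧ v t ∈ C} := by
            ext t
            constructor
            · rintro ⟨h1, h2⟩
              exact ⟨h1.1, h2⟩
            · rintro ⟨h1, h2⟩
              exact ⟨⟨h1, hCΦ.1 h2⟩, h2⟩
          rw [e1] at hCN
          by_cases hall : ∀ t, t ∈ T → v t ∈ Φ → v t ∈ C
          · have e2 : {t | t ∈ T ∧ v t ∈ C} = {t | t ∈ T ∧ v t ∈ Φ} := by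
              ext t
              constructor
              · rintro ⟨h1, h2⟩
                exact ⟨h1, hCΦ.1 h2⟩
              · rintro ⟨h1, h2⟩
                exact ⟨h1, hall t h1 h2⟩
            have h3 : C.ncard < Φ.ncard := Set.ncard_lt_ncard hCΦ
            rcases ihn K' C (by omega) hK' hTK' hC (by rw [e2]; exact hU) with h4 | h4
            · exact Or.inl h4
            · exact Or.inr (h4.mono hCΦ.1)
          · push Not at hall
            obtain ⟨t₀, ht₀, hv₀, hv₀'⟩ := hall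
            rcases hN V G T v hG hT hW K' C hK' hTK' hC hCN with h4 | h4
            · exact Or.inl h4
            · exact Or.inr (chn_succ hK' hTK' hC hCΦ.1 ht₀ hv₀ hv₀' h4)
    intro K Φ hK hTK hΦ hU
    exact key Φ.ncard K Φ le_rfl hK hTK hΦ hU

end SN3Aux

open SN3Aux

theorem pfSN3 : S_SN1 → S_SN2 → S_SN3 := by
  intro hSN1 hSN2 m h
  obtain ⟨N, hN⟩ := claim hSN1 hSN2 m h
  refine ⟨m * N + 1, ?_⟩
  intro V _ G T v hG hT hW hTN
  rcases hSN2 V G Tᶜ T v m N (fun t ht => (hW t ht).1) (by omega) with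
    ⟨T', hT'1, hT'2, hT'3⟩ | ⟨C, hC, hCN⟩
  · left
    exact ⟨T, T', hT, subset_rfl, hT'1, hT'2, hT'3⟩
  · rcases hN V G T v hG hT hW T C hT subset_rfl hC hCN with h1 | ⟨K', Φ', t, h1, _, _⟩
    · left
      exact h1
    · right
      exact ⟨K', Φ', t, h1⟩

end Pool.Agent.MPd439b2.H1M
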