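import Pool.Agent.Lib.MP_d439b2_co.H1M.Spec

/-!
# MP_d439b2_co, H1M: the statement `S_Star` (linked stars are bounded)
-/

set_option autoImplicit false

namespace Pool.Agent.MPd439b2.H1M

open Pool.Agent.MPd439b2 Pool.Agent.MPd439b2.LK Pool.Agent.MPd439b2.H1

theorem pfStar : S_B2 → S_S1 → S_Cut → S_Star := by
  intro hB2 hS1 hCut q
  obtain ⟨N, hN⟩ := hS1 q (6 * q + 6) (by omega)
  refine ⟨N, ?_⟩
  intro V _ G K T v hSt hLk
  by_contra hcon
  push Not at hcon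
  obtain ⟨T', hT', hcard, hSt'⟩ := hN V G K T v hSt hLk hcon
  obtain ⟨-, -, -, hsub, -⟩ := hB2 V G
  have hLk' : Lk G T' q := hsub T T' q hLk hT'
  obtain ⟨b₁, b₂, hb⟩ := hCut V G K T' v hSt'
  have hfin : ∀ s : Set V, s.Finite := fun s => Set.toFinite s
  have h1 : 3 * q + 1 ≤ (T' \ {b₁, b₂}).ncard := by
    have h2 := Set.le_ncard_sdiff {b₁, b₂} T' (hfin _)
    have h3 : ({b₁, b₂} : Set V).ncard ≤ 2 := (Set.ncard_insert_le b₁ {b₂}).trans (by rw [Set.ncard_singleton])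
    omega
  obtain ⟨I, hI, hIc⟩ := Set.exists_subset_card_eq h1
  obtain ⟨X, hX, hTX⟩ := hb I (hI.trans Set.sdiff_subset) (fun h => (hI h).2 (Or.inl rfl))
    (fun h => (hI h).2 (Or.inr rfl))
  have h4 := Set.ncard_inter_add_ncard_sdiff_eq_ncard T' X (hfin _)
  rw [hTX, hIc, hcard] at h4
  have h5 : q * cr G X ≤ q * 3 := Nat.mul_le_mul_left q hX
  rcases hLk' X with h6 | h6
  · rw [hTX, hIc] at h6
    omega
  · omega

end Pool.Agent.MPd439b2.H1M
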