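import Pool.Agent.Lib.MP_d439b2_co.H1M.Spec

/-!
# MP_d439b2_co, pair `(C_4, K3:0,1,02)`, type (M): triangular families (`S_TR`)
-/

set_option autoImplicit false

namespace Pool.Agent.MPd439b2.H1M

open Pool.Agent.MPd439b2 Pool.Agent.MPd439b2.LK Pool.Agent.MPd439b2.H1

theorem pfTR : S_TR := by
  classical
  intro V _ G A B k r c h1 h2 h3
  have hli : LinearIndependent (ZMod 2) r := by
    rw [Fintype.linearIndependent_iff]
    intro α hα
    by_contra hne
    push Not at hne
    obtain ⟨i₀, hi₀⟩ := hne
    obtain ⟨j, hj, hmax⟩ := Finset.exists_max_image (Finset.univ.filter fun i => α i ≠ 0)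
      (fun i => i) ⟨i₀, by simpa using hi₀⟩
    have hj' : α j ≠ 0 := by simpa using hj
    have h0 := congrFun hα (c j)
    rw [Finset.sum_apply, Finset.sum_eq_single j] at h0
    · rw [Pi.smul_apply, h2, smul_eq_mul, mul_one] at h0
      exact hj' h0
    · intro i _ hij
      rw [Pi.smul_apply, smul_eq_mul]
      rcases lt_or_gt_of_ne hij with h | h
      · rw [h3 i j h, mul_zero]
      · have : α i = 0 := by
          by_contra hi
          have := hmax i (by simpa using hi)
          exact absurd this (not_le.2 h)
        rw [this, zero_mul]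
    · intro h
      exact absurd (Finset.mem_univ j) h
  have h4 := finrank_span_eq_card hli
  rw [Fintype.card_fin] at h4
  unfold rk
  conv_lhs => rw [← h4]
  apply Submodule.finrank_mono
  rw [Submodule.span_le]
  rintro _ ⟨i, rfl⟩
  exact h1 i

end Pool.Agent.MPd439b2.H1M
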