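import Pool.Agent.Lib.MP_d439b2_co.H1P.Final
import Pool.Agent.Lib.MP_d439b2_co.H1.A13
import Pool.Agent.Lib.MP_d439b2_co.H1.CH1
import Pool.Agent.Lib.MP_d439b2_co.H1.CH2
import Pool.Agent.Lib.MP_d439b2_co.H1.CH3
import Pool.Agent.Lib.MP_d439b2_co.H1.CH4
import Pool.Agent.Lib.MP_d439b2_co.H1.CH5
import Pool.Agent.Lib.MP_d439b2_co.H1.CH6
import Pool.Agent.Lib.MP_d439b2_co.H1.CH7
import Pool.Agent.Lib.MP_d439b2_co.H1.CM1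
import Pool.Agent.Lib.MP_d439b2_co.H1.CM2
import Pool.Agent.Lib.MP_d439b2_co.H1.Fin1
import Pool.Agent.Lib.MP_d439b2_co.H1.M0
import Pool.Agent.Lib.MP_d439b2_co.H1.M1
import Pool.Agent.Lib.MP_d439b2_co.H1.M2
import Pool.Agent.Lib.MP_d439b2_co.H1.M3
import Pool.Agent.Lib.MP_d439b2_co.H1.M4
import Pool.Agent.Lib.MP_d439b2_co.H1.M5
import Pool.Agent.Lib.MP_d439b2_co.H1.R0
import Pool.Agent.Lib.MP_d439b2_co.H1.R1
import Pool.Agent.Lib.MP_d439b2_co.H1.R11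
import Pool.Agent.Lib.MP_d439b2_co.H1.R2
import Pool.Agent.Lib.MP_d439b2_co.H1.R3
import Pool.Agent.Lib.MP_d439b2_co.H1.R4
import Pool.Agent.Lib.MP_d439b2_co.H1.R5
import Pool.Agent.Lib.MP_d439b2_co.H1.R6
import Pool.Agent.Lib.MP_d439b2_co.H1.R7
import Pool.Agent.Lib.MP_d439b2_co.H1.R8
import Pool.Agent.Lib.MP_d439b2_co.H1.R9
import Pool.Agent.Lib.MP_d439b2_co.H1.RP
import Pool.Agent.Lib.MP_d439b2_co.H1.Reg
import Pool.Agent.Lib.MP_d439b2_co.H1.Reg2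
import Pool.Agent.Lib.MP_d439b2_co.H1M.B1
import Pool.Agent.Lib.MP_d439b2_co.H1M.B2
import Pool.Agent.Lib.MP_d439b2_co.H1M.Cut
import Pool.Agent.Lib.MP_d439b2_co.H1M.Fin
import Pool.Agent.Lib.MP_d439b2_co.H1M.HG
import Pool.Agent.Lib.MP_d439b2_co.H1M.HR
import Pool.Agent.Lib.MP_d439b2_co.H1M.IX
import Pool.Agent.Lib.MP_d439b2_co.H1M.N0
import Pool.Agent.Lib.MP_d439b2_co.H1M.N1
import Pool.Agent.Lib.MP_d439b2_co.H1M.N1a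
import Pool.Agent.Lib.MP_d439b2_co.H1M.N2
import Pool.Agent.Lib.MP_d439b2_co.H1M.N3
import Pool.Agent.Lib.MP_d439b2_co.H1M.N4
import Pool.Agent.Lib.MP_d439b2_co.H1M.N5
import Pool.Agent.Lib.MP_d439b2_co.H1M.N6
import Pool.Agent.Lib.MP_d439b2_co.H1M.P1
import Pool.Agent.Lib.MP_d439b2_co.H1M.S0
import Pool.Agent.Lib.MP_d439b2_co.H1M.S1
import Pool.Agent.Lib.MP_d439b2_co.H1M.S10
import Pool.Agent.Lib.MP_d439b2_co.H1M.S10a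
import Pool.Agent.Lib.MP_d439b2_co.H1M.S1a
import Pool.Agent.Lib.MP_d439b2_co.H1M.S1b
import Pool.Agent.Lib.MP_d439b2_co.H1M.S1c
import Pool.Agent.Lib.MP_d439b2_co.H1M.S2
import Pool.Agent.Lib.MP_d439b2_co.H1M.S3
import Pool.Agent.Lib.MP_d439b2_co.H1M.S4
import Pool.Agent.Lib.MP_d439b2_co.H1M.S5
import Pool.Agent.Lib.MP_d439b2_co.H1M.S6
import Pool.Agent.Lib.MP_d439b2_co.H1M.S7
import Pool.Agent.Lib.MP_d439b2_co.H1M.S8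
import Pool.Agent.Lib.MP_d439b2_co.H1M.S8b
import Pool.Agent.Lib.MP_d439b2_co.H1M.S9
import Pool.Agent.Lib.MP_d439b2_co.H1M.S9a
import Pool.Agent.Lib.MP_d439b2_co.H1M.SN1
import Pool.Agent.Lib.MP_d439b2_co.H1M.SN2
import Pool.Agent.Lib.MP_d439b2_co.H1M.SN3
import Pool.Agent.Lib.MP_d439b2_co.H1M.Star
import Pool.Agent.Lib.MP_d439b2_co.H1M.TR

/-!
# MP_d439b2_co, pair `(C_4, K3:0,1,02)`: assembly

`noM`: no long linked cliques of type (M); `fin1F`: chordal graphs without the induced minor `K3:0,1,02` have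
layouts of bounded width, and the pair `(C_4, K3:0,1,02)` has bounded clique-width.
-/

set_option autoImplicit false

namespace Pool.Agent.MPd439b2.H1M

open Pool.Agent.MPd439b2 Pool.Agent.MPd439b2.LK Pool.Agent.MPd439b2.H1

theorem m1F : H1.S_M1 := pfM1 pfM0
theorem m2F : H1.S_M2 := pfM2 a0
theorem m3F : H1.S_M3 := pfM3 m2F
theorem m4F : H1.S_M4 := pfM4 m1F
theorem m5F : H1.S_M5 := pfM5 m1F

theorem regF : H1.S_Reg := by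
  have r1 : H1.S_R1 := pfR1 a1
  have r2 : H1.S_R2 := pfR2 r1 pfRP
  have r3 : H1.S_R3 := pfR3 m2F m3F m4F
  have r4 : H1.S_R4 := pfR4 m1F m2F m3F m4F
  have r5 : H1.S_R5 := pfR5 m1F m3F r4 pfRP
  have r6 : H1.S_R6 := pfR6 pfR0
  have r7 : H1.S_R7 := pfR7 m1F m3F m4F
  have r8 : H1.S_R8 := pfR8 m1F m3F m4F
  have r9 : H1.S_R9 := pfR9 pfR0 r7 r8
  exact pfReg r2 r3 r5 r6 r9 pfR11

theorem reg2F : H1.S_Reg2 := by
  have c1 : H1.S_CM1 := pfCM1 pfM0 a0 m3F m4F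
  have c2 : H1.S_CM2 := pfCM2 a1 c1
  have h1 : H1.S_CH1 := pfCH1 m1F m2F m3F
  have h2 : H1.S_CH2 := pfCH2 m1F h1
  have h3 : H1.S_CH3 := pfCH3 h1 h2
  have h4 : H1.S_CH4 := pfCH4 m2F h2 h3
  have h5 : H1.S_CH5 := pfCH5 m5F h1 h3
  have h6 : H1.S_CH6 := pfCH6 m4F h1 h3 h4 h5
  have h7 : H1.S_CH7 := pfCH7 a1 h1 h3 h4 h5 h6
  exact pfReg2 regF pfR11 c2 h7

theorem noIF : H1.S_NoI := H1P.noI reg2F

theorem noM : H1.S_NoM := by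
  have b1 : S_B1 := pfB1 m2F
  have b2 : S_B2 := pfB2
  have p1 : S_P1 := pfP1 pfM0 (a7 a0)
  have hg : S_HG := pfHG b2 (pfHR pfTR) (pfIX (a2 a1)) reg2F noIF pfR11 H1P.l2F
  have sn3 : S_SN3 := pfSN3 (pfSN1 (a7 a0)) pfSN2
  have n0 : S_N0 := pfN0 m1F b1
  have n1 : S_N1 := pfN1 b1 (pfN1a pfM0 b1)
  have n3 : S_N3 := pfN3 m1F b1
  have n6 : S_N6 := pfN6 hg (pfN2 n0 n1) n3 (pfN4 m1F b1 n3) (pfN5 m1F m2F b1)
  have s1 : S_S1 := pfS1 b2 hg (pfS1a m4F b1) (pfS1b pfR0)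
  have s0 : S_S0 := pfS0 b1 n0 m1F
  have s1c : S_S1c := pfS1c s0
  have s2 : S_S2 := pfS2 p1 s0 s1c
  have s3 : S_S3 := pfS3 m4F s0
  have s4 : S_S4 := pfS4 m4F s0 s2
  have s5 : S_S5 := pfS5 p1 s0 s1c
  have s6 : S_S6 := pfS6 m4F s0 s1c s2
  have s7 : S_S7 := pfS7 m4F s0 s4 s5 s6
  have s8 : S_S8 := pfS8 m4F s0 s1c s5 s6
  have s8b : S_S8b := pfS8b s4 s5 s7 s8
  have s9a : S_S9a := pfS9a m1F m4F s0 s1c s3 s4 s6 s7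
  have s9 : S_S9 := pfS9 m4F s0 s8 s9a
  have s10 : S_S10 := pfS10 s6 s8 (pfS10a pfM0 s0)
  have cut : S_Cut := pfCut a1 s3 s8b s9 s10
  exact pfFin b2 sn3 n6 (pfStar b2 s1 cut)

/-- the pair `(C_4, K3:0,1,02)` -/
theorem fin1F : H1.S_Fin1 :=
  pfFin1 (pfA13 H1P.lnkBF) reg2F pfR11 noIF noM layCW

end Pool.Agent.MPd439b2.H1M
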