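import Pool.Agent.Lib.MP_d439b2_co.H1M.Spec

/-!
# MP_d439b2_co, H1M, N1a: one more colour
-/

set_option autoImplicit false

namespace Pool.Agent.MPd439b2.H1M

open Pool.Agent.MPd439b2 Pool.Agent.MPd439b2.LK Pool.Agent.MPd439b2.H1

namespace N1aAux

variable {V : Type} {G : SimpleGraph V} {T : Set V} {w e : V}

theorem nadj (h : Ms G T w = {e}) : ¬ G.Adj w e := by
  have h1 : e ∈ Ms G T w := by
    rw [h]
    rfl
  exact h1.2

theorem adj (h : Ms G T w = {e}) {t : V} (ht : t ∈ T) (hte : t ≠ e) : G.Adj w t := by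
  by_contra h1
  have h2 : t ∈ Ms G T w := ⟨ht, h1⟩
  rw [h] at h2
  exact hte h2

theorem full (h : Ms G T w = ∅) {t : V} (ht : t ∈ T) : G.Adj w t := by
  by_contra h1
  have h2 : t ∈ Ms G T w := ⟨ht, h1⟩
  rw [h] at h2
  exact h2

end N1aAux

open N1aAux in
theorem pfN1a : H1.S_M0 → S_B1 → S_N1a := by
  intro hM0 hB1 V _ G T Φ E v t₀ g a hG hTM hWt hΦ hdis hT0 ht₀ hout hE ht₀E hg hgE hgt₀ ha haf
    haE hW
  obtain ⟨hTc, hTt, -⟩ := hTM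
  have hΦT : ∀ u ∈ Φ, u ∉ T := fun u hu hu' => Set.disjoint_left.mp hdis hu hu'
  -- (i)
  have hi : ∀ e ∈ T, ∀ w ∈ Φ, Ms G T w ≠ {e} → ∀ y ∈ Φ, Ms G T y = {e} → G.Adj w y →
      Ms G T w = ∅ := by
    intro e he w hw hwe y hy hye hwy
    rcases hTt w (hΦT w hw) with h | h | ⟨s, hs, h⟩
    · exact h
    · exact absurd h (hT0 w hw)
    · have hse : s ≠ e := fun h' => hwe (by rw [h, h'])
      exact absurd hwy (hB1 V G T e s w y hG.1 hTc he hs (hΦT w hw) (hΦT y hy)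
        (adj h he hse.symm) (nadj h) (adj hye hs hse) (nadj hye))
  by_cases htg : ∃ w ∈ Φ, Ms G T w = {g} ∧ G.Adj a w
  · refine ⟨a, ha, haf, ?_⟩
    rintro e (rfl | he)
    · exact htg
    · exact haE e he
  set R : Set V := {b | b ∈ Φ ∧ Ms G T b ≠ {g} ∧ ¬ ∃ w ∈ Φ, Ms G T w = {g} ∧ G.Adj b w} with hR
  have haR : a ∈ R := ⟨ha, fun h => by
    rw [haf] at h
    exact Set.singleton_ne_empty g h.symm, htg⟩
  obtain ⟨P, hPR, haP, hPc, hPn⟩ := exists_comp G haR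
  have hPΦ : P ⊆ Φ := fun x hx => (hPR hx).1
  have hPne : P ≠ Φ := by
    intro h
    obtain ⟨w, hw, hwg⟩ := hW
    rw [← h] at hw
    exact (hPR hw).2.1 hwg
  obtain ⟨p, hp, b, ⟨hbΦ, hbP⟩, hpb⟩ := hΦ.2 P hPΦ ⟨a, haP⟩ hPne
  have hbR : b ∉ R := fun h => hPn b h ⟨hbP, p, hp, hpb⟩
  have hbg : Ms G T b ≠ {g} := fun h => (hPR hp).2.2 ⟨b, hbΦ, h, hpb⟩
  obtain ⟨yg, hyg, hygg, hbyg⟩ : ∃ w ∈ Φ, Ms G T w = {g} ∧ G.Adj b w := by
    by_contra h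
    exact hbR ⟨hbΦ, hbg, h⟩
  have hbf : Ms G T b = ∅ := hi g hg b hbΦ hbg yg hyg hygg hbyg
  refine ⟨b, hbΦ, hbf, ?_⟩
  rintro e (rfl | he)
  · exact ⟨yg, hyg, hygg, hbyg⟩
  -- the claim
  by_contra hbe
  have heT : e ∈ T := hE he
  have heg : e ≠ g := fun h => hgE (h ▸ he)
  have het₀ : e ≠ t₀ := fun h => ht₀E (h ▸ he)
  have hP' : Conn G (insert b P) := hPc.insert ⟨p, hp, hpb⟩
  set D : Set V := {d | d ∈ P ∧ (Ms G T d = {e} ∨ ∃ w ∈ Φ, Ms G T w = {e} ∧ G.Adj d w)} with hD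
  have haD : a ∈ D := ⟨haP, Or.inr (haE e he)⟩
  obtain ⟨Q, hQs, hbQ, hQc, hQn⟩ := exists_comp G
    (show b ∈ insert b P \ D from ⟨Set.mem_insert _ _, fun h => hbP h.1⟩)
  have hQne : Q ≠ insert b P := by
    intro h
    have : a ∈ Q := by
      rw [h]
      exact Or.inr haP
    exact (hQs this).2 haD
  obtain ⟨q, hq, r, ⟨hr, hrQ⟩, hqr⟩ := hP'.2 Q (fun x hx => (hQs hx).1) ⟨b, hbQ⟩ hQne
  have hrD : r ∈ D := by
    by_contra h
    exact hQn r ⟨hr, h⟩ ⟨hrQ, q, hq, hqr⟩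
  have hrP : r ∈ P := hrD.1
  have hrΦ : r ∈ Φ := hPΦ hrP
  have hQΦ : ∀ x ∈ Q, x ∈ Φ := by
    intro x hx
    rcases (hQs hx).1 with rfl | h
    · exact hbΦ
    · exact hPΦ h
  have hQ1 : ∀ x ∈ Q, ¬ ∃ w ∈ Φ, Ms G T w = {e} ∧ G.Adj x w := by
    intro x hx h
    rcases (hQs hx).1 with rfl | h'
    · exact hbe h
    · exact (hQs hx).2 ⟨h', Or.inr h⟩
  have hQ2 : ∀ x ∈ Q, Ms G T x ≠ {e} := by
    intro x hx h
    rcases (hQs hx).1 with rfl | h'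
    · rw [hbf] at h
      exact Set.singleton_ne_empty e h.symm
    · exact (hQs hx).2 ⟨h', Or.inl h⟩
  have hre : Ms G T r ≠ {e} := fun h => hQ1 q hq ⟨r, hrΦ, h, hqr⟩
  obtain ⟨ye, hye, hyee, hrye⟩ := hrD.2.resolve_left hre
  have hrf : Ms G T r = ∅ := hi e heT r hrΦ hre ye hye hyee hrye
  have hygP : yg ∉ P := fun h => (hPR h).2.1 hygg
  refine hG.2 (hM0 V G {e} {r} Q (v t₀) ye yg (Conn.singleton G e) (Conn.singleton G r) hQc
    ?_ ?_ ?_ ?_ ?_ ?_ ?_ ?_ ?_ ?_ ?_ ?_ ?_ ?_ ?_ ?_ ?_ ?_ ?_ ?_ ?_ ?_ ?_ ?_ ?_ ?_ ?_)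
  · rw [Set.disjoint_singleton]
    exact fun h => hΦT r hrΦ (h ▸ heT)
  · rw [Set.disjoint_singleton_left]
    exact fun h => hΦT e (hQΦ e h) heT
  · rw [Set.disjoint_singleton_left]
    exact hrQ
  · exact fun h => (hWt t₀ ht₀).1 (by rw [h]; exact heT)
  · exact fun h => hout.1 (by rw [h]; exact hrΦ)
  · exact fun h => hout.1 (hQΦ _ h)
  · exact fun h => hΦT ye hye (by rw [h]; exact heT)
  · exact fun h => hrye.ne h.symm
  · exact fun h => hQ2 ye h hyee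
  · exact fun h => hΦT yg hyg (by rw [h]; exact heT)
  · exact fun h => hygP (by rw [h]; exact hrP)
  · intro h
    rcases (hQs h).1 with h' | h'
    · exact hbyg.ne h'.symm
    · exact hygP h'
  · exact ⟨e, rfl, r, rfl, (full hrf heT).symm⟩
  · exact ⟨e, rfl, b, hbQ, (full hbf heT).symm⟩
  · exact ⟨r, rfl, q, hq, hqr.symm⟩
  · exact ⟨e, rfl, adj (hWt t₀ ht₀).2 heT het₀⟩
  · rintro x rfl h
    exact hout.2 x hrΦ h.symm
  · intro x hx h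
    exact hout.2 x (hQΦ x hx) h.symm
  · exact ⟨r, rfl, hrye.symm⟩
  · rintro x rfl
    exact nadj hyee
  · intro x hx h
    exact hQ1 x hx ⟨ye, hye, hyee, h.symm⟩
  · exact ⟨e, rfl, adj hygg heT heg⟩
  · exact ⟨b, hbQ, hbyg.symm⟩
  · rintro x rfl h
    exact (hPR hrP).2.2 ⟨yg, hyg, hygg, h.symm⟩
  · exact fun h => hout.2 ye hye h.symm
  · exact fun h => hout.2 yg hyg h.symm
  · exact hB1 V G T g e ye yg hG.1 hTc hg heT (hΦT ye hye) (hΦT yg hyg) (adj hyee hg heg.symm)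
      (nadj hyee) (adj hygg heT heg) (nadj hygg)

end Pool.Agent.MPd439b2.H1M
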