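import Pool.Agent.Lib.MP_d439b2_co.H1M.Spec
import Pool.Agent.Lib.MP_d439b2_co.Basic

/-!
# MP_d439b2_co, H1M, S10a: star, the components of the witnesses and `D`
-/

set_option autoImplicit false

namespace Pool.Agent.MPd439b2.H1M

open Pool.Agent.MPd439b2 Pool.Agent.MPd439b2.LK Pool.Agent.MPd439b2.H1

namespace s10aAux

variable {V : Type} {G : SimpleGraph V}

/-- a connected piece of `C` without `x` which contains `w` and touches `x` -/
theorem piece {C : Set V} (hC : Conn G C) {x w : V} (hx : x ∈ C) (hw : w ∈ C) (hwx : w ≠ x) :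
    ∃ Y ⊆ C, w ∈ Y ∧ x ∉ Y ∧ Conn G Y ∧ ∃ y ∈ Y, G.Adj x y := by
  obtain ⟨Y, hYA, hwY, hYc, hYn⟩ := exists_comp G (A := C \ {x}) (v := w) ⟨hw, hwx⟩
  have hxY : x ∉ Y := fun h => (hYA h).2 rfl
  have hne : Y ≠ C := by
    rintro rfl
    exact hxY hx
  obtain ⟨b, hb, a, ⟨haC, haY⟩, hba⟩ := hC.2 Y (fun y hy => (hYA hy).1) ⟨w, hwY⟩ hne
  have hax : a = x := by
    by_contra h
    exact hYn a ⟨haC, h⟩ ⟨haY, b, hb, hba⟩
  subst hax
  exact ⟨Y, fun y hy => (hYA hy).1, hwY, hxY, hYc, b, hb, hba.symm⟩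

/-- components which meet are equal -/
theorem comp_eq {X C C' : Set V} (hC : IsComp G X C) (hC' : IsComp G X C') {p : V} (hp : p ∈ C)
    (hp' : p ∈ C') : C ⊆ C' := by
  have h1 : C ∩ C' = C := by
    by_contra hne
    obtain ⟨b, ⟨hb, hb'⟩, a, ⟨ha, ha'⟩, hba⟩ := hC.2.1.2 (C ∩ C') Set.inter_subset_left
      ⟨p, hp, hp'⟩ hne
    refine hC'.2.2 a (hC.1 ha) ⟨fun h => ha' ⟨ha, h⟩, b, hb', hba⟩
  intro x hx
  rw [← h1] at hx
  exact hx.2

theorem adjW {T : Set V} {v : V → V} (h : Wt G T v) {s t : V} (hs : s ∈ T) (ht : t ∈ T)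
    (hst : s ≠ t) : G.Adj (v s) t := by
  by_contra h'
  have h1 : t ∈ Ms G T (v s) := ⟨ht, h'⟩
  rw [(h s hs).2] at h1
  exact hst (Eq.symm h1)

theorem nadjW {T : Set V} {v : V → V} (h : Wt G T v) {s : V} (hs : s ∈ T) :
    ¬ G.Adj (v s) s := by
  have h1 : s ∈ Ms G T (v s) := by
    rw [(h s hs).2]
    rfl
  exact h1.2

end s10aAux

open s10aAux in
theorem pfS10a (h0 : H1.S_M0) (hS : S_S0) : S_S10a := by
  intro V _ G K T v hSt C C' hC hC' e he f hf hef hvC hvC' d hd d' hd' hcd hcd'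
  by_contra hdd
  obtain ⟨s1, s2, s3, s4, -⟩ := hS V G K T v hSt
  obtain ⟨g, hg, hg'⟩ : ∃ g, g ∈ T ∧ g ∉ ({e, f} : Set V) := by
    have h1 := Set.ncard_pair hef
    have h2 := hSt.big
    exact Set.exists_mem_notMem_of_ncard_lt_ncard (by omega) (Set.toFinite _)
  have hge : g ≠ e := fun h => hg' (Or.inl h)
  have hgf : g ≠ f := fun h => hg' (Or.inr h)
  have hgC : v g ∉ C := fun h => hge (hSt.sep C hC g hg e he h hvC)
  have hgC' : v g ∉ C' := fun h => hgf (hSt.sep C' hC' g hg f hf h hvC')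
  have hfC : v f ∉ C := fun h => hef (hSt.sep C hC e he f hf hvC h)
  have heC' : v e ∉ C' := fun h => hef (hSt.sep C' hC' e he f hf h hvC')
  have hdis : ∀ x, x ∈ C → x ∉ C' := fun x hx hx' => heC' (comp_eq hC hC' hx hx' hvC)
  have hKC : ∀ x, x ∈ K → x ∉ C := fun x hx hx' => hC.1 hx' hx
  have hKC' : ∀ x, x ∈ K → x ∉ C' := fun x hx hx' => hC'.1 hx' hx
  have heK : e ∈ K := hSt.tk he
  have hdn : ∀ s ∈ T, ¬ G.Adj (v s) d := hd.2
  have hdn' : ∀ s ∈ T, ¬ G.Adj (v s) d' := hd'.2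
  obtain ⟨w, hw, hwd⟩ := hcd
  obtain ⟨w', hw', hwd'⟩ := hcd'
  obtain ⟨Y, hYC, hwY, heY, hYc, y, hy, hey⟩ := piece hC.2.1 hvC hw
    (by rintro rfl; exact hdn e he hwd)
  obtain ⟨Y', hYC', hwY', hfY, hYc', y', hy', hfy⟩ := piece hC'.2.1 hvC' hw'
    (by rintro rfl; exact hdn' f hf hwd')
  have hed : e ≠ d := by
    rintro rfl
    exact hdn g hg (adjW hSt.wt hg he hge)
  have hed' : e ≠ d' := by
    rintro rfl
    exact hdn' g hg (adjW hSt.wt hg he hge)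
  have hoC : ∀ s ∈ T, v s ∉ C → ∀ c ∈ C, ¬ G.Adj (v s) c := fun s hs h c hc h1 =>
    (s3 C hC s hs h).2 c hc h1.symm
  have hoC' : ∀ s ∈ T, v s ∉ C' → ∀ c ∈ C', ¬ G.Adj (v s) c := fun s hs h c hc h1 =>
    (s3 C' hC' s hs h).2 c hc h1.symm
  have hnd : ∀ s ∈ T, v s ≠ d := fun s hs h => s1 s hs (h ▸ hd.1)
  have hnd' : ∀ s ∈ T, v s ≠ d' := fun s hs h => s1 s hs (h ▸ hd'.1)
  have hne : ∀ s ∈ T, v s ≠ e := fun s hs h => s1 s hs (h ▸ heK)
  refine hSt.cls.2 (h0 V G {e} (insert d Y) (insert d' Y') (v g) (v e) (v f)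
    (Conn.singleton G e) (Conn.insert hYc ⟨w, hwY, hwd⟩) (Conn.insert hYc' ⟨w', hwY', hwd'⟩)
    ?_ ?_ ?_ (hne g hg) ?_ ?_ (hne e he) ?_ ?_ (hne f hf) ?_ ?_ ?_ ?_ ?_ ?_ ?_ ?_ ?_ ?_ ?_ ?_ ?_
    ?_ (s4 g hg e he hge) (s4 g hg f hf hgf) (s4 e he f hf hef))
  · rw [Set.disjoint_left]
    rintro x rfl (hx | hx)
    · exact hed hx
    · exact hKC x heK (hYC hx)
  · rw [Set.disjoint_left]
    rintro x rfl (hx | hx)
    · exact hed' hx
    · exact hKC' x heK (hYC' hx)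
  · rw [Set.disjoint_left]
    rintro x (rfl | hx) (hx' | hx')
    · exact hdd hx'
    · exact hKC' x hd.1 (hYC' hx')
    · exact hKC x (hx' ▸ hd'.1) (hYC hx)
    · exact hdis x (hYC hx) (hYC' hx')
  · rintro (hx | hx)
    · exact hnd g hg hx
    · exact hgC (hYC hx)
  · rintro (hx | hx)
    · exact hnd' g hg hx
    · exact hgC' (hYC' hx)
  · rintro (hx | hx)
    · exact hnd e he hx
    · exact heY hx
  · rintro (hx | hx)
    · exact hnd' e he hx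
    · exact heC' (hYC' hx)
  · rintro (hx | hx)
    · exact hnd f hf hx
    · exact hfC (hYC hx)
  · rintro (hx | hx)
    · exact hnd' f hf hx
    · exact hfY hx
  · exact ⟨e, rfl, d, Or.inl rfl, hSt.kc e heK d hd.1 hed⟩
  · exact ⟨e, rfl, d', Or.inl rfl, hSt.kc e heK d' hd'.1 hed'⟩
  · exact ⟨d, Or.inl rfl, d', Or.inl rfl, hSt.kc d hd.1 d' hd'.1 hdd⟩
  · exact ⟨e, rfl, adjW hSt.wt hg he hge⟩
  · rintro p (rfl | hp)
    · exact hdn g hg
    · exact hoC g hg hgC p (hYC hp)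
  · rintro p (rfl | hp)
    · exact hdn' g hg
    · exact hoC' g hg hgC' p (hYC' hp)
  · exact ⟨y, Or.inr hy, hey⟩
  · rintro p rfl
    exact nadjW hSt.wt he
  · rintro p (rfl | hp)
    · exact hdn' e he
    · exact hoC' e he heC' p (hYC' hp)
  · exact ⟨e, rfl, adjW hSt.wt hf he hef.symm⟩
  · exact ⟨y', Or.inr hy', hfy⟩
  · rintro p (rfl | hp)
    · exact hdn f hf
    · exact hoC f hf hfC p (hYC hp)

end Pool.Agent.MPd439b2.H1M
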