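import Pool.Agent.Lib.MP_d439b2_co.H1M.Spec

/-!
# MP_d439b2_co, pair `(C_4, K3:0,1,02)`, type (M): S8, neutral components
-/

set_option autoImplicit false

namespace Pool.Agent.MPd439b2.H1M

open Pool.Agent.MPd439b2 Pool.Agent.MPd439b2.LK Pool.Agent.MPd439b2.H1

namespace S8Aux

variable {V : Type} {G : SimpleGraph V}

theorem comp_eq {X C C' : Set V} (hC : IsComp G X C) (hC' : IsComp G X C') {w : V} (h1 : w ∈ C)
    (h2 : w ∈ C') : C = C' := by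
  have e1 : C ∩ C' = C := by
    apply hC.2.1.eq_of_nb Set.inter_subset_left ⟨w, h1, h2⟩
    rintro u hu ⟨hu1, a, ha, hau⟩
    exact hC'.2.2 u (hC.1 hu) ⟨fun h => hu1 ⟨hu, h⟩, a, ha.2, hau⟩
  have e2 : C ∩ C' = C' := by
    apply hC'.2.1.eq_of_nb Set.inter_subset_right ⟨w, h1, h2⟩
    rintro u hu ⟨hu1, a, ha, hau⟩
    exact hC.2.2 u (hC'.1 hu) ⟨fun h => hu1 ⟨h, hu⟩, a, ha.1, hau⟩
  rw [← e1, e2]

theorem wt_not {T : Set V} {v : V → V} (hw : Wt G T v) {t : V} (ht : t ∈ T) : ¬ G.Adj (v t) t := by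
  have h : t ∈ Ms G T (v t) := by rw [(hw t ht).2]; rfl
  exact h.2

theorem wt_adj {T : Set V} {v : V → V} (hw : Wt G T v) {t s : V} (ht : t ∈ T) (hs : s ∈ T)
    (hne : s ≠ t) : G.Adj (v s) t := by
  by_contra h
  have h1 : t ∈ Ms G T (v s) := ⟨ht, h⟩
  rw [(hw s hs).2] at h1
  exact hne h1.symm

theorem mem_kP {K T : Set V} {v : V → V} (hS : St G K T v) {e : V} (he : e ∈ T) :
    e ∈ kP G K T v e :=
  ⟨hS.tk he, wt_not hS.wt he, fun _ hs hne => wt_adj hS.wt he hs hne⟩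

end S8Aux

open S8Aux in
/-- **S8.** -/
theorem pfS8 : H1.S_M4 → S_S0 → S_S1c → S_S5 → S_S6 → S_S8 := by
  intro hM4 hS0 hS1c hS5 hS6 V _ G K T v hS C C'' e he hIx hNt q hq hCq hC''q
  obtain ⟨h01, h02, h03, h04, _⟩ := hS0 V G K T v hS
  obtain ⟨hCn, t, ht, ct, hct, hct'⟩ := hIx
  obtain ⟨hCn'', hfull⟩ := hNt
  have hne : C ≠ C'' := by
    rintro rfl
    exact hct' (hfull e he t ht ct hct)
  have hnow : ∀ s ∈ T, v s ∉ C'' := by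
    intro s hs h
    exact wt_not hS.wt hs (hfull s hs s (mem_kP hS hs) (v s) h)
  have hC1 : ∀ c ∈ C, ¬ G.Adj c q := by
    intro c hc h
    obtain ⟨u, hu, huq⟩ := hC''q
    exact huq (hS5 V G K T v hS C C'' hCn hCn'' hne q hq ⟨c, hc, h⟩ hCq u hu)
  have hC2 : ∀ c ∈ C'', ¬ G.Adj c q := by
    intro c hc h
    obtain ⟨u, hu, huq⟩ := hCq
    exact huq (hS5 V G K T v hS C'' C hCn'' hCn hne.symm q hq ⟨c, hc, h⟩ hC''q u hu)
  have hveq : G.Adj (v e) q := hq.2 e he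
  have hveC : v e ∉ C := fun h => hC1 _ h hveq
  obtain ⟨hCt, hCD⟩ := hS6 V G K T v hS C hCn e he hveC t ht ⟨ct, hct, hct'⟩
  have hdisj : ∀ c ∈ C, ∀ u ∈ C'', ¬ G.Adj c u := by
    intro c hc u hu
    have hu1 : u ∉ C := fun h => hne (comp_eq hCn.1 hCn''.1 h hu)
    exact (h02 C hCn.1 u (hCn''.1.1 hu) hu1).2 c hc
  obtain ⟨u₀, hu₀⟩ := hCn''.1.2.1.1
  obtain ⟨c₀, hc₀⟩ := hCn.1.2.1.1
  refine ⟨hC1, hC2, ?_, ?_⟩
  · intro r hr hrC c₁ hc₁ h1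
    have hrD : r ∉ kD G K T v := fun h => hCD r h c₁ hc₁ h1
    have hrP : ∀ s ∈ T, r ∉ kP G K T v s := fun s hs h => hrC u₀ hu₀ (hfull s hs r h u₀ hu₀)
    have hrZ : r ∈ kZ G K T v := by
      rcases hS.hom r hr with h | h | ⟨s, hs, h⟩
      · exact absurd h hrD
      · exact h
      · exact absurd h (hrP s hs)
    have hqr : q ≠ r := by
      rintro rfl
      exact hC1 c₁ hc₁ h1
    have h2 := hM4 V G K r r t q c₁ u₀ (v e) hS.cls hS.kc hr hr ht.1 hq.1 (hCn.1.1 hc₁)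
      (hCn''.1.1 hu₀) (h01 e he) hqr h1 (hCt c₁ hc₁) (hC1 c₁ hc₁) (hfull e he t ht u₀ hu₀)
      (hrC u₀ hu₀) (hrC u₀ hu₀) (hC2 u₀ hu₀) (hrZ.2 e he) hveq ht.2.1 (hdisj c₁ hc₁ u₀ hu₀)
      ((h03 C hCn.1 e he hveC).2 c₁ hc₁)
    exact (h03 C'' hCn''.1 e he (hnow e he)).2 u₀ hu₀ h2
  · intro r hr u hu h1
    obtain ⟨g, hg, hge, hgC, hgC'', hfC, hfC''⟩ := hS1c V G K T v hS C C'' hCn hCn'' e
    have hrg : r ≠ g := by
      rintro rfl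
      exact hr.2 e he (wt_adj hS.wt hg he (Ne.symm hge))
    have h2 := hM4 V G K g g q r c₀ (v g) u hS.cls hS.kc (hS.tk hg) (hS.tk hg) hq.1 hr.1
      (hCn.1.1 hc₀) (h01 g hg) (hCn''.1.1 hu) hrg (hfC c₀ hc₀) (hC1 c₀ hc₀) (hCD r hr c₀ hc₀)
      (hq.2 g hg) (wt_not hS.wt hg) (wt_not hS.wt hg) (hr.2 g hg) (hfC'' u hu) h1 (hC2 u hu)
      ((h03 C hCn.1 g hg hgC).2 c₀ hc₀) (hdisj c₀ hc₀ u hu)
    exact (h03 C'' hCn''.1 g hg hgC'').2 u hu h2.symm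

end Pool.Agent.MPd439b2.H1M
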