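import Pool.Agent.Lib.MP_d439b2_co.H1.Spec2
import Pool.Agent.Lib.MP_d439b2_co.H1P.Spec

/-!
# MP_d439b2_co, pair `(C_4, K3:0,1,02)`: no long linked cliques of type (M) (note 2657)

`H1 = K3:0,1,02` is the triangle `0, 1, 2` with three more pairwise non-adjacent vertices `x ~ 0`, `y ~ 1`,
`z ~ 0, 2`, the graph `KA 3 3 ![{0}, {1}, {0, 2}]`.  The models are given by `H1.S_M0` (sets), `H1.S_M1` (vertices),
`H1.S_M4` (triangle in a clique `K`, the conclusion is `G.Adj y z`, so `y ≁ z` gives a contradiction).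

Every `S_...` is a statement to be proved in its own file; the docstring contains the complete
proof.  `a ~ b` means `G.Adj a b`, `a ≁ b` its negation, `|A|` is `A.ncard`, `Ms G T w` (`B/SpecG.lean`) is the set
of the elements of `T` which are not adjacent to `w` (the missed set of `w`, used for `w ∉ T`).  The tasks are
independent: the statements that are used are hypotheses of the theorem.

`M4: a, a', b, c; x, y, z` means: apply `S_M4` with these values.  One has to check: `a, a', b, c ∈ K`,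
`x, y, z ∉ K`, `c ≠ a'`, `x ~ a`, `x ≁ b, c`, `y ~ b`, `y ≁ a, a', c`, `z ~ a', c`, `z ≁ b`, `x ≁ y`, `x ≁ z`; the result is `y ~ z`.
-/

set_option autoImplicit false

namespace Pool.Agent.MPd439b2.H1M

open Pool.Agent.MPd439b2 Pool.Agent.MPd439b2.LK Pool.Agent.MPd439b2.H1

section

variable {V : Type} (G : SimpleGraph V)

/-- the clique `T` is of type (M): every vertex outside misses nothing, everything or exactly one element of
`T`, and every element of `T` is missed by some vertex which misses nothing else -/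
def TM (T : Set V) : Prop := CompleteOn G T ∧
  (∀ w, w ∉ T → Ms G T w = ∅ ∨ Ms G T w = T ∨ ∃ s ∈ T, Ms G T w = {s}) ∧
    ∀ s ∈ T, ∃ w, w ∉ T ∧ Ms G T w = {s}

/-- `v t` is a witness for `t`: it misses exactly the element `t` of `T` -/
def Wt (T : Set V) (v : V → V) : Prop := ∀ t ∈ T, v t ∉ T ∧ Ms G T (v t) = {t}

/-- `w` is outside `C` and has no neighbour in `C` -/
def Out (C : Set V) (w : V) : Prop := w ∉ C ∧ ∀ c ∈ C, ¬ G.Adj c w

/-- different elements of `T` have their witnesses in different components of `G - K` -/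
def Sep (K T : Set V) (v : V → V) : Prop :=
  ∀ C, IsComp G Kᶜ C → ∀ t ∈ T, ∀ t' ∈ T, v t ∈ C → v t' ∈ C → t = t'

/-- a nested chain of length `h`: cliques `K i ⊇ T`, components `Φ i` of `G - K i` (`1 ≤ i ≤ h`), `Φ 1 ⊇ Φ 2 ⊇ ...`,
elements `t 0, ..., t h` of `T` with `v (t j) ∈ Φ i` iff `i ≤ j` -/
def Chn (T : Set V) (v : V → V) (h : ℕ) (K Φ : ℕ → Set V) (t : ℕ → V) : Prop :=
  (∀ i, 1 ≤ i → i ≤ h → CompleteOn G (K i) ∧ T ⊆ K i ∧ IsComp G (K i)ᶜ (Φ i)) ∧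
    (∀ i j, 1 ≤ i → i ≤ j → j ≤ h → Φ j ⊆ Φ i) ∧ (∀ j, j ≤ h → t j ∈ T) ∧
      ∀ i j, 1 ≤ i → i ≤ h → j ≤ h → (v (t j) ∈ Φ i ↔ i ≤ j)

/-- the star setting without regularity -/
structure St0 (K T : Set V) (v : V → V) : Prop where
  cls : Cls1 G
  tm : TM G T
  kc : CompleteOn G K
  tk : T ⊆ K
  wt : Wt G T v
  sep : Sep G K T v

/-- the vertices of `K` which are missed by all witnesses -/
def kD (K T : Set V) (v : V → V) : Set V := {k | k ∈ K ∧ ∀ s ∈ T, ¬ G.Adj (v s) k}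

/-- the vertices of `K` which are seen by all witnesses -/
def kZ (K T : Set V) (v : V → V) : Set V := {k | k ∈ K ∧ ∀ s ∈ T, G.Adj (v s) k}

/-- the vertices of `K` which are missed by the witness of `e` and seen by all others -/
def kP (K T : Set V) (v : V → V) (e : V) : Set V :=
  {k | k ∈ K ∧ ¬ G.Adj (v e) k ∧ ∀ s ∈ T, s ≠ e → G.Adj (v s) k}

/-- the star setting -/
structure St (K T : Set V) (v : V → V) : Prop extends St0 G K T v where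
  big : 6 ≤ T.ncard
  hom : ∀ k ∈ K, k ∈ kD G K T v ∨ k ∈ kZ G K T v ∨ ∃ e ∈ T, k ∈ kP G K T v e

/-- all vertices of `C` miss all of `T` -/
def T0 (T C : Set V) : Prop := ∀ u ∈ C, Ms G T u = T

/-- `C` is a component of `G - K`, not of type 0 -/
def Cn (K T C : Set V) : Prop := IsComp G Kᶜ C ∧ ¬ T0 G T C

/-- `C` is a component of `G - K`, not of type 0, which is not complete to `P e`: (first) index `e` -/
def Ix (K T : Set V) (v : V → V) (C : Set V) (e : V) : Prop :=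
  Cn G K T C ∧ ∃ t ∈ kP G K T v e, ∃ c ∈ C, ¬ G.Adj c t

/-- `C` is neutral: a component of `G - K`, not of type 0, complete to all `P e` -/
def Nt (K T : Set V) (v : V → V) (C : Set V) : Prop :=
  Cn G K T C ∧ ∀ e ∈ T, ∀ t ∈ kP G K T v e, ∀ c ∈ C, G.Adj c t

/-- the elements of `Z` to which some component of first index `e` is not complete -/
def Ze (K T : Set V) (v : V → V) (e : V) : Set V :=
  {q | q ∈ kZ G K T v ∧ ∃ C, Ix G K T v C e ∧ ∃ c ∈ C, ¬ G.Adj c q}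

/-- `C` has second index `e`: it is neutral and not complete to `Ze e` -/
def I2 (K T : Set V) (v : V → V) (C : Set V) (e : V) : Prop :=
  Nt G K T v C ∧ ∃ q ∈ Ze G K T v e, ∃ c ∈ C, ¬ G.Adj c q

/-- the elements of `Z`, in no `Ze f`, to which some component of second index `e` is not complete -/
def Zp (K T : Set V) (v : V → V) (e : V) : Set V :=
  {q | q ∈ kZ G K T v ∧ (∀ f ∈ T, q ∉ Ze G K T v f) ∧ ∃ C, I2 G K T v C e ∧ ∃ c ∈ C, ¬ G.Adj c q}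

/-- `Z⁺_e` -/
def Zq (K T : Set V) (v : V → V) (e : V) : Set V := Ze G K T v e ∪ Zp G K T v e

end

/-! ## basic facts -/

/-- **B1.** Crossing traces.  (Uses `S_M2`.)

Proof. Otherwise M2 for `u, a, b, w`: `u ~ a`, `a ~ b` (`a ≠ b` since `u ~ a`, `u ≁ b`), `b ~ w`, `w ~ u`, `u ≠ b`, `a ≠ w`
(`u, w ∉ K`): `u ~ b` or `a ~ w`, contradiction. -/
def S_B1 : Prop := ∀ (V : Type) (G : SimpleGraph V) (K : Set V) (a b u w : V), Chd G →
  CompleteOn G K → a ∈ K → b ∈ K → u ∉ K → w ∉ K → G.Adj u a → ¬ G.Adj u b → G.Adj w b →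
  ¬ G.Adj w a → ¬ G.Adj u w

/-- **B2.** Sequences, subsets.

Proof. (1) `T = rg s m`; `w ∉ T` is `Ot s m w`; `Ms G T w = {s i | i ∈ Tr G s m w}`: the missed sets are the images of the
missed index sets; `s` is injective on the indices `< m` by `Sq` (`G.Adj` is irreflexive), `T` is the image of
`Set.Iio m`.
(2) `w ∉ T'`: if `w ∈ T` then `Ms G T' w = ∅` (`T` is a clique); otherwise `Ms G T' w = Ms G T w ∩ T'`.  Witnesses of
`s ∈ T'` for `T` are witnesses for `T'`.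
(3) The same.  (4) `T' ∩ X ⊆ T ∩ X`, `T' \ X ⊆ T \ X`.  (5) The witnesses are outside `T`, choice. -/
def S_B2 : Prop := ∀ (V : Type) [Finite V] (G : SimpleGraph V),
  (∀ (s : ℕ → V) (m : ℕ), Sq G s m → TyM G s m → TM G (rg s m) ∧ (rg s m).ncard = m) ∧
  (∀ T T' : Set V, TM G T → T' ⊆ T → TM G T') ∧
  (∀ (T T' : Set V) (v : V → V), Wt G T v → T' ⊆ T → Wt G T' v) ∧
  (∀ (T T' : Set V) (q : ℕ), Lk G T q → T' ⊆ T → Lk G T' q) ∧
  ∀ T : Set V, TM G T → ∃ v : V → V, Wt G T v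

/-- **P1.** The pair rule.  (Uses `S_M0`, `S_A7`.)

Proof. A7 with `A = {k₁, k₂}` gives `c₀ ∈ C` which sees both.  Suppose that `c₁ ∈ C` sees `k₁` and not `k₂` (the other case is
the same with `k₁, x` and `k₂, y` exchanged).  `B = {c ∈ C | c ~ k₁, c ≁ k₂}`, `P` = component of `c₀` in `G[C \ B]`
(`exists_comp`).  `P ≠ C` since `c₁ ∈ B`; `C` is connected: there are `p ∈ P`, `d ∈ C \ P` with `p ~ d`; `d ∈ B` (otherwise
`d ∈ C \ B` would be in `nb G P`).  M0 with `P0 = {k₁}`, `P1 = {k₂}`, `P2 = P`, `x = x`, `y = y`, `z = d`: `k₁ ~ k₂`, `c₀ ~ k₁, k₂`;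
`x ~ k₁`, `x ≁ k₂`, `x` misses `P`; `y ~ k₂`, `y ≁ k₁`, `y` misses `P`; `d ~ k₁`, `d ~ p`, `d ≁ k₂`; `x, y` miss `d ∈ C`.
(`x ≠ k₂`: `y ~ k₂` and `x ≁ y`; `y ≠ k₁`: `x ~ k₁`; `x ≠ k₁`, `y ≠ k₂`: adjacent.) -/
def S_P1 : Prop := ∀ (V : Type) [Finite V] (G : SimpleGraph V) (C : Set V) (k₁ k₂ x y : V), Cls1 G →
  Conn G C → k₁ ∉ C → k₂ ∉ C → Out G C x → Out G C y → G.Adj k₁ k₂ → ¬ G.Adj x y → G.Adj x k₁ →
  ¬ G.Adj x k₂ → G.Adj y k₂ → ¬ G.Adj y k₁ → (∃ c ∈ C, G.Adj c k₁) → (∃ c ∈ C, G.Adj c k₂) →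
  ∀ c ∈ C, (G.Adj c k₁ ↔ G.Adj c k₂)

/-! ## half graphs -/

/-- **TR.** Triangular families.

Proof. The vectors `r i` are linearly independent: in a linear relation `∑ α i • r i = 0` let `j` be the LARGEST index
with `α j ≠ 0` and evaluate at `c j`: `r i (c j) = 0` for `i < j`, so `0 = ∑ α i (r i (c j)) = α j`.  (Or: the matrix
`r i (c j)` is triangular with ones on the diagonal, its determinant is `1`: `Matrix.det_of_upperTriangular` /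
`det_of_lowerTriangular`.)  `k = finrank (span of the r i) ≤ rk G A B` (`Submodule.finrank_mono`, the space `V → ZMod 2`
is finite dimensional; `LinearIndependent.fintype_card_le_finrank` in the subspace). -/
def S_TR : Prop := ∀ (V : Type) [Finite V] (G : SimpleGraph V) (A B : Set V) (k : ℕ)
  (r : Fin k → V → ZMod 2) (c : Fin k → V),
  (∀ i, r i ∈ Submodule.span (ZMod 2) (row G B '' A)) → (∀ i, r i (c i) = 1) →
    (∀ i j, i < j → r i (c j) = 0) → k ≤ rk G A B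

/-- **HR.** Rank of a half graph with its base.  (Uses `S_TR`.)

Proof. `I₁ = {i < n | y i ∈ X}`, `I₂ = {i < n | y i ∉ X}`.  CLAIM 1: `|I₁| ≤ cr G X`.  Enumerate `I₁` increasingly; TR with the rows
`row G Xᶜ (y i)`, columns `a j` (`∉ X`), `i, j ∈ I₁`: the entry is `1` iff `j ≤ i`; so it is `1` on the diagonal and `0` for `i < j`.
CLAIM 2: `|I₂| ≤ cr G X + 1`.  If `I₂` is not empty fix `i₀ ∈ I₂`; for `i ∈ I₂ \ {i₀}` the vector
`row G Xᶜ (t i) + row G Xᶜ (t i₀)` is in the span; at the column `y j` (`∉ X`), `j ∈ I₂ \ {i₀}`, its value is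
`[i ≠ j] + [i₀ ≠ j] = [i ≠ j] + 1`: `1` for `i = j`, `0` for `i ≠ j`.  TR (any enumeration). -/
def S_HR : Prop := ∀ (V : Type) [Finite V] (G : SimpleGraph V) (t y a : ℕ → V) (n : ℕ) (X : Set V),
  (∀ i, i < n → ∀ j, j < n → (G.Adj (y i) (a j) ↔ j ≤ i)) →
  (∀ i, i < n → ∀ j, j < n → (G.Adj (t i) (y j) ↔ i ≠ j)) →
  (∀ i, i < n → t i ∈ X ∧ a i ∉ X) → n ≤ 2 * cr G X + 1

/-- **IX.** Independent sets or a small cut.  (Uses `S_A2`.)

Proof. `H1P.Ind G S₀ J`: `|J \ X| ≤ cr G X` for all `X ⊇ S₀`.  `∅` is independent; let `J ⊆ A` be independent of maximal size.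
Subsets of independent sets are independent, so if `m ≤ |J|` we are in the first case.  Let `|J| < m`.  Call `X` tight if
`S₀ ⊆ X` and `cr G X = |J \ X|`.  `univ` is tight (`cr G univ = cr G ∅ = 0`).  Let `X` be a tight set of minimal size.
Tight sets `X, Y` have tight intersection: `cr G (X ∩ Y) ≤ cr G X + cr G Y - cr G (X ∪ Y) ≤
|J \ X| + |J \ Y| - |J \ (X ∪ Y)| = |J \ (X ∩ Y)|` (independence for `X ∪ Y`), and `≥` by independence.  So `X` is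
contained in every tight set.  Let `a ∈ A ∩ X`, `a ∉ S₀`.  If `a ∈ J`: `cr G (X \ {a}) ≤ cr G X + 1 = |J \ X| + 1 =
|J \ (X \ {a})|` (`X \ {a}` is the complement of `Xᶜ ∪ {a}`), so `X \ {a}` is tight and smaller: contradiction.  If `a ∉ J` then
`insert a J` is not independent (maximality): there is `Y ⊇ S₀` with `|insert a J \ Y| > cr G Y ≥ |J \ Y|`; so `a ∉ Y` and
`Y` is tight, `X ⊆ Y`: contradiction.  So `X` is disjoint from `A`, `cr G X = |J \ X| < m`. -/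
def S_IX : Prop := ∀ (V : Type) [Finite V] (G : SimpleGraph V) (S₀ A : Set V) (m : ℕ),
  Disjoint S₀ A → (∃ J ⊆ A, J.ncard = m ∧ H1P.Ind G S₀ J) ∨
    ∃ X, S₀ ⊆ X ∧ Disjoint X A ∧ cr G X < m

/-- **HG.** No long half graphs over a linked clique of type (M).  (Uses `S_B2`, `S_HR`, `S_IX`, `S_Reg2`, `S_NoI` and
`H1P.S_L2`.)

Proof. `m₁` from NoI for `q + 1`, `m₂ = max m₁ 3`, `N` from Reg2 for `q + 1`, `m₂`; `n = 2 * N + 2`.
`S₀ = {t i | i < n} ⊆ T`, `A = {a i | i < n}`; they are disjoint (`a i ∉ T`).  `S₀` is linked (B2 (4)); `H1P.Lnk G q S₀` is the same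
as `Lk G S₀ q`.  `t i ~ y j` iff `i ≠ j` (`Ms G T (y j) = {t j}`).  IX with `m = N`.
Second case: `X ⊇ S₀`, `X` disjoint from `A`, `cr G X < N`; HR: `n ≤ 2 * cr G X + 1 < 2 * N + 1`: contradiction.
First case: `J ⊆ A`, `|J| = N`, `Ind G S₀ J`, so `J` is linked with constant `q + 1` (`H1P.S_L2`), and a clique.  Reg2 gives
`s` with `s i ∈ J` (`i < m₂`), `Sq G s m₂` and `TyM` or `TyI`.  `TyI G s m₂`: restrict to `m₁` (`H1.S_R11`, or take
`m₂` with NoI for `m₁` and note that the initial part of length `m₁` is of type I), `rg s m₁ ⊆ J` is linked: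
contradiction to NoI.  `TyM G s m₂`: `s i = a (σ i)`, `σ` injective on `i < m₂`, `m₂ ≥ 3`.  Let `σ i₀` be the smallest of the
values `σ i`, `i < m₂`; `w = y (σ i₀)` sees `s i₀` and misses all other `s i` (`i < m₂`; `σ i > σ i₀`).  `w` is outside the
sequence (`Ot`): `w ≠ s i₀` (adjacent), and if `w = s i₁`, `i₁ ≠ i₀`, then `w` sees all `s i`, `i ≠ i₁`, but there is an `i < m₂`,
`i ≠ i₀, i₁`, which it misses.  So `Tr G s m₂ w = {i < m₂ | i ≠ i₀}`, at least two elements and not everything: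
contradiction to `TyM`.  (Uses `S_R11` too.) -/
def S_HG : Prop := ∀ q : ℕ, ∃ n : ℕ, ∀ (V : Type) [Finite V] (G : SimpleGraph V) (T : Set V)
  (t y a : ℕ → V), Cls1 G → TM G T → Lk G T q →
  (∀ i, i < n → t i ∈ T ∧ y i ∉ T ∧ Ms G T (y i) = {t i} ∧ a i ∉ T) →
  (∀ i, i < n → ∀ j, j < n → i ≠ j → t i ≠ t j ∧ G.Adj (a i) (a j)) →
  (∀ i, i < n → ∀ j, j < n → (G.Adj (y i) (a j) ↔ j ≤ i)) → False

/-! ## star or nested -/

/-- **SN1.** The next clique.  (Uses `S_A7`.)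

Proof. `T ⊆ nb G Φ`: let `t ∈ T`; `t ≠ s` or `t ≠ s'`, say `t ≠ s`; then `v s ~ t` (`Ms G T (v s) = {s}`), `v s ∈ Φ`, `t ∉ Φ` (`Φ ⊆ Kᶜ`).
`nb G Φ ⊆ K` (`IsComp`), so it is a clique.  A7 with `A = nb G Φ`, `C = Φ` gives `x ∈ Φ` complete to `nb G Φ`.
`K' = insert x (nb G Φ)` is a clique, it contains `T`.  `v t ∉ K'` for `t ∈ T`: `t ∈ K'`, `v t ≠ t`, `v t ≁ t`.  Let `C` be a component
of `G[K'ᶜ]` which meets `Φ`.  An element of `C` adjacent to an element of `C ∩ Φ` is in `Φ` or in `nb G Φ ⊆ K'`, so it is in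
`Φ`: `C ∩ Φ = C` (`Conn.eq_of_nb`).  `x ∈ Φ \ C`. -/
def S_SN1 : Prop := ∀ (V : Type) [Finite V] (G : SimpleGraph V) (K T Φ : Set V) (v : V → V) (s s' : V),
  Chd G → CompleteOn G K → T ⊆ K → Wt G T v → IsComp G Kᶜ Φ → s ∈ T → s' ∈ T → s ≠ s' → v s ∈ Φ →
  v s' ∈ Φ → ∃ K', CompleteOn G K' ∧ T ⊆ K' ∧ (∀ t ∈ T, v t ∉ K') ∧
    ∀ C, IsComp G K'ᶜ C → (C ∩ Φ).Nonempty → C ⊂ Φ

/-- **SN2.** Pigeonhole for components.

Proof. `v t`, `v t'` are in the same component: there is `C` with `IsComp G X C`, `v t, v t' ∈ C`.  Two components which meet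
are equal (`Conn.eq_of_nb`).  Let `T' ⊆ U` be a set of maximal size such that no component contains `v t`, `v t'` for different
elements `t, t'` of `T'`.  If `m ≤ |T'|` take a subset of size `m`.  Otherwise every `u ∈ U` is in the same component as
some `t' ∈ T'` (maximality; for `u ∈ T'` take `t' = u` and `exists_comp`).  If the second case does not hold either then for
every `t' ∈ T'` there are at most `n` elements of `U` in the component of `v t'` (`n + 1 ≤` would give the second case), so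
`|U| ≤ |T'| * n ≤ m * n`: contradiction. -/
def S_SN2 : Prop := ∀ (V : Type) [Finite V] (G : SimpleGraph V) (X U : Set V) (v : V → V) (m n : ℕ),
  (∀ t ∈ U, v t ∈ X) → m * n < U.ncard →
  (∃ T' ⊆ U, T'.ncard = m ∧ ∀ C, IsComp G X C → ∀ t ∈ T', ∀ t' ∈ T', v t ∈ C → v t' ∈ C → t = t') ∨
    ∃ C, IsComp G X C ∧ n < {t | t ∈ U ∧ v t ∈ C}.ncard

/-- **SN3.** Star or nested.  (Uses `S_SN1`, `S_SN2`.)

Proof. Fix `m`.  CLAIM(h): there is `N` such that for all `G, T, v` as in the statement, every clique `K ⊇ T` and every component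
`Φ` of `G - K` with `N < |{t ∈ T | v t ∈ Φ}|` there is a star, or a chain `Chn G T v h K' Φ' t` with `v (t j) ∈ Φ` for all
`j ≤ h` and `Φ' i ⊆ Φ` for all `1 ≤ i ≤ h`.
CLAIM(0): `N = 0`, take `t 0` with `v (t 0) ∈ Φ` (`Chn` of length `0` is only `t 0 ∈ T`).
CLAIM(h) with `N` implies CLAIM(h+1) with `N' = m * N + 2`: strong induction on `|Φ|`.  Let `U = {t ∈ T | v t ∈ Φ}`, `N' < |U|`.
SN1 with two elements `s ≠ s'` of `U` gives `K'`.  SN2 for `X = K'ᶜ`, `U`, `m`, `n = N`: first case: star (`K'`, `T' ⊆ U`).  Second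
case: but here we take the component `C` such that `U_C = {t ∈ U | v t ∈ C}` has more than `N` elements.  `C` meets `Φ`, so
`C ⊂ Φ`.  If `U_C = U` use the induction (`|C| < |Φ|`) for `K'`, `C` (same `h + 1`; `{t ∈ T | v t ∈ C} = U_C = U` since `C ⊆ Φ`).
Otherwise let `t₀ ∈ U \ U_C`, and take the chain from CLAIM(h) for `K'`, `C`; the new chain: `t 0 = t₀`, `t (j + 1)` = old `t j`,
`Φ 1 = C`, `K 1 = K'`, `Φ (i + 1)` = old `Φ i`, `K (i + 1)` = old `K i` (`i ≥ 1`).  Check `v (t j) ∈ Φ i` iff `i ≤ j`: `v t₀ ∉ C`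
(`v t₀ ∈ Φ`, `t₀ ∉ U_C`) and `Φ i ⊆ C`; for `j ≥ 1`, `i = 1`: old `v (t (j-1)) ∈ C`; `i ≥ 2`: the old property for `i - 1`, `j - 1`.
RESULT: `N` from CLAIM(h), final number `m * N + 1`: start with `K = T` (`v t ∉ T`): SN2 for `X = Tᶜ`, `U = T`. -/
def S_SN3 : Prop := ∀ m h : ℕ, ∃ N : ℕ, ∀ (V : Type) [Finite V] (G : SimpleGraph V) (T : Set V)
  (v : V → V), Chd G → CompleteOn G T → Wt G T v → N ≤ T.ncard →
  (∃ K T', CompleteOn G K ∧ T ⊆ K ∧ T' ⊆ T ∧ T'.ncard = m ∧ Sep G K T' v) ∨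
    ∃ K Φ t, Chn G T v h K Φ t

/-! ## nested chains are bounded -/

/-- **N0.** Type 0.  (Uses `S_M1`, `S_B1`.)

Proof. Otherwise, since `C` is connected, there are `p ~ u` in `C` with `Ms G T u = T`, `Ms G T p ≠ T` (apply `Conn` to
`{u ∈ C | Ms G T u = T}`).  `Ms G T p` is empty or `{a₀}`, `a₀ ∈ T`.  Let `{a, b, c} = {t₀, t₁, t₂}` with `a, b ≠ a₀` in the second
case.  M1 with `a = a' = a`, `b := p`, `c := b`, `x = v b`, `y = u`, `z = v c`: `p ~ a, b`, `a ~ b`; `v b ~ a`, `v b ≁ b`, `v b ≁ p` (`Out`);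
`u ~ p`, `u ≁ a, b`; `v c ~ a, b`, `v c ≁ p`; `v b ≁ v c` (B1 with `K = T`: `v b ~ c`, `v b ≁ b`, `v c ~ b`, `v c ≁ c`), `v b, v c ≁ u` (`Out`). -/
def S_N0 : Prop := ∀ (V : Type) [Finite V] (G : SimpleGraph V) (T C : Set V) (v : V → V) (t₀ t₁ t₂ : V),
  Cls1 G → TM G T → Wt G T v → Conn G C → Disjoint C T → t₀ ∈ T → t₁ ∈ T → t₂ ∈ T → t₀ ≠ t₁ →
  t₀ ≠ t₂ → t₁ ≠ t₂ → Out G C (v t₀) → Out G C (v t₁) → Out G C (v t₂) →
  (∀ u ∈ C, Ms G T u = T) ∨ ∀ u ∈ C, Ms G T u ≠ T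

/-- **N1a.** One more colour.  (Uses `S_M0`, `S_B1`.)

Proof. Write `W e = {w ∈ Φ | Ms G T w = {e}}`; `w ∈ Φ` touches `W e` if it is adjacent to an element of `W e`.  Full: `Ms G T w = ∅`.
(i) If `w ∈ Φ \ W e` is adjacent to `y ∈ W e` then `w` is full: otherwise `Ms G T w = {e'}`, `e' ≠ e` (it is not `T`), and `w ≁ y` by
B1 with `K = T` (`w ~ e`, `w ≁ e'`, `y ~ e'`, `y ≁ e`).
If `a` touches `W g` take `b = a`.  Otherwise let `R = {b ∈ Φ | b ∉ W g, b` does not touch `W g}`, `a ∈ R` (`a` is full), `P` the component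
of `a` in `G[R]` (`exists_comp`).  `P ≠ Φ` since `W g` is not empty.  `Conn G Φ`: there are `p ∈ P`, `b ∈ Φ \ P`, `p ~ b`.  `b ∉ R` (`P` is a
component); `b ∉ W g` (`p` does not touch `W g`); so `b` touches `W g`: `b ~ y_g ∈ W g`; `b` is full by (i).
CLAIM: `b` touches `W e` for all `e ∈ E`.  Suppose not.  `P⁺ = insert b P` is connected.  `D = {d ∈ P | d ∈ W e` or `d` touches `W e}`,
`a ∈ D`.  Let `Q` be the component of `b` in `G[P⁺ \ D]` (`b ∉ D` since `b ∉ P`).  `Q ≠ P⁺` (`a ∉ Q`): there are `q ∈ Q`,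
`r ∈ P⁺ \ Q`, `q ~ r`; `r ∈ D` (`Q` is a component), so `r ∈ P`.  `q` does not touch `W e` (`q = b`: assumption; `q ∈ P`: `q ∉ D`), so
`r ∉ W e`, hence `r` touches `W e`: `r ~ y_e ∈ W e`, and `r` is full by (i).  M0 with `P0 = {e}`, `P1 = {r}`, `P2 = Q`, `x = v t₀`, `y = y_e`,
`z = y_g`: `e ~ r`, `e ~ b ∈ Q` (full), `r ~ q`; `v t₀ ~ e` (`e ≠ t₀`), `v t₀` misses `r`, `Q` (`Out G Φ`); `y_e ~ r`, `y_e ≁ e`, `y_e` misses `Q`
(see above: no element of `Q` touches `W e`); `y_g ~ e` (`e ≠ g`), `y_g ~ b`, `y_g ≁ r` (`r ∈ P ⊆ R`); `v t₀ ≁ y_e, y_g`; `y_e ≁ y_g` (B1).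
Not in the sets: `Φ` and `T` are disjoint, `e ∈ T`; `v t₀ ∉ Φ ∪ T`; `y_e ∉ Q` (`b` is full, `Q ∩ D = ∅`), `y_e ≠ r`; `y_g ∉ P` (`P ⊆ R`),
`y_g ≠ b`, `y_g ≠ r`; `r ∉ Q`. -/
def S_N1a : Prop := ∀ (V : Type) [Finite V] (G : SimpleGraph V) (T Φ E : Set V) (v : V → V)
  (t₀ g a : V), Cls1 G → TM G T → Wt G T v → Conn G Φ → Disjoint Φ T → (∀ u ∈ Φ, Ms G T u ≠ T) →
  t₀ ∈ T → Out G Φ (v t₀) → E ⊆ T → t₀ ∉ E → g ∈ T → g ∉ E → g ≠ t₀ → a ∈ Φ → Ms G T a = ∅ →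
  (∀ e ∈ E, ∃ w ∈ Φ, Ms G T w = {e} ∧ G.Adj a w) → (∃ w ∈ Φ, Ms G T w = {g}) →
  ∃ b ∈ Φ, Ms G T b = ∅ ∧ ∀ e ∈ insert g E, ∃ w ∈ Φ, Ms G T w = {e} ∧ G.Adj b w

/-- **N1.** A full vertex which touches all colours.  (Uses `S_B1`, `S_N1a`.)

Proof. Let `E' ⊆ E` be a set of maximal size such that there is a full `a ∈ Φ` which is adjacent, for all `e ∈ E'`, to some `w ∈ Φ`
with `Ms G T w = {e}`.  There is such a set (`E' = ∅`) because `Φ` contains a full vertex: let `e ≠ e'` be in `E`; apply `Conn` to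
`{w ∈ Φ | Ms G T w = {e}}` (not empty, not `Φ`): `w ~ u` with `Ms G T w = {e}`, `Ms G T u ≠ {e}`; if `u` were not full then
`Ms G T u = {e''}`, `e'' ≠ e`, contradiction to B1.  If `g ∈ E \ E'` then N1a gives the set `insert g E'`, contradiction to the
maximality.  So `E' = E`. -/
def S_N1 : Prop := ∀ (V : Type) [Finite V] (G : SimpleGraph V) (T Φ E : Set V) (v : V → V) (t₀ : V),
  Cls1 G → TM G T → Wt G T v → Conn G Φ → Disjoint Φ T → (∀ u ∈ Φ, Ms G T u ≠ T) →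
  t₀ ∈ T → Out G Φ (v t₀) → E ⊆ T → t₀ ∉ E → (∃ e ∈ E, ∃ e' ∈ E, e ≠ e') →
  (∀ e ∈ E, ∃ w ∈ Φ, Ms G T w = {e}) →
  ∃ a ∈ Φ, Ms G T a = ∅ ∧ ∀ e ∈ E, ∃ w ∈ Φ, Ms G T w = {e} ∧ G.Adj a w

/-- **N2.** The vertices `a i`.  (Uses `S_N0`, `S_N1`.)

Proof. Let `3 ≤ i < h` (choose `a i` arbitrary for the other `i`).  `t` is injective on `j ≤ h` (`j < j'`: `v (t j') ∈ Φ j'`,
`v (t j) ∉ Φ j'`).  `Φ i` is disjoint from `T ⊆ K i`.  For `j < i`: `v (t j) ∉ Φ i`, `v (t j) ∉ K i` (`t j ∈ K i`, `v (t j) ≁ t j`,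
`v (t j) ≠ t j` since it is not in `T`), so `Out G (Φ i) (v (t j))` (`Φ i` is a component of `G - K i`).  N0 with `C = Φ i`, `t 0, t 1, t 2`: since
`v (t i) ∈ Φ i` misses only `t i ≠ t 0` no vertex of `Φ i` misses all of `T`.  N1 with `Φ = Φ i`, `E = {t l | i ≤ l ≤ h}`, `t₀ = t 0`
(witnesses `w = v (t l)`). -/
def S_N2 : Prop := ∀ (V : Type) [Finite V] (G : SimpleGraph V) (T : Set V) (v : V → V) (h : ℕ)
  (K Φ : ℕ → Set V) (t : ℕ → V), Cls1 G → TM G T → Wt G T v → Chn G T v h K Φ t →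
  ∃ a : ℕ → V, ∀ i, 3 ≤ i → i < h → a i ∈ Φ i ∧ Ms G T (a i) = ∅ ∧
    ∀ l, i ≤ l → l ≤ h → ∃ w ∈ Φ i, Ms G T w = {t l} ∧ G.Adj (a i) w

/-- **N3.** `a` in `Φ j` is anticomplete to the smaller colours.  (Uses `S_M1`, `S_B1`.)

Proof. Suppose `a ~ w`.  `t i ∈ K j`, `w ≁ t i`, `w ≠ t i`, so `w ∉ K j`; `a ∈ Φ j`, a component of `G - K j`: `w ∈ Φ j`.  Let `l ∈ {0, 1}`, `l ≠ i`; `l < j`.
`v (t i)`, `v (t l)` are not in `Φ j` and not in `K j` (`v (t i) ≁ t i ∈ K j`), so they have no neighbours in `Φ j`.  `t i ≠ t l` (`t` is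
injective on the indices `≤ h`: for `p < p'` we have `v (t p') ∈ Φ p'`, `v (t p) ∉ Φ p'`).  M1 with `a = a' = t l`, `b = t i`, `c = a`,
`x = v (t i)`, `y = v (t l)`, `z = w`: `t i ~ t l`, `a ~ t l, t i` (full); `v (t i) ~ t l`, `v (t i) ≁ t i, a`; `v (t l) ~ t i`, `v (t l) ≁ t l, a`;
`w ~ t l` (`l ≠ i`), `w ~ a`, `w ≁ t i`; `v (t i) ≁ v (t l)` (B1), `v (t i), v (t l) ≁ w ∈ Φ j`. -/
def S_N3 : Prop := ∀ (V : Type) [Finite V] (G : SimpleGraph V) (T : Set V) (v : V → V) (h : ℕ)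
  (K Φ : ℕ → Set V) (t : ℕ → V), Cls1 G → TM G T → Wt G T v → Chn G T v h K Φ t →
  ∀ i j, i < j → 3 ≤ j → j ≤ h → ∀ a ∈ Φ j, Ms G T a = ∅ → ∀ w, w ∉ T → Ms G T w = {t i} →
    ¬ G.Adj a w

/-- **N4.** `a` in `Φ i` belongs to the later cliques.  (Uses `S_M1`, `S_B1`, `S_N3`.)

Proof. Suppose `a ∉ K j`.  If `a ∈ Φ j`: N3 gives a contradiction (`w` with `Ms G T w = {t i}`; `w ∉ T` because `Φ i` is disjoint from
`T`).  So `a ∉ Φ j`.  Let `w ∈ Φ i`, `Ms G T w = {t j}`, `a ~ w`.  `w ∉ K j` (`w ≁ t j ∈ K j`, `w ≠ t j`).  `w ∉ Φ j`: otherwise `a` would be in `Φ j`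
(component).  M1 with `a = a' = t (j + 1)`, `b = t j`, `c = a`, `x = v (t j)`, `y = v (t (j + 1))`, `z = w`: `t j ~ t (j + 1)`,
`a ~ t j, t (j + 1)` (full); `v (t j) ∈ Φ j`: `~ t (j + 1)`, `≁ t j`, `≁ a` (`a ∉ K j ∪ Φ j`); `v (t (j + 1)) ∈ Φ j`: `~ t j`, `≁ t (j + 1), a`;
`w ~ t (j + 1), a`, `w ≁ t j`; `v (t j) ≁ v (t (j + 1))` (B1), `v (t j), v (t (j + 1)) ≁ w` (`w ∉ K j ∪ Φ j`). -/
def S_N4 : Prop := ∀ (V : Type) [Finite V] (G : SimpleGraph V) (T : Set V) (v : V → V) (h : ℕ)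
  (K Φ : ℕ → Set V) (t : ℕ → V), Cls1 G → TM G T → Wt G T v → Chn G T v h K Φ t →
  ∀ i j, 3 ≤ i → i < j → j < h → ∀ a ∈ Φ i, Ms G T a = ∅ →
    (∃ w ∈ Φ i, Ms G T w = {t j} ∧ G.Adj a w) → (∃ w ∈ Φ i, Ms G T w = {t i} ∧ G.Adj a w) → a ∈ K j

/-- **N5.** The largest trace on a clique.  (Uses `S_M1`, `S_M2`, `S_B1`.)

Proof. Let `W = {w ∉ T | Ms G T w = {s}}`.  Choose `y ∈ W` with the maximal number of neighbours in `A` (`W` is not empty, `w₀ ∈ W`).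
`y` has no neighbours in `A \ A'`.  Suppose that `y ≁ a'`, `a' ∈ A'`; let `y' ∈ W`, `y' ~ a'`.  If `y ≁ y'`: M1 with `a = a' := s₀`, `b = s`, `c = a'`,
`x = y`, `y = v₀`, `z = y'`: `s ~ s₀`, `a' ~ s₀, s` (full); `y ~ s₀`, `y ≁ s, a'`; `v₀ ~ s`, `v₀ ≁ s₀, a'`; `y' ~ s₀, a'`, `y' ≁ s`; `y ≁ v₀`,
`v₀ ≁ y'` (B1), `y ≁ y'`.  If `y ~ y'`: every neighbour `a ∈ A` of `y` is adjacent to `y'`: otherwise M2 for `y, a, a', y'` gives
`y ~ a'` or `a ~ y'`.  So `y'` has more neighbours in `A` than `y`: contradiction. -/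
def S_N5 : Prop := ∀ (V : Type) [Finite V] (G : SimpleGraph V) (T A A' : Set V) (s₀ s v₀ w₀ : V),
  Cls1 G → CompleteOn G T → CompleteOn G A → Disjoint A T → (∀ a ∈ A, Ms G T a = ∅) → s₀ ∈ T → s ∈ T →
  s₀ ≠ s → v₀ ∉ T → Ms G T v₀ = {s₀} → (∀ a ∈ A, ¬ G.Adj a v₀) → w₀ ∉ T → Ms G T w₀ = {s} → A' ⊆ A →
  (∀ a ∈ A', ∃ w, w ∉ T ∧ Ms G T w = {s} ∧ G.Adj a w) →
  (∀ a ∈ A, a ∉ A' → ∀ w, w ∉ T → Ms G T w = {s} → ¬ G.Adj a w) →
  ∃ y, y ∉ T ∧ Ms G T y = {s} ∧ ∀ a ∈ A, (G.Adj y a ↔ a ∈ A')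

/-- **N6.** Nested chains are bounded.  (Uses `S_HG`, `S_N2`, `S_N3`, `S_N4`, `S_N5`.)

Proof. `n` from HG for `q`, `h = n + 5`.  Let `a` be as in N2.  For `3 ≤ i < j ≤ n + 3`: `a i ∈ K j` (N4; `j < h`), and `a j ∈ Φ j` is not in
`K j`, so `a i ≠ a j`; for `3 ≤ i < j ≤ n + 2` both are in the clique `K (j + 1)` (N4, `j + 1 < h`): `a i ~ a j`.
Let `A = {a (i + 3) | i < n}`; it is disjoint from `T` (`a i ∈ Φ i`).  For `j < n` N5 with `s₀ = t 0`, `s = t (j + 3)`, `v₀ = v (t 0)`,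
`w₀ = v (t (j + 3))`, `A' = {a (i + 3) | i ≤ j}`: `a (i + 3)`, `i ≤ j`, is adjacent to some `w` with `Ms G T w = {t (j + 3)}` (N2, `w ∈ Φ (i + 3)`
is not in `T`), for `i > j` it is not (N3); `v (t 0)` has no neighbour in `A` (N3 with `i := 0`).  N5 gives `y j`; `y j ~ a (i + 3)` iff
`i ≤ j` (the `a (i + 3)` are different).  HG with `t (i + 3)`, `y i`, `a (i + 3)`. -/
def S_N6 : Prop := ∀ q : ℕ, ∃ h : ℕ, ∀ (V : Type) [Finite V] (G : SimpleGraph V) (T : Set V)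
  (v : V → V) (K Φ : ℕ → Set V) (t : ℕ → V), Cls1 G → TM G T → Lk G T q → Wt G T v →
  ¬ Chn G T v h K Φ t

/-! ## stars: the regular setting -/

/-- **S1a.** Two patterns.  (Uses `S_M4`, `S_B1`.)

Proof. M4: `a = a' = b`, `b := k'`, `c := k`; `x = v a`, `y = v b`, `z = v c`.  `v a ~ b`, `v a ≁ k', k`; `v b ~ k'`, `v b ≁ b, k`; `v c ~ b, k`, `v c ≁ k'`;
`v a, v b, v c` are pairwise not adjacent (B1 with `K := T`), `k ≠ b` (`v a ~ b`, `v a ≁ k`).  The witnesses are not in `K` (`v a ≁ a ∈ K`,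
`v a ≠ a`). -/
def S_S1a : Prop := ∀ (V : Type) [Finite V] (G : SimpleGraph V) (K T : Set V) (v : V → V)
  (a b c k k' : V), St0 G K T v → a ∈ T → b ∈ T → c ∈ T → a ≠ b → a ≠ c → b ≠ c → k ∈ K → k' ∈ K →
  ¬ G.Adj (v a) k → ¬ G.Adj (v b) k → G.Adj (v c) k → ¬ G.Adj (v a) k' → ¬ G.Adj (v c) k' →
  ¬ G.Adj (v b) k'

/-- **S1b.** Ramsey for families of subsets.  (Uses `H1.S_R0`.)

Proof. `M = max m (L + 4)`; `N` from R0 for `κ = Bool × Bool × Bool`, `m := M`.  Enumerate `N` elements of `T`: `τ 0, ..., τ (N - 1)`, different.  The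
colour of `i < j < k` says which of the patterns 110, 101, 011 occur: 110: there is `X ∈ 𝒲` with `τ i, τ j ∈ X`, `τ k ∉ X`, etc.  R0
gives `σ` (increasing); put `ρ i = τ (σ i)`, `i < M`, and the colour.  By hypothesis at most one of the three patterns occurs
(the hypothesis for `(a, b, c)` is symmetric in `b, c`; use it for `(ρ i, ρ j, ρ k)`, `(ρ j, ρ i, ρ k)`, `(ρ k, ρ i, ρ j)`).
None: `T' = {ρ i | i < m}`: if `X ∩ T'` has two elements then there is no element of `T' \ X`.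
101 is impossible: let `X` contain `ρ 0, ρ 2` and not `ρ 1`.  If `ρ 3 ∉ X`: pattern 110 for `(0, 2, 3)`; if `ρ 3 ∈ X`: pattern 011 for `(1, 2, 3)`.
110: a set `X ∈ 𝒲` which contains `ρ i, ρ j`, `i < j`, contains `ρ k` for all `k < j` (patterns 011 and 101 do not occur).  For
`p < L` let `X p` be a set of pattern 110 at `(ρ 0, ρ (p + 1), ρ (p + 2))`: it contains `ρ k` for `k ≤ p + 1` and no `ρ k` for
`k ≥ p + 2` (for `k > p + 2`: otherwise it would contain `ρ (p + 2)`).  `t i = ρ (i + 2)`: `t i ∈ X p` iff `i + 2 ≤ p + 1` iff `i < p`.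
011: the same with the reversed enumeration `ρ' i = ρ (M - 1 - i)`, for which only 110 occurs. -/
def S_S1b : Prop := ∀ m L : ℕ, ∃ N : ℕ, ∀ (V : Type) [Finite V] (T : Set V) (𝒲 : Set (Set V)),
  N ≤ T.ncard → (∀ a ∈ T, ∀ b ∈ T, ∀ c ∈ T, a ≠ b → a ≠ c → b ≠ c →
    (∃ X ∈ 𝒲, a ∈ X ∧ b ∈ X ∧ c ∉ X) → (∃ X ∈ 𝒲, a ∈ X ∧ c ∈ X ∧ b ∉ X) → False) →
  (∃ T' ⊆ T, T'.ncard = m ∧ ∀ X ∈ 𝒲, X ∩ T' = ∅ ∨ T' ⊆ X ∨ ∃ s ∈ T', X ∩ T' = {s}) ∨
    ∃ (t : ℕ → V) (X : ℕ → Set V), (∀ i, i < L → t i ∈ T ∧ X i ∈ 𝒲 ∧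
      ∃ a ∈ T, ∃ b ∈ T, a ≠ b ∧ a ∈ X i ∧ b ∈ X i) ∧
      (∀ i, i < L → ∀ j, j < L → i ≠ j → t i ≠ t j) ∧ ∀ i, i < L → ∀ j, j < L → (t i ∈ X j ↔ i < j)

/-- **S1.** The regular setting.  (Uses `S_B2`, `S_HG`, `S_S1a`, `S_S1b`.)

Proof. `L` from HG for `q`; `N` from S1b for `m`, `L`.  For `k ∈ K` let
`X_k = {s ∈ T | v s ≁ k}`, `𝒲 = {X_k | k ∈ K}`.  The hypothesis of S1b is S1a.  First case: `T'`; `St G K T' v`: `TM`, `Wt` by B2, `Sep`
passes to subsets; `hom`: `X_k ∩ T' = ∅`: `k ∈ kZ`; `T' ⊆ X_k`: `k ∈ kD`; `X_k ∩ T' = {s}`: `k ∈ kP s`.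
Second case: `X j = X_(κ j)`, `κ j ∈ K`, for `j < L`.  HG with `t`, `y i = v (t i)`, `a j = κ j`: `y i ~ a j` iff `t i ∉ X j` iff `j ≤ i`.
`a j ∉ T`: an element `k ∈ T` is missed only by `v k`, but `X j` has two elements.  The `a j` are different: for `i < j` `t i ∈ X j`,
`t i ∉ X i`; so they are adjacent. -/
def S_S1 : Prop := ∀ q m : ℕ, 6 ≤ m → ∃ N : ℕ, ∀ (V : Type) [Finite V] (G : SimpleGraph V)
  (K T : Set V) (v : V → V), St0 G K T v → Lk G T q → N ≤ T.ncard →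
    ∃ T' ⊆ T, T'.ncard = m ∧ St G K T' v

/-! ## stars: the components -/

/-- **S0.** Witnesses and components; one colour.  (Uses `S_B1`, `S_N0`, `S_M1`.)

Proof. (1) `v t ≁ t`, `v t ≠ t` (`v t ∉ T`), `K` is a clique which contains `t`.
(2) `C` is a component of `G - K`.  (3) (1), (2).
(4) `v s ~ s'`, `v s ≁ s`, `v s' ~ s`, `v s' ≁ s'`: B1 with `K := T`.
(5) Since `C` contains at most one witness there are three elements `t₀, t₁, t₂` of `T` whose witnesses are outside `C`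
(`|T| ≥ 6`), `Out` by (3).  N0 (`C` is disjoint from `T ⊆ K`): no vertex of `C` misses all of `T`, so all missed sets are empty or singletons
(`TM`).  CLAIM: if `p ∈ C`, `Ms G T p = {g}` and `v g ∉ C` then all vertices of `C` miss `g`.  Otherwise (`Conn` for `{u ∈ C | u ≁ g}`) there are
`p' ~ p''` in `C`, `p' ≁ g`, `p'' ~ g`.  `Ms G T p' = {g}`; `p''` is full: otherwise `Ms G T p'' = {g'}`, `g' ≠ g`, B1.  Let `h ∈ T`, `h ≠ g`, `v h ∉ C`.  M1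
with `a = a' = h`, `b = g`, `c = p''`, `x = v g`, `y = v h`, `z = p'`: `v g ~ h`, `v g ≁ g, p''`; `v h ~ g`, `v h ≁ h, p''`; `p' ~ h, p''`, `p' ≁ g`;
`v g ≁ v h`, `v g, v h ≁ p'`: contradiction.
If two different colours `g ≠ g'` occur in `C` (`Ms G T p = {g}`, `Ms G T p₁ = {g'}`) then `v g ∉ C` or `v g' ∉ C`, say `v g ∉ C`; then `p₁`
misses `g`: contradiction.  If no colour occurs take any `g ∈ T`. -/
def S_S0 : Prop := ∀ (V : Type) [Finite V] (G : SimpleGraph V) (K T : Set V) (v : V → V),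
  St G K T v → (∀ t ∈ T, v t ∉ K) ∧
  (∀ C, IsComp G Kᶜ C → ∀ w, w ∉ K → w ∉ C → Out G C w) ∧
  (∀ C, IsComp G Kᶜ C → ∀ t ∈ T, v t ∉ C → Out G C (v t)) ∧
  (∀ s ∈ T, ∀ s' ∈ T, s ≠ s' → ¬ G.Adj (v s) (v s')) ∧
  ∀ C, Cn G K T C → ∃ g ∈ T, ∀ u ∈ C, Ms G T u = ∅ ∨ Ms G T u = {g}

/-- **S1c.** Fresh colours.  (Uses `S_S0`.)

Proof. Exclude `e`, the colours `g` of `C` and of `C'` (S0 (5)), and the at most one `t` with `v t ∈ C`, and with `v t ∈ C'` (`Sep`): at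
most five elements, `|T| ≥ 6`.  If `g` is not the colour of `C` then no vertex of `C` misses `g`. -/
def S_S1c : Prop := ∀ (V : Type) [Finite V] (G : SimpleGraph V) (K T : Set V) (v : V → V),
  St G K T v → ∀ C C', Cn G K T C → Cn G K T C' → ∀ e, ∃ g ∈ T, g ≠ e ∧ v g ∉ C ∧ v g ∉ C' ∧
    (∀ c ∈ C, G.Adj c g) ∧ ∀ c ∈ C', G.Adj c g

/-- **S2.** Components and `P f`.  (Uses `S_P1`, `S_S0`, `S_S1c`.)

Proof. `g` from S1c (`C' = C`, `e = f`).  P1 with `k₁ = t`, `k₂ = g`, `x = v g`, `y = v f`: `t ~ g` (`t ≠ g`: `v g ~ t`, `v g ≁ g`); `v g ~ t` (`t ∈ P f`,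
`g ≠ f`), `v g ≁ g`; `v f ~ g`, `v f ≁ t`; `Out`, `v g ≁ v f` by S0.  `C` is complete to `g` (and not empty). -/
def S_S2 : Prop := ∀ (V : Type) [Finite V] (G : SimpleGraph V) (K T : Set V) (v : V → V),
  St G K T v → ∀ C, Cn G K T C → ∀ f ∈ T, v f ∉ C → ∀ t ∈ kP G K T v f, (∃ c ∈ C, G.Adj c t) →
    ∀ c ∈ C, G.Adj c t

/-- **S3.** Type 0.  (Uses `S_M4`, `S_S0`.)

Proof. `C` contains no witness (`Ms G T (v t) = {t} ≠ T`).  Let `u ∈ C`, `u ~ k`.  `u` misses all of `T`, so `k ∉ T`.  `k` is in `kD` or in some `kP f`.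
`k ∈ kD`: let `a, b, c ∈ T` be different; M4: `a = a' = c`, `b := k`, `c := a`; `x = v a`, `y = u`, `z = v b`: `v a ~ c`, `v a ≁ k, a`; `u ~ k`,
`u ≁ c, a`; `v b ~ c, a`, `v b ≁ k`; not adjacent: S0.
`k ∈ kP f`: let `g ∈ T`, `g ≠ f`; M4: `a = a' = k`, `b := g`, `c := f`; `x = u`, `y = v f`, `z = v g`: `u ~ k`, `u ≁ g, f`; `v f ~ g`, `v f ≁ k, f`;
`v g ~ k, f`, `v g ≁ g`. -/
def S_S3 : Prop := ∀ (V : Type) [Finite V] (G : SimpleGraph V) (K T : Set V) (v : V → V),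
  St G K T v → ∀ C, IsComp G Kᶜ C → T0 G T C → ∀ k ∈ K, k ∉ kZ G K T v → ∀ c ∈ C, ¬ G.Adj c k

/-- **S4.** At most one index.  (Uses `S_M4`, `S_S0`, `S_S2`.)

Proof. Let `c₁ ≁ t ∈ P f`, `c₂ ≁ t' ∈ P f'`, `c₁, c₂ ∈ C`, `f ≠ f'`.  `v f ∉ C`: otherwise `v f' ∉ C` (`Sep`), `v f ~ t'`, so by S2 `C` is complete to
`t'`, contradiction.  In the same way `v f' ∉ C`.  So by S2 all vertices of `C` miss `t` and `t'`.  By S0 (5) `C` has no
vertex which misses `f`, or no vertex which misses `f'` (one colour); by symmetry let the first be the case (`C` is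
complete to `f`).  Let `u ∈ C`.  M4: `a = a' = f`, `b := t'`, `c := t`; `x = u`, `y = v f`, `z = v f'`: `u ~ f`, `u ≁ t', t`; `v f ~ t'`, `v f ≁ f, t`;
`v f' ~ f, t`, `v f' ≁ t'`; `t ≠ f` (`u`). -/
def S_S4 : Prop := ∀ (V : Type) [Finite V] (G : SimpleGraph V) (K T : Set V) (v : V → V),
  St G K T v → ∀ C, ∀ f ∈ T, ∀ f' ∈ T, Ix G K T v C f → Ix G K T v C f' → f = f'

/-- **S5.** Touched but not complete.  (Uses `S_P1`, `S_S0`, `S_S1c`.)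

Proof. Suppose `u ∈ C'`, `u ≁ q`.  `g` from S1c for `C`, `C'`.  P1 with `k₁ = q`, `k₂ = g`, `x = v g`, `y = u`: `q ~ g` (`q ≠ g`: `v g ~ q`, `v g ≁ g`);
`v g ~ q`, `v g ≁ g`; `u ~ g`, `u ≁ q`; `Out G C (v g)`, `Out G C u` (different components), `v g ≁ u` (`v g ∉ C'`).  `C` touches `q` and is
complete to `g`, so it is complete to `q`: contradiction. -/
def S_S5 : Prop := ∀ (V : Type) [Finite V] (G : SimpleGraph V) (K T : Set V) (v : V → V),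
  St G K T v → ∀ C C', Cn G K T C → Cn G K T C' → C ≠ C' → ∀ q ∈ kZ G K T v, (∃ c ∈ C, G.Adj c q) →
    (∃ c ∈ C, ¬ G.Adj c q) → ∀ u ∈ C', G.Adj u q

/-- **S6.** Components of index `e` without the witness of `e`.  (Uses `S_M4`, `S_S0`, `S_S1c`, `S_S2`.)

Proof. By S2 all of `C` misses `t`.  Suppose `c ~ r`, `r ∈ kD`.  `g` from S1c (`g ≠ e`, `v g ∉ C`, `C` complete to `g`).  M4: `a = a' = g`, `b := t`,
`c := r`; `x = v e`, `y = v g`, `z = c`: `v e ~ g`, `v e ≁ t, r`; `v g ~ t`, `v g ≁ g, r`; `c ~ g, r`, `c ≁ t`; `r ≠ g` (`v e`). -/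
def S_S6 : Prop := ∀ (V : Type) [Finite V] (G : SimpleGraph V) (K T : Set V) (v : V → V),
  St G K T v → ∀ C, Cn G K T C → ∀ e ∈ T, v e ∉ C → ∀ t ∈ kP G K T v e, (∃ c ∈ C, ¬ G.Adj c t) →
    (∀ c ∈ C, ¬ G.Adj c t) ∧ ∀ r ∈ kD G K T v, ∀ c ∈ C, ¬ G.Adj c r

/-- **S7.** Different indices.  (Uses `S_M4`, `S_S0`, `S_S4`, `S_S5`, `S_S6`.)

Proof. `C ≠ C'` by S4.  Suppose that both are not complete to `q`.  If `C` touched `q` then `C'` would be complete to `q` (S5); so all of `C`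
misses `q`, and all of `C'` misses `q`.  `v e ~ q`, `v f ~ q` (`q ∈ Z`): `v e ∉ C`, `v f ∉ C'`.  By S6 there are `t ∈ P e` missed by all of
`C` and `t' ∈ P f` missed by all of `C'`.  `C` is complete to `P f`, `C'` is complete to `P e` (S4).  `v e ∉ C'` (`v e ≁ e ∈ P e`).  Let `u ∈ C`,
`u' ∈ C'`.  M4: `a = a' = t'`, `b := t`, `c := q`; `x = u`, `y = u'`, `z = v e`: `u ~ t'`, `u ≁ t, q`; `u' ~ t`, `u' ≁ t', q`; `v e ~ t', q`,
`v e ≁ t`; `q ≠ t'` (`v f`). -/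
def S_S7 : Prop := ∀ (V : Type) [Finite V] (G : SimpleGraph V) (K T : Set V) (v : V → V),
  St G K T v → ∀ C C', ∀ e ∈ T, ∀ f ∈ T, e ≠ f → Ix G K T v C e → Ix G K T v C' f →
    ∀ q ∈ kZ G K T v, (∃ c ∈ C, ¬ G.Adj c q) → ∀ c ∈ C', G.Adj c q

/-- **S8.** Neutral components.  (Uses `S_M4`, `S_S0`, `S_S1c`, `S_S5`, `S_S6`.)

Proof. `C ≠ C''` (`C` is not complete to `P e`, `C''` is).  `C''` contains no witness (`v s ≁ s ∈ P s`).  As in S7: by S5 all of `C` and all of `C''`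
misses `q`.  `v e ~ q`, so `v e ∉ C`; `t ∈ P e` missed by all of `C`, and `C` misses `kD` (S6).
(3) Let `r ∈ K` be missed by all of `C''`, and suppose `c₁ ∈ C`, `c₁ ~ r`.  `r ∉ kD`, `r ∉ P s` (`C''` is complete to `P s` and not
empty), so `r ∈ kZ` (`hom`).  Let `u ∈ C''`.  M4: `a = a' = r`, `b := t`, `c := q`; `x = c₁`, `y = u`, `z = v e`: `c₁ ~ r`, `c₁ ≁ t, q`; `u ~ t`,
`u ≁ r, q`; `v e ~ r, q`, `v e ≁ t`; `q ≠ r` (`c₁`).
(4) Suppose `r ∈ kD`, `u ∈ C''`, `u ~ r`.  `g` from S1c (`g ≠ e`, `v g ∉ C`, `C` complete to `g`), `c ∈ C`.  M4: `a = a' = g`, `b := q`, `c := r`;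
`x = c`, `y = v g`, `z = u`: `c ~ g`, `c ≁ q, r`; `v g ~ q`, `v g ≁ g, r`; `u ~ g` (`g ∈ P g`), `u ~ r`, `u ≁ q`; `r ≠ g`. -/
def S_S8 : Prop := ∀ (V : Type) [Finite V] (G : SimpleGraph V) (K T : Set V) (v : V → V),
  St G K T v → ∀ C C'', ∀ e ∈ T, Ix G K T v C e → Nt G K T v C'' → ∀ q ∈ kZ G K T v,
    (∃ c ∈ C, ¬ G.Adj c q) → (∃ c ∈ C'', ¬ G.Adj c q) →
    (∀ c ∈ C, ¬ G.Adj c q) ∧ (∀ c ∈ C'', ¬ G.Adj c q) ∧
    (∀ r ∈ K, (∀ c ∈ C'', ¬ G.Adj c r) → ∀ c ∈ C, ¬ G.Adj c r) ∧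
    ∀ r ∈ kD G K T v, ∀ c ∈ C'', ¬ G.Adj c r

/-- **S8b.** The structure.  (Uses `S_S4`, `S_S5`, `S_S7`, `S_S8`.)

Proof. (1) Let `q₁ ∈ Ze e` with `C` not complete to `q₁`, `q ∈ Ze f`; `C_e`, `C_f` components of first index `e`, `f` not complete to `q₁`, `q`.  S8
for `C_e`, `q₁`: all of `C` misses `q₁`.  S8 (3) for `C_f`, `q` with `r = q₁`: all of `C_f` misses `q₁`.  If `e ≠ f` this contradicts S7
(`C_e`, `C_f`, `q₁`).
(2) `k ∈ kZ` or `k ∈ kP f`, `f ≠ e` (`hom`).  `kP f`: `C` is complete to `kP f` by S4.  `kZ`: otherwise `k ∈ Ze e`.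
(3) `k ∈ kP f`: `C` is neutral.  `k ∈ kZ`, suppose that `C` is not complete to `k`: if `k ∈ Ze f`, `f ∈ T`, then `e = f` by (1):
contradiction; otherwise `k ∈ Zp e`.
(4) `C` is complete to `kP e` (not `Ix e`).  Let `k ∈ Ze e`, `C_e` of first index `e` not complete to `k`; suppose that `C` is not complete to `k`.
If `C` has a first index `f` then `f ≠ e`, contradiction to S7.  Otherwise `C` is neutral and has second index `e`.
Let `k ∈ Zp e`, `C₂` of second index `e` and not complete to `k`; `C₂ ≠ C`.  `C₂` touches `k`: otherwise let `q₁ ∈ Ze e` with `C₂` not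
complete to `q₁`, `C_e` as before for `q₁`; S8 (3) with `r = k`: all of `C_e` misses `k`, so `k ∈ Ze e`, contradiction.  S5: `C` is complete
to `k`. -/
def S_S8b : Prop := ∀ (V : Type) [Finite V] (G : SimpleGraph V) (K T : Set V) (v : V → V),
  St G K T v →
  (∀ C, ∀ e ∈ T, ∀ f ∈ T, I2 G K T v C e → ∀ q ∈ Ze G K T v f, (∃ c ∈ C, ¬ G.Adj c q) → e = f) ∧
  (∀ C, ∀ e ∈ T, Ix G K T v C e → ∀ k ∈ K, k ∉ kD G K T v → k ∉ kP G K T v e →
    k ∉ Zq G K T v e → ∀ c ∈ C, G.Adj c k) ∧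
  (∀ C, ∀ e ∈ T, I2 G K T v C e → ∀ k ∈ K, k ∉ kD G K T v → k ∉ Zq G K T v e →
    ∀ c ∈ C, G.Adj c k) ∧
  ∀ C, Cn G K T C → ∀ e ∈ T, ¬ Ix G K T v C e → ¬ I2 G K T v C e →
    ∀ k ∈ kP G K T v e ∪ Zq G K T v e, ∀ c ∈ C, G.Adj c k

/-- **S9a.** Type 0 and `Ze`.  (Uses `S_M1`, `S_M4`, `S_S0`, `S_S1c`, `S_S3`, `S_S4`, `S_S6`, `S_S7`.)

Proof. Let `c ∈ C`, `c ≁ q`, `c₀ ∈ C₀`, `c₀ ~ q`.  `C₀` contains no witness, `C₀ ≠ C` (`C` is not of type 0).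
(i) `c` is complete to `P e`: otherwise let `t ∈ P e`, `c ≁ t`, `g` from S1c (`g ≠ e`, `v g ∉ C`, `C` complete to `g`).  M4: `a = a' = q`, `b := g`,
`c := t`; `x = c₀`, `y = c`, `z = v g`: `c₀ ~ q`, `c₀ ≁ g` (type 0), `c₀ ≁ t` (S3, `t ∉ kZ`); `c ~ g`, `c ≁ q, t`; `v g ~ q, t`, `v g ≁ g`; `t ≠ q`.
(ii) `v e ∈ C`: otherwise by S6 some `t ∈ P e` is missed by all of `C`, contradiction to (i).
(iii) `c ~ e` by (i) (`e ∈ P e`).
(iv) Let `f ∈ T`, `f ≠ e`, `v f ∈ C_f`, and suppose that some vertex of `C_f` sees `f`.  `{u ∈ C_f | u ≁ f}` contains `v f`: by `Conn` there are `w ~ u'` in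
`C_f`, `w ≁ f`, `u' ~ f`.  `C_f` has first index `f` (`v f ≁ f ∈ P f`; it is not of type 0), so by S7 (for `C`, `C_f`) `C_f` is complete to
`q`.  `C_f ≠ C` (`Sep`), `C_f ≠ C₀`.  `C` is complete to `P f` (S4).  M1 with `a = a' = q`, `b = f`, `c = u'`, `x = c₀`, `y = c`, `z = w`: `f ~ q`
(`f ≠ q`: `v f`), `u' ~ q, f`; `c₀ ~ q`, `c₀ ≁ f, u'`; `c ~ f`, `c ≁ q, u'`; `w ~ q, u'`, `w ≁ f`; `c₀, c, w` are in different components. -/
def S_S9a : Prop := ∀ (V : Type) [Finite V] (G : SimpleGraph V) (K T : Set V) (v : V → V),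
  St G K T v → ∀ C₀ C, IsComp G Kᶜ C₀ → T0 G T C₀ → ∀ e ∈ T, Ix G K T v C e → ∀ q ∈ kZ G K T v,
    (∃ c ∈ C, ¬ G.Adj c q) → (∃ c ∈ C₀, G.Adj c q) →
    v e ∈ C ∧ (∃ c ∈ C, G.Adj c e) ∧ ∀ f ∈ T, f ≠ e → ∀ Cf, IsComp G Kᶜ Cf → v f ∈ Cf →
      ∀ u ∈ Cf, ¬ G.Adj u f

/-- **S9.** Type 0 and `Z⁺`.  (Uses `S_M4`, `S_S0`, `S_S8`, `S_S9a`.)

Proof. Call `e ∈ T` bad if some component of type 0 touches some `q ∈ Ze e`.  Two different elements `e, f` cannot both be bad: S9a for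
`e`, with the component `C` of first index `e` not complete to `q`, says that the component `C_f` of `v f` misses `f`, and S9a for `f` says
that it contains a vertex which sees `f` (the component with `v f ∈ C`).  Let `b` be the bad element, if there is one.  Let `e ≠ b`, `C₀` of
type 0, `q ∈ Zq e`, `c₀ ∈ C₀`, `c₀ ~ q`.  `q ∉ Ze e`.  So `q ∈ Zp e`: `C''` of second index `e`, `c ∈ C''`, `c ≁ q`; `z ∈ Ze e` to which `C''` is not
complete; by S8 all of `C''` misses `z`.  `c₀ ≁ z` (`e` is not bad).  Let `g ∈ T`; `v g ∉ C''` (neutral, `v g ≁ g ∈ P g`).  M4: `a = a' = q`, `b := g`,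
`c := z`; `x = c₀`, `y = c`, `z = v g`: `c₀ ~ q`, `c₀ ≁ g, z`; `c ~ g`, `c ≁ q, z`; `v g ~ q, z`, `v g ≁ g`; `z ≠ q`; three different
components. -/
def S_S9 : Prop := ∀ (V : Type) [Finite V] (G : SimpleGraph V) (K T : Set V) (v : V → V),
  St G K T v → ∃ b, ∀ e ∈ T, e ≠ b → ∀ C₀, IsComp G Kᶜ C₀ → T0 G T C₀ → ∀ q ∈ Zq G K T v e,
    ∀ c ∈ C₀, ¬ G.Adj c q

/-- **S10a.** The components of the witnesses and `D`.  (Uses `S_M0`, `S_S0`.)

Proof. Suppose `d ≠ d'`.  Let `w ∈ C`, `w ~ d`; `w ≠ v e` (`d ∈ kD`).  `Y` = component of `w` in `G[C \ {v e}]` (`exists_comp`); `C` is connected and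
`Y ≠ C`, so some element of `C \ Y` is adjacent to `Y`, it is `v e`.  In the same way `Y' ⊆ C' \ {v f}`, connected, `v f` and `d'`
touch `Y'`.  `C ≠ C'` (`Sep`).  Let `g ∈ T`, `g ≠ e, f`; `v g ∉ C, C'`.  M0 with `P0 = {e}`, `P1 = insert d Y`, `P2 = insert d' Y'`, `x = v g`,
`y = v e`, `z = v f`: `e ~ d, d'` (`K` is a clique, `v g ~ e`, `v g ≁ d`), `d ~ d'`; `v g ~ e`, `v g` misses `d, Y, d', Y'`; `v e` touches `Y`,
`v e ≁ e, d'`, misses `Y' ⊆ C'`; `v f ~ e`, touches `Y'`, misses `d` and `Y`; the witnesses are pairwise not adjacent (S0). -/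
def S_S10a : Prop := ∀ (V : Type) [Finite V] (G : SimpleGraph V) (K T : Set V) (v : V → V),
  St G K T v → ∀ C C', IsComp G Kᶜ C → IsComp G Kᶜ C' → ∀ e ∈ T, ∀ f ∈ T, e ≠ f → v e ∈ C →
    v f ∈ C' → ∀ d ∈ kD G K T v, ∀ d' ∈ kD G K T v, (∃ c ∈ C, G.Adj c d) →
    (∃ c ∈ C', G.Adj c d') → d = d'

/-- **S10.** The rows on `D`.  (Uses `S_S6`, `S_S8`, `S_S10a`.)

Proof. A component `C` of first index `e` with `v e ∉ C` misses `kD` (S6), and so does a component of second index `e` (S8 (4), with the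
component of first index `e` which is not complete to `q ∈ Ze e`).  Let `F` be the set of all `e ∈ T` such that the component of `v e` touches
`kD`.  If `F` has at most one element let `b` be this element and `δ = ∅`.  If `F` contains `e₁ ≠ e₂` let `d₁`, `d₂` be elements of `kD`
touched by the components of `v e₁`, `v e₂`; `δ = {d₁}`, `b` arbitrary (not needed).  If the component `C` of `v e`, `e ∈ T`, touches `d' ∈ kD` then
`d' = d₁`: S10a gives `d₁ = d₂`, and `e ≠ e₁` or `e ≠ e₂`, so `d' = d₁` or `d' = d₂` by S10a.  So a vertex of `C` sees nothing of `kD`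
or exactly `d₁`. -/
def S_S10 : Prop := ∀ (V : Type) [Finite V] (G : SimpleGraph V) (K T : Set V) (v : V → V),
  St G K T v → ∃ (b : V) (δ : Set V), ∀ e ∈ T, e ≠ b → ∀ C, Ix G K T v C e ∨ I2 G K T v C e →
    ∀ c ∈ C, (∀ d ∈ kD G K T v, ¬ G.Adj c d) ∨ ∀ d ∈ kD G K T v, (G.Adj c d ↔ d ∈ δ)

/-- **Cut.** The cut.  (Uses `S_A1`, `S_S3`, `S_S8b`, `S_S9`, `S_S10`.)

Proof. `b₁` from S9, `b₂, δ` from S10.  `N = ⋃_(e ∈ I) (kP e ∪ Zq e) ⊆ K`, `M` = union of all components `C` with `Ix C e` or `I2 C e` for some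
`e ∈ I`; `X = N ∪ M`; `N` and `kD` are disjoint.  Every vertex outside `K` is in a component of `G[Kᶜ]` (`exists_comp`); two components which
meet are equal.
Rows of `N` on `Xᶜ`: let `a ∈ N`, `a ∈ kP e ∪ Zq e`, `e ∈ I`, `b ∈ Xᶜ`.  If `b ∈ K` then `a ~ b` (`K` is a clique).  If `b` is in a component `C` which is
not of type 0: `C` has no first or second index in `I` (`b ∉ M`), so `a ~ b` by S8b (4).  If `b` is in a component of type 0: `a ≁ b` by S3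
(`a ∈ kP e`; `a ∉ kZ`) or S9 (`a ∈ Zq e`, `e ≠ b₁`).  So A1 (5) (with the set of all vertices which are not in a component of type 0):
`rk G N Xᶜ ≤ 1`.
Rows of `M` on `Xᶜ`: let `a ∈ C ⊆ M`, `C` of index `e ∈ I`, `b ∈ Xᶜ`.  `b ∉ K`: `a ≁ b` (different components).  `b ∈ K \ kD`: `a ~ b` by S8b (2), (3)
(`b ∉ kP e`, `b ∉ Zq e` since `b ∉ N`).  `b ∈ kD`: S10 (`e ≠ b₂`).  So `M = M₁ ∪ M₂`, the vertices of `M₁` see exactly `K \ (N ∪ kD)` in `Xᶜ`, those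
of `M₂` exactly `K \ (N ∪ kD)` and `δ ∩ kD`: `rk G M Xᶜ ≤ 2` (A1 (3), (5)).  Together `cr G X = rk G X Xᶜ ≤ 3`.
`t ∈ T`: `t ∈ kP t`, so `t ∈ X` if `t ∈ I`.  If `t ∈ X` then `t ∈ N` (`T ⊆ K`), `t ∈ kP e ∪ Zq e`, `e ∈ I`; `t ∉ kZ ⊇ Zq e` (`v t ≁ t`); `t ∈ kP e`:
`v e ≁ t`, so `e = t`. -/
def S_Cut : Prop := ∀ (V : Type) [Finite V] (G : SimpleGraph V) (K T : Set V) (v : V → V),
  St G K T v → ∃ b₁ b₂ : V, ∀ I ⊆ T, b₁ ∉ I → b₂ ∉ I → ∃ X, cr G X ≤ 3 ∧ T ∩ X = I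

/-- **Star.** Linked stars are bounded.  (Uses `S_B2`, `S_S1`, `S_Cut`.)

Proof. `m = 6 * q + 6`, `N` from S1 for `q`, `m`.  If `N ≤ |T|`: `T'` with `|T'| = m`, `St G K T' v`, `Lk G T' q` (B2 (4)).  `b₁, b₂` from Cut; let
`I ⊆ T' \ {b₁, b₂}` with `3 * q + 1` elements.  `X` from Cut: `|T' ∩ X| = |I| = 3 * q + 1 > q * cr G X` and
`|T' \ X| = 6 * q + 6 - (3 * q + 1) > 3 * q`: contradiction to `Lk G T' q`. -/
def S_Star : Prop := ∀ q : ℕ, ∃ N : ℕ, ∀ (V : Type) [Finite V] (G : SimpleGraph V)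
  (K T : Set V) (v : V → V), St0 G K T v → Lk G T q → T.ncard < N

/-- **Fin.** Type (M) is excluded.  (Uses `S_B2`, `S_SN3`, `S_N6`, `S_Star`.)

Proof. `m'` from Star for `q`, `h` from N6 for `q`, `N` from SN3 for `m := m'`, `h`.  Claim for `m := N`: let `Lk G (rg s N) q`; `T = rg s N`, `TM G T`,
`|T| = N` (B2 (1)); `v` from B2 (5).  SN3: star: `T' ⊆ T`, `|T'| = m'`, `St0 G K T' v` (B2; `T' ⊆ T ⊆ K`), `Lk G T' q`: contradiction to Star.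
Chain: contradiction to N6. -/
def S_Fin : Prop := S_NoM

end Pool.Agent.MPd439b2.H1M
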